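import Pool.Agent.AED.Trees
import Pool.Agent.AEB.Heavy

/-!
# Rooted bounded degree trees from unrooted ones (LT): definitions
-/

namespace AELT

open Finset AE15 AED
open scoped Classical

variable {V : Type*} {R : V → V → Prop}

/-- the neighbours of `v` in `X` of sign `d` (`true`: out-neighbours) -/
noncomputable def nb (R : V → V → Prop) (d : Bool) (X : Finset V) (v : V) : Finset V := X.filter (fun u => Adj R d v u)

/-- number of arcs from `S` to `T` -/
noncomputable def ar (R : V → V → Prop) (S T : Finset V) : ℕ := ∑ s ∈ S, (nO R T s).card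

/-- edge expansion: at least `a * min (|S|) (|Y \ S|)` arcs leave `S` in `Y` -/
def Ex (R : V → V → Prop) (a : ℝ) (Y : Finset V) : Prop :=
  ∀ S ⊆ Y, a * (min S.card (Y \ S).card : ℕ) ≤ (ar R S (Y \ S) : ℝ)

/-- the unrooted statement: every tree with at most `b` children at each vertex is contained in every set of
`ρ * |T| + C` vertices -/
def Un (R : V → V → Prop) (b : ℕ) (ρ C : ℝ) : Prop := ∀ c : Fd, c.len ≤ b → c.Deg b → ∀ X : Finset V,
  ρ * (c.size + 1) + C ≤ X.card → In R c (fun _ => True) X

/-- chains of hosts: `y`, then the vertices of the list, the signs of the arcs being given -/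
def Wk (R : V → V → Prop) : V → List (Bool × V) → Prop
  | _, [] => True
  | y, p :: l => Adj R p.1 y p.2 ∧ Wk R p.2 l

/-- the vertices of `Y` from which the word `w` followed by `d` leads to `z`; at every step but the last there are at
least `k` choices -/
noncomputable def Bk (R : V → V → Prop) (Y : Finset V) (k : ℝ) (z : V) (d : Bool) : List Bool → Finset V
  | [] => Y.filter (fun v => Adj R d v z)
  | e :: w => Y.filter (fun v => k ≤ ((nb R e (Bk R Y k z d w) v).card : ℝ))

/-- every word of length `ℓ`, followed by any sign, leads from any vertex of `Y` to any vertex of `Y`, the inner hosts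
being in `Q` and avoiding any given set which meets `Q` in at most `w₀` vertices -/
def Conn (R : V → V → Prop) (Y Q : Finset V) (ℓ w₀ : ℕ) : Prop := ∀ y ∈ Y, ∀ z ∈ Y, ∀ ds : List Bool, ds.length = ℓ →
  ∀ d : Bool, ∀ W : Finset V, (W ∩ Q).card ≤ w₀ → ∃ l : List (Bool × V), l.map Prod.fst = ds ∧ Wk R y (l ++ [(d, z)]) ∧
    (l.map Prod.snd).Nodup ∧ ∀ p ∈ l, p.2 ∈ Q ∧ p.2 ∉ W

/-- a path in a tree starting at its root: `Spine l p q`: the tree `p` (direction and children forest) has a path whose
vertices but the last one carry, besides the path, the trees of `l`; the rest is the tree `q` at the last vertex -/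
inductive Spine : List (Bool × List (Bool × Fd)) → Bool × Fd → Bool × Fd → Prop
  | nil (p : Bool × Fd) : Spine [] p p
  | cons (d : Bool) (c : Fd) (s : List (Bool × Fd)) (p q : Bool × Fd) (l : List (Bool × List (Bool × Fd))) :
      c.trees.Perm (p :: s) → Spine l p q → Spine ((d, s) :: l) (d, c) q

/-- number of reserve vertices used for one tree after `J` generations -/
def cc (b ℓ : ℕ) : ℕ → ℕ
  | 0 => 0
  | J + 1 => ℓ + ℓ * b * cc b ℓ J

/-- bound for the mass of the orphans of a tree with `s` vertices after `J` generations -/
noncomputable def orp (b ℓ J : ℕ) (s : ℕ) : ℝ :=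
  (1 - 1 / ((b : ℝ) + 1) ^ ℓ) ^ J * s + (ℓ * b + 1 : ℝ) ^ J * ((b : ℝ) + 1) ^ (ℓ + 1)

/-- orphans of a list of trees -/
noncomputable def orpL (b ℓ J : ℕ) (ts : List (Bool × Fd)) : ℝ := (ts.map (fun p => orp b ℓ J (p.2.size + 1))).sum

/-- number of vertices below the common vertex reached by arcs away from the root only -/
def dcl : Fd → ℕ
  | .nil => 0
  | .node d c s => (if d then dcl c + 1 else 0) + dcl s

/-- forests whose vertices carry a label -/
inductive LF : Type
  | nil : LF
  | node (d e : Bool) (c s : LF) : LF

/-- forget the labels -/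
def LF.erase : LF → Fd
  | .nil => .nil
  | .node d _ c s => .node d c.erase s.erase

/-- the part connected with a host of label `e` inside its label -/
def LF.top (e : Bool) : LF → Fd
  | .nil => .nil
  | .node d e' c s => if e' = e then .node d (c.top e) (s.top e) else s.top e

/-- number of vertices with label `j` -/
def LF.num (j : Bool) : LF → ℕ
  | .nil => 0
  | .node _ e c s => (if e = j then 1 else 0) + c.num j + s.num j

/-- number of vertices with label `j` outside the part connected with a host of label `e` -/
def LF.off (e j : Bool) : LF → ℕ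
  | .nil => 0
  | .node _ e' c s => (if e' = e then c.off e j else (if e' = j then 1 else 0) + c.num j) + s.off e j

/-- all arcs which change the label go from `false` to `true`; the host has label `e` -/
def LF.Va : Bool → LF → Prop
  | _, .nil => True
  | e, .node d e' c s => (if d then (e = true → e' = true) else (e' = true → e = true)) ∧ c.Va e' ∧ s.Va e

/-- arcs from `G false` to `G true`: every vertex sees all but `ν` vertices of the other side in the right direction -/
def Typ (R : V → V → Prop) (ν : ℝ) (G : Bool → Finset V) : Prop :=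
  (∀ x ∈ G false, (((G true).filter (fun v => ¬ R x v)).card : ℝ) ≤ ν) ∧
    ∀ x ∈ G true, (((G false).filter (fun v => ¬ R v x)).card : ℝ) ≤ ν

/-- number of backward arcs of `X` with respect to the block numbers `i` -/
noncomputable def backs (R : V → V → Prop) (X : Finset V) (i : V → ℕ) : ℕ :=
  ∑ v ∈ X, (X.filter (fun u => i u < i v ∧ R v u)).card

/-- number of backward arcs at `v` -/
noncomputable def wr (R : V → V → Prop) (X : Finset V) (i : V → ℕ) (v : V) : ℕ :=
  (X.filter (fun u => i u < i v ∧ R v u)).card + (X.filter (fun u => i v < i u ∧ R u v)).card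

/-- every closed set containing the out-neighbours of `z` has at least `a` elements -/
def Wide (R : V → V → Prop) (κ a : ℝ) (X : Finset V) (z : V) : Prop :=
  ∀ Q ⊆ X, nO R X z ⊆ Q → Closed R κ X Q → a ≤ (Q.card : ℝ)

end AELT
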