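import Pool.Agent.AELT.Main0

/-!
# LT: rooted bounded degree trees from unrooted ones

If every tree with at most `b` children at each vertex is contained in every set of `ρ * |T| + C` vertices, then such a
tree is also contained in every large set `X` of slightly more than `ρ * |T|` vertices with its root in a prescribed set,
provided that this set has linearly many vertices from which, in a robust sense, enough vertices can be reached in both
directions.
-/

namespace AELT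

open Finset AE15 AED LTT
open scoped Classical

/-- LT for a given partition -/
theorem lt_part {b n₁ : ℕ} {ρ C κ κ' ε k α ν : ℝ} (hρ : 1 ≤ ρ) (hC : 0 ≤ C) (hε : 0 < ε) (hε1 : ε ≤ 1) (hκ0 : 0 < κ')
    (hκ1 : κ' ≤ κ) (hκ2 : κ' ≤ ε / 4) (hk : 0 < k) (hα : 0 < α) (hαk : α ≤ k / 8) (hν0 : 0 < ν) (hνk : ν ≤ k / 64)
    (hνκ : ν ≤ κ' ^ 2 / 32) (hνε : ν ≤ ε / 64) {V : Type} {R : V → V → Prop} (hTour : AE32.Tour R) (hU : Un R b ρ C)
    (hcore : ∀ Y : Finset V, n₁ ≤ Y.card → Ex R (α * Y.card) Y → ∀ v ∈ Y, ∀ c : Fd, c.len ≤ b → c.Deg b →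
      ρ * (c.size + 1) ≤ (1 - ε / 16) * Y.card → ∃ S ⊆ Y, v ∉ S ∧ Emb R c v S)
    {X : Finset V} {N : V → Prop} (hX1 : 1 ≤ X.card) (b2 : 64 * (C + 1) ≤ ε * X.card)
    (b3 : 64 * (n₁ : ℝ) ≤ ε * X.card) (b4 : 1024 * ρ ≤ ε * X.card) {β : V → ℕ}
    (hUns : ∀ v ∈ X, Uns R X β (ε / 16) (ε / 64) k (β v)) {NG : Finset V}
    (hNG0 : ∀ v ∈ X, v ∉ NG → Gen R X β (ν * X.card) v) (hNG : (NG.card : ℝ) ≤ ν * X.card)
    {c : Fd} (hl : c.len ≤ b) (hD : c.Deg b) (hc : ρ * (c.size + 1) ≤ (1 - ε) * X.card) {S0 : Finset V} (hS0 : S0 ⊆ X)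
    (hSN : ∀ z ∈ S0, N z ∧ Wide R κ (ρ * (dcl c + 1) + ε * X.card) X z ∧
      Wide (fun a b => R b a) κ (ρ * (AEB.blk c + 1) + ε * X.card) X z) (hS : ε * X.card ≤ (S0.card : ℝ)) :
    In R c N X := by
  have hρ0 : 0 < ρ := by linarith
  obtain ⟨n, hnn⟩ : ∃ n : ℝ, n = (X.card : ℝ) := ⟨_, rfl⟩
  have hn1 : 1 ≤ n := by rw [hnn]; exact_mod_cast hX1
  have hn0 : 0 < n := by linarith
  have hνn : ν * n ≤ ε * n / 64 := by
    have : ν * n ≤ ε / 64 * n := mul_le_mul_of_nonneg_right hνε hn0.le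
    linarith
  have hNGn : (NG.card : ℝ) ≤ ε * n / 64 := by
    rw [← hnn] at hNG
    linarith
  have hMX : S0 \ NG ⊆ X := sdiff_subset.trans hS0
  have hεn : 0 < ε * n := mul_pos hε hn0
  have hMc : ε / 2 * X.card ≤ ((S0 \ NG).card : ℝ) := by
    have h1 : (S0.card : ℝ) ≤ (S0 \ NG).card + NG.card := by
      exact_mod_cast card_le_card_sdiff_add_card (s := S0) (t := NG)
    rw [← hnn] at hS ⊢
    linarith
  obtain ⟨v₀, hv₀, hv₀d⟩ := exists_block (β := β) (by linarith : (0 : ℝ) ≤ ε / 2) hMc (by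
    rw [← card_pos]
    have : (0 : ℝ) < (S0 \ NG).card := by
      rw [← hnn] at hMc
      linarith
    exact_mod_cast this)
  obtain ⟨j, hj⟩ : ∃ j : ℕ, j = β v₀ := ⟨_, rfl⟩
  rw [← hj] at hv₀d
  have hv₀X := hMX hv₀
  have hBdef : ∀ v, v ∈ blkI X β j ↔ v ∈ X ∧ β v = j := fun v => mem_blkI
  have huns := hUns v₀ hv₀X
  rw [← hj] at huns
  have hBn : ((blkI X β j).card : ℝ) ≤ n := by
    rw [hnn]; exact_mod_cast card_le_card (filter_subset _ _)
  -- block sizes
  have hsum : ((uppI X β j).card : ℝ) + (blkI X β j).card + (dwnI X β j).card = n := by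
    have h1 : X = (uppI X β j ∪ blkI X β j) ∪ dwnI X β j := by
      ext v
      simp only [mem_union, mem_uppI, mem_blkI, mem_dwnI]
      constructor
      · intro hv
        rcases lt_trichotomy (β v) j with h | h | h
        · exact Or.inl (Or.inl ⟨hv, h⟩)
        · exact Or.inl (Or.inr ⟨hv, h⟩)
        · exact Or.inr ⟨hv, h⟩
      · rintro ((h | h) | h) <;> exact h.1
    have h2 : Disjoint (uppI X β j) (blkI X β j) := by
      rw [disjoint_left]; intro v h h'; rw [mem_uppI] at h; rw [mem_blkI] at h'; omega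
    have h3 : Disjoint (uppI X β j ∪ blkI X β j) (dwnI X β j) := by
      rw [disjoint_left]; intro v h h'
      rw [mem_union, mem_uppI, mem_blkI] at h; rw [mem_dwnI] at h'; omega
    have h4 : X.card = (uppI X β j).card + (blkI X β j).card + (dwnI X β j).card := by
      conv_lhs => rw [h1]
      rw [card_union_of_disjoint h3, card_union_of_disjoint h2]
    rw [hnn, h4]
    push_cast
    ring
  have hclosed : 2 * (2 * ν) / κ' + ν ≤ κ' / 2 := by
    have h1 : 2 * (2 * ν) / κ' ≤ κ' / 8 := by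
      rw [div_le_iff₀ hκ0]
      linarith only [hνκ, sq κ']
    have h2 : κ' ^ 2 / 32 ≤ κ' / 8 := by
      have : κ' ≤ 1 := by linarith
      have h3 : κ' * κ' ≤ κ' := mul_le_of_le_one_right hκ0.le this
      linarith only [h3, sq κ', hκ0]
    linarith
  -- the middle region
  obtain ⟨z, Mid, m₁, hzS', hzM, hMB, hMG, Fm, Lm, hMc2, hroot⟩ := exists_mid (B := blkI X β j) (NG := NG)
    (S := (S0 \ NG).filter (fun u => β u = j)) hρ0 hε hε1 hk hα hαk hνk hνε hTour hU hcore hn0 (by rwa [← hnn] at b3)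
    (by rwa [← hnn] at b4) hBn (by rwa [← hnn] at hNG) (by
      intro u hu
      rw [mem_filter] at hu
      exact (hBdef u).2 ⟨hMX hu.1, hu.2⟩) (by
      rw [disjoint_left]
      intro u hu
      exact (mem_sdiff.1 (mem_filter.1 hu).1).2) hv₀d (v₀ := v₀) (mem_filter.2 ⟨hv₀, hj.symm⟩) (by
      intro hthick A hA h1 h2
      have h3 := huns (by rw [← hnn]; exact hthick) A hA h1 (by
        have h4 : ((blkI X β j \ A).card : ℝ) = (blkI X β j).card - A.card := by
          rw [card_sdiff_of_subset hA]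
          push_cast [Nat.cast_sub (card_le_card hA)]
          ring
        rw [h4] at h2
        linarith)
      have h4 : arcs R A (blkI X β j \ A) = (ar R A (blkI X β j \ A) : ℝ) := by
        simp [arcs, ar]
      rw [h4, ← hnn] at h3
      exact h3)
  have hzS : z ∈ S0 \ NG := (mem_filter.1 hzS').1
  have hzX : z ∈ X := hMX hzS
  have hzNG : z ∉ NG := (mem_sdiff.1 hzS).2
  have hβz : β z = j := ((hBdef z).1 (hMB hzM)).2
  obtain ⟨hNz, hW1, hW2⟩ := hSN z (mem_sdiff.1 hzS).1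
  -- few wrong arcs
  have typ_up : ∀ x ∈ X, x ∉ NG → ∀ S ⊆ X, (∀ v ∈ S, β x < β v) →
      ((S.filter (fun v => ¬ R x v)).card : ℝ) ≤ ν * n := by
    intro x hx hxN S hS hSβ
    rw [hnn]
    refine le_trans ?_ (hNG0 x hx hxN).2
    have h1 : S.filter (fun v => ¬ R x v) ⊆ nI R (dwnI X β (β x)) x := by
      intro v hv
      rw [mem_filter] at hv
      have h2 := hSβ v hv.1
      rw [mem_nI, mem_dwnI]
      refine ⟨⟨hS hv.1, h2⟩, ?_⟩
      rcases hTour.tot x v (fun e => by rw [e] at h2; exact lt_irrefl _ h2) with h3 | h3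
      · exact absurd h3 hv.2
      · exact h3
    exact_mod_cast card_le_card h1
  have typ_dn : ∀ x ∈ X, x ∉ NG → ∀ S ⊆ X, (∀ v ∈ S, β v < β x) →
      ((S.filter (fun v => ¬ R v x)).card : ℝ) ≤ ν * n := by
    intro x hx hxN S hS hSβ
    rw [hnn]
    refine le_trans ?_ (hNG0 x hx hxN).1
    have h1 : S.filter (fun v => ¬ R v x) ⊆ nO R (uppI X β (β x)) x := by
      intro v hv
      rw [mem_filter] at hv
      have h2 := hSβ v hv.1
      rw [mem_nO, mem_uppI]
      refine ⟨⟨hS hv.1, h2⟩, ?_⟩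
      rcases hTour.tot x v (fun e => by rw [e] at h2; exact lt_irrefl _ h2) with h3 | h3
      · exact h3
      · exact absurd h3 hv.2
    exact_mod_cast card_le_card h1
  -- reach
  have hreach : ρ * (dcl c + 1) + 7 / 8 * ε * n ≤ (blkI X β j).card + (dwnI X β j).card := by
    have hXY : X \ X.filter (fun v => j ≤ β v) = uppI X β j := by
      ext v
      simp only [mem_sdiff, mem_filter, mem_uppI, not_and, not_le]
      exact ⟨fun h => ⟨h.1, h.2 h.1⟩, fun h => ⟨h.1, fun _ => h.2⟩⟩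
    have h1 := reach_bound (R := R) (ε := ε) (Y := X.filter (fun v => j ≤ β v)) hκ0 hκ1 hκ2 hν0 hclosed
      (filter_subset _ _) (by
        intro v hv hvN
        rw [mem_filter] at hv
        rw [hXY]
        refine le_trans ?_ (hNG0 v hv.1 hvN).1
        have : nO R (uppI X β j) v ⊆ nO R (uppI X β (β v)) v := by
          apply nO_mono
          intro u hu
          rw [mem_uppI] at hu ⊢
          exact ⟨hu.1, lt_of_lt_of_le hu.2 hv.2⟩
        exact_mod_cast card_le_card this) hNG (mem_filter.2 ⟨hzX, hβz.ge⟩) hzNG hX1 hW1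
    have h2 : (X.filter (fun v => j ≤ β v)).card ≤ (blkI X β j).card + (dwnI X β j).card := by
      refine (card_le_card ?_).trans (card_union_le _ _)
      intro v hv
      rw [mem_filter] at hv
      rw [mem_union, mem_blkI, mem_dwnI]
      rcases hv.2.lt_or_eq with h | h
      · exact Or.inr ⟨hv.1, h⟩
      · exact Or.inl ⟨hv.1, h.symm⟩
    have h3 : ((X.filter (fun v => j ≤ β v)).card : ℝ) ≤ (blkI X β j).card + (dwnI X β j).card := by
      exact_mod_cast h2
    rw [← hnn] at h1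
    linarith
  have hcoreach : ρ * (AEB.blk c + 1) + 7 / 8 * ε * n ≤ (uppI X β j).card + (blkI X β j).card := by
    have hXY : X \ X.filter (fun v => β v ≤ j) = dwnI X β j := by
      ext v
      simp only [mem_sdiff, mem_filter, mem_dwnI, not_and, not_le]
      exact ⟨fun h => ⟨h.1, h.2 h.1⟩, fun h => ⟨h.1, fun _ => h.2⟩⟩
    have h1 := reach_bound (R := fun a b => R b a) (ε := ε) (Y := X.filter (fun v => β v ≤ j)) hκ0 hκ1 hκ2 hν0 hclosed
      (filter_subset _ _) (by
        intro v hv hvN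
        rw [mem_filter] at hv
        rw [hXY]
        refine le_trans ?_ (hNG0 v hv.1 hvN).2
        have : nI R (dwnI X β j) v ⊆ nI R (dwnI X β (β v)) v := by
          apply nI_mono
          intro u hu
          rw [mem_dwnI] at hu ⊢
          exact ⟨hu.1, lt_of_le_of_lt hv.2 hu.2⟩
        exact_mod_cast card_le_card this) hNG (mem_filter.2 ⟨hzX, hβz.le⟩) hzNG hX1 hW2
    have h2 : (X.filter (fun v => β v ≤ j)).card ≤ (uppI X β j).card + (blkI X β j).card := by
      refine (card_le_card ?_).trans (card_union_le _ _)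
      intro v hv
      rw [mem_filter] at hv
      rw [mem_union, mem_blkI, mem_uppI]
      rcases hv.2.lt_or_eq with h | h
      · exact Or.inl ⟨hv.1, h⟩
      · exact Or.inr ⟨hv.1, h⟩
    have h3 : ((X.filter (fun v => β v ≤ j)).card : ℝ) ≤ (uppI X β j).card + (blkI X β j).card := by
      exact_mod_cast h2
    rw [← hnn] at h1
    linarith
  -- the regions
  have hUpc : ((uppI X β j).card : ℝ) - ε * n / 64 ≤ (uppI X β j \ NG).card := by
    have h1 : ((uppI X β j).card : ℝ) ≤ (uppI X β j \ NG).card + NG.card := by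
      exact_mod_cast card_le_card_sdiff_add_card (s := uppI X β j) (t := NG)
    linarith
  have hDnc : ((dwnI X β j).card : ℝ) - ε * n / 64 ≤ (dwnI X β j \ NG).card := by
    have h1 : ((dwnI X β j).card : ℝ) ≤ (dwnI X β j \ NG).card + NG.card := by
      exact_mod_cast card_le_card_sdiff_add_card (s := dwnI X β j) (t := NG)
    linarith
  have fu := floor_facts (ρ := ρ) (x := (uppI X β j).card - ε * n / 4) hρ0
  have fw := floor_facts (ρ := ρ) (x := (dwnI X β j).card - ε * n / 4) hρ0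
  have hM1 : (1 : ℝ) ≤ Mid.card := by
    exact_mod_cast card_pos.2 ⟨z, hzM⟩
  obtain ⟨F₁, F₂, f1, f2, f3, f4, f5, f6, f7, f8, f9⟩ := numbers (C := C) (t := ν * n) (M := Mid.card)
    (D := (dwnI X β j \ NG).card) (U := (uppI X β j \ NG).card) hsum hρ hC hνn (by rw [hnn]; linarith)
    (by rw [hnn]; linarith) fu.1 fu.2 Fm Lm fw.1 fw.2 hMc2 hM1 hDnc (by positivity) hUpc (by rw [hnn]; exact hc) hreach
    hcoreach
  have hD1 : F₁.un.Deg b := by rw [f1]; exact hD
  have hl2 : F₂.top.len ≤ b := by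
    refine (F₂.top_len_le).trans ?_
    rw [f3]
    refine (F₁.top_len_le).trans ?_
    rw [f1]
    exact hl
  have hD2 : F₂.top.Deg b := F₂.top_deg (by rw [f3]; exact F₁.top_deg hD1)
  obtain ⟨P, hP, hzP, hPE⟩ := hroot F₂.top hl2 hD2 f5
  have hMβ : ∀ v ∈ Mid, v ∈ X ∧ β v = j := fun v hv => (hBdef v).1 (hMB hv)
  have hMN : ∀ v ∈ Mid, v ∉ NG := fun v hv => disjoint_left.1 hMG hv
  have hDβ : ∀ v ∈ dwnI X β j \ NG, (v ∈ X ∧ j < β v) ∧ v ∉ NG := fun v hv => by
    rw [mem_sdiff, mem_dwnI] at hv; exact hv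
  have hUβ : ∀ v ∈ uppI X β j \ NG, (v ∈ X ∧ β v < j) ∧ v ∉ NG := fun v hv => by
    rw [mem_sdiff, mem_uppI] at hv; exact hv
  obtain ⟨S, hS1, hzS'', hSE⟩ := assemble (Up := uppI X β j \ NG) (Mid := Mid) (Dn := dwnI X β j \ NG) (t := ν * n) hρ hU
    (by
      rw [disjoint_left]
      intro v h h'
      have := (hMβ v h).2
      have := (hDβ v h').1.2
      omega) (by
      rw [disjoint_left]
      intro v h h'
      have h2 := (hUβ v h').1.2
      rcases mem_union.1 h with h | h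
      · have := (hMβ v h).2
        omega
      · have := (hDβ v h).1.2
        omega)
    (fun x hx => by
      have h1 := hUβ x hx
      refine typ_up x h1.1.1 h1.2 _ ?_ ?_
      · intro v hv
        rcases mem_union.1 hv with h | h
        · exact (hMβ v h).1
        · exact (hDβ v h).1.1
      · intro v hv
        have h2 := h1.1.2
        rcases mem_union.1 hv with h | h
        · have := (hMβ v h).2
          omega
        · have := (hDβ v h).1.2
          omega)
    (fun x hx => by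
      have h1 : x ∈ X ∧ x ∉ NG ∧ j ≤ β x := by
        rcases mem_union.1 hx with h | h
        · exact ⟨(hMβ x h).1, hMN x h, (hMβ x h).2.ge⟩
        · exact ⟨(hDβ x h).1.1, (hDβ x h).2, (hDβ x h).1.2.le⟩
      refine typ_dn x h1.1 h1.2.1 _ (fun v hv => (hUβ v hv).1.1) ?_
      intro v hv
      have h2 := (hUβ v hv).1.2
      have h3 := h1.2.2
      omega)
    (fun x hx => by
      refine typ_up x (hMβ x hx).1 (hMN x hx) _ (fun v hv => (hDβ v hv).1.1) ?_
      intro v hv
      have h1 := (hDβ v hv).1.2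
      have h2 := (hMβ x hx).2
      omega)
    (fun x hx => by
      have h1 := hDβ x hx
      refine typ_dn x h1.1.1 h1.2 _ (fun v hv => (hMβ v hv).1) ?_
      intro v hv
      have h2 := (hMβ v hv).2
      have h3 := h1.1.2
      omega)
    hzM f3 f2 f4 hD1 hP hzP hPE f6 f7 f8 f9
  refine ⟨z, hzX, S, hS1.trans ?_, hzS'', hNz, by rw [f1] at hSE; exact hSE⟩
  refine union_subset (sdiff_subset.trans (filter_subset _ _)) (union_subset (hMB.trans (filter_subset _ _)) ?_)
  exact sdiff_subset.trans (filter_subset _ _)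

/-- **LT** -/
theorem lt (b : ℕ) (hb : 1 ≤ b) {ρ C κ ε : ℝ} (hρ : 1 ≤ ρ) (hC : 0 ≤ C) (hκ : 0 < κ) (hε : 0 < ε) : ∃ n₀ : ℕ,
    ∀ {V : Type} {R : V → V → Prop}, AE32.Tour R → Un R b ρ C → ∀ (X : Finset V) (N : V → Prop), n₀ ≤ X.card →
      ∀ c : Fd, c.len ≤ b → c.Deg b → ρ * (c.size + 1) ≤ (1 - ε) * X.card →
        ε * X.card ≤ ((X.filter (fun z => N z ∧ Wide R κ (ρ * (dcl c + 1) + ε * X.card) X z ∧
          Wide (fun a b => R b a) κ (ρ * (AEB.blk c + 1) + ε * X.card) X z)).card : ℝ) → In R c N X := by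
  have hρ0 : 0 < ρ := by linarith
  by_cases hε1 : 1 < ε
  · refine ⟨1, fun {V R} _ _ X N hn c _ _ hc _ => ?_⟩
    exfalso
    have h1 : (1 : ℝ) ≤ X.card := by exact_mod_cast hn
    have h2 : (0 : ℝ) < ρ * (c.size + 1) := by positivity
    have h3 : (1 - ε) * X.card ≤ 0 := mul_nonpos_of_nonpos_of_nonneg (by linarith only [hε1]) (by linarith only [h1])
    linarith only [h2, h3, hc]
  push Not at hε1
  -- constants
  obtain ⟨κ', hκ'⟩ : ∃ κ' : ℝ, κ' = min κ (ε / 4) := ⟨_, rfl⟩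
  have hκ0 : 0 < κ' := by rw [hκ']; exact lt_min hκ (by linarith)
  have hκ1 : κ' ≤ κ := by rw [hκ']; exact min_le_left _ _
  have hκ2 : κ' ≤ ε / 4 := by rw [hκ']; exact min_le_right _ _
  obtain ⟨k₀, hk₀, hpart⟩ := partition (η₀ := ε / 16) (η₁ := ε / 64) (by linarith) (by linarith) (by linarith)
    (by linarith) (fun k => min (k / 64) (min (κ' ^ 2 / 32) (ε / 64))) (fun k hk => by
      simp only [lt_min_iff]
      refine ⟨by linarith, by positivity, by linarith⟩) (k₁ := 1) one_pos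
  obtain ⟨α, hα⟩ : ∃ α : ℝ, α = min (k₀ / 8) (1 / 8) := ⟨_, rfl⟩
  have hα0 : 0 < α := by rw [hα]; exact lt_min (by linarith) (by norm_num)
  have hα1 : α ≤ 1 := by rw [hα]; exact (min_le_right _ _).trans (by norm_num)
  have hα2 : α ≤ k₀ / 8 := by rw [hα]; exact min_le_left _ _
  obtain ⟨n₁, hn₁⟩ := core_embed b hb (ρ := ρ) (C := C) (α := α) (β := ε / 16) hρ hC hα0 hα1 (by linarith)
  refine ⟨⌈1024 * ρ / ε⌉₊ + ⌈64 * (C + 1) / ε⌉₊ + ⌈64 * (n₁ : ℝ) / ε⌉₊ + 1, ?_⟩
  intro V R hTour hU X N hn c hl hD hc hS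
  have b4 : 1024 * ρ ≤ ε * X.card := by
    have h1 := Nat.le_ceil (1024 * ρ / ε)
    have h2 : (⌈1024 * ρ / ε⌉₊ : ℝ) ≤ X.card := by
      have : ⌈1024 * ρ / ε⌉₊ ≤ X.card := by omega
      exact_mod_cast this
    have h3 := h1.trans h2
    rw [div_le_iff₀ hε] at h3
    linarith
  have b2 : 64 * (C + 1) ≤ ε * X.card := by
    have h1 := Nat.le_ceil (64 * (C + 1) / ε)
    have h2 : (⌈64 * (C + 1) / ε⌉₊ : ℝ) ≤ X.card := by
      have : ⌈64 * (C + 1) / ε⌉₊ ≤ X.card := by omega
      exact_mod_cast this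
    have h3 := h1.trans h2
    rw [div_le_iff₀ hε] at h3
    linarith
  have b3 : 64 * (n₁ : ℝ) ≤ ε * X.card := by
    have h1 := Nat.le_ceil (64 * (n₁ : ℝ) / ε)
    have h2 : (⌈64 * (n₁ : ℝ) / ε⌉₊ : ℝ) ≤ X.card := by
      have : ⌈64 * (n₁ : ℝ) / ε⌉₊ ≤ X.card := by omega
      exact_mod_cast this
    have h3 := h1.trans h2
    rw [div_le_iff₀ hε] at h3
    linarith
  -- the partition
  obtain ⟨k, β, hk0, -, -, hUns, hNG⟩ := hpart (R := R) X
  have hk : 0 < k := lt_of_lt_of_le hk₀ hk0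
  obtain ⟨ν, hν⟩ : ∃ ν : ℝ, ν = min (k / 64) (min (κ' ^ 2 / 32) (ε / 64)) := ⟨_, rfl⟩
  simp only [← hν] at hNG
  have hν0 : 0 < ν := by
    rw [hν]
    simp only [lt_min_iff]
    refine ⟨by linarith, by positivity, by linarith⟩
  have hν1 : ν ≤ k / 64 := by rw [hν]; exact min_le_left _ _
  have hν2 : ν ≤ κ' ^ 2 / 32 := by rw [hν]; exact (min_le_right _ _).trans (min_le_left _ _)
  have hν3 : ν ≤ ε / 64 := by rw [hν]; exact (min_le_right _ _).trans (min_le_right _ _)
  refine lt_part hρ hC hε hε1 hκ0 hκ1 hκ2 hk hα0 (by linarith) hν0 hν1 hν2 hν3 hTour hU (hn₁ hTour hU) (by omega) b2 b3 b4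
    hUns (NG := X.filter (fun v => ¬ Gen R X β (ν * X.card) v)) ?_ hNG hl hD hc (filter_subset _ _) ?_ hS
  · intro v hv h
    by_contra hcon
    exact h (mem_filter.2 ⟨hv, hcon⟩)
  · intro z hz
    exact (mem_filter.1 hz).2

end AELT
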