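import Pool.Agent.AELT.Defs
import Pool.Agent.AE15.Structure

/-!
# Closed sets and blocks
-/

set_option autoImplicit false

namespace AELT

open Finset AE15 AED
open scoped Classical

/-- if few arcs leave `Y` in `X` and `z ∈ Y` has few out-neighbours outside `Y`, then a closed set containing the
out-neighbours of `z` is only slightly larger than `Y` -/
theorem exists_closed {V : Type*} {R : V → V → Prop} {κ ν δ : ℝ} (hκ : 0 < κ) (hν : 0 ≤ ν) (hδ : 0 ≤ δ)
    (h : 2 * δ / κ + ν ≤ κ / 2) {X Y : Finset V} (hY : Y ⊆ X) (ha : (ar R Y (X \ Y) : ℝ) ≤ δ * (X.card : ℝ) ^ 2) {z : V}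
    (hz : ((nO R (X \ Y) z).card : ℝ) ≤ ν * X.card) (hn : 1 ≤ X.card) :
    ∃ Q ⊆ X, nO R X z ⊆ Q ∧ Closed R κ X Q ∧ (Q.card : ℝ) ≤ Y.card + κ / 2 * X.card := by
  have hn0 : (0 : ℝ) < X.card := by exact_mod_cast hn
  -- the vertices outside `Y` with many in-neighbours in `Y`
  set H := (X \ Y).filter (fun u => κ / 2 * X.card ≤ ((nI R Y u).card : ℝ)) with hH
  set D := nO R (X \ Y) z with hD
  refine ⟨Y ∪ (H ∪ D), ?_, ?_, ?_, ?_⟩
  · refine union_subset hY (union_subset ((filter_subset _ _).trans sdiff_subset) (nO_sub.trans sdiff_subset))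
  · intro u hu
    rw [mem_nO] at hu
    by_cases h1 : u ∈ Y
    · exact mem_union_left _ h1
    · exact mem_union_right _ (mem_union_right _ (mem_nO.2 ⟨mem_sdiff.2 ⟨hu.1, h1⟩, hu.2⟩))
  · -- closedness
    have hHc : (H.card : ℝ) ≤ 2 * δ / κ * X.card := by
      have h1 : (∑ u ∈ X \ Y, ((nI R Y u).card : ℝ)) = (ar R Y (X \ Y) : ℝ) := by
        unfold ar
        rw [sum_nO_eq_sum_nI Y (X \ Y)]
        push_cast; rfl
      have h2 : (∑ u ∈ H, (κ / 2 * (X.card : ℝ))) ≤ ∑ u ∈ X \ Y, ((nI R Y u).card : ℝ) := by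
        refine (sum_le_sum (fun u hu => (mem_filter.1 hu).2)).trans ?_
        exact sum_le_sum_of_subset_of_nonneg (filter_subset _ _) (fun _ _ _ => by positivity)
      rw [sum_const, nsmul_eq_mul, h1] at h2
      have h3 := h2.trans ha
      have h4 : (H.card : ℝ) * κ ≤ 2 * δ * X.card := by
        have h5 : ((H.card : ℝ) * κ) * X.card ≤ (2 * δ * X.card) * X.card := by nlinarith
        exact le_of_mul_le_mul_right h5 hn0
      rw [div_mul_eq_mul_div, le_div_iff₀ hκ]
      exact h4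
    have hDc : (D.card : ℝ) ≤ ν * X.card := hz
    intro u hu huQ
    rw [mem_union, mem_union, not_or, not_or] at huQ
    obtain ⟨hu1, hu2, hu3⟩ := huQ
    have hu4 : ((nI R Y u).card : ℝ) < κ / 2 * X.card := by
      by_contra hc
      exact hu2 (mem_filter.2 ⟨mem_sdiff.2 ⟨hu, hu1⟩, not_lt.1 hc⟩)
    have h1 : nI R (Y ∪ (H ∪ D)) u ⊆ nI R Y u ∪ (H ∪ D) := by
      intro x hx
      rw [mem_nI] at hx
      rcases mem_union.1 hx.1 with h2 | h2
      · exact mem_union_left _ (mem_nI.2 ⟨h2, hx.2⟩)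
      · exact mem_union_right _ h2
    have h2 : (nI R (Y ∪ (H ∪ D)) u).card ≤ (nI R Y u).card + (H.card + D.card) :=
      (card_le_card h1).trans ((card_union_le _ _).trans (Nat.add_le_add_left (card_union_le _ _) _))
    have h3 : ((nI R (Y ∪ (H ∪ D)) u).card : ℝ) ≤ (nI R Y u).card + (H.card + D.card) := by exact_mod_cast h2
    have h4 : (2 * δ / κ + ν) * X.card ≤ κ / 2 * X.card := mul_le_mul_of_nonneg_right h hn0.le
    nlinarith
  · have h1 : (Y ∪ (H ∪ D)).card ≤ Y.card + (H.card + D.card) :=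
      (card_union_le _ _).trans (Nat.add_le_add_left (card_union_le _ _) _)
    have hHc : (H.card : ℝ) ≤ 2 * δ / κ * X.card := by
      have h1 : (∑ u ∈ X \ Y, ((nI R Y u).card : ℝ)) = (ar R Y (X \ Y) : ℝ) := by
        unfold ar
        rw [sum_nO_eq_sum_nI Y (X \ Y)]
        push_cast; rfl
      have h2 : (∑ u ∈ H, (κ / 2 * (X.card : ℝ))) ≤ ∑ u ∈ X \ Y, ((nI R Y u).card : ℝ) := by
        refine (sum_le_sum (fun u hu => (mem_filter.1 hu).2)).trans ?_
        exact sum_le_sum_of_subset_of_nonneg (filter_subset _ _) (fun _ _ _ => by positivity)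
      rw [sum_const, nsmul_eq_mul, h1] at h2
      have h3 := h2.trans ha
      have h4 : (H.card : ℝ) * κ ≤ 2 * δ * X.card := by
        have h5 : ((H.card : ℝ) * κ) * X.card ≤ (2 * δ * X.card) * X.card := by nlinarith
        exact le_of_mul_le_mul_right h5 hn0
      rw [div_mul_eq_mul_div, le_div_iff₀ hκ]
      exact h4
    have hDc : (D.card : ℝ) ≤ ν * X.card := hz
    have h2 : ((Y ∪ (H ∪ D)).card : ℝ) ≤ Y.card + (H.card + D.card) := by exact_mod_cast h1
    have h4 : (2 * δ / κ + ν) * X.card ≤ κ / 2 * X.card := mul_le_mul_of_nonneg_right h hn0.le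
    nlinarith

end AELT
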