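import Pool.Agent.AE15.Levels

/-!
# Sign patterns in expanding tournaments

`sg R σ` is `R` for `σ = true` and the reversed tournament for `σ = false`. `St R Q t S l`: the vertices of `Q` from
which a walk with the sign word `l` through `Q` leads to `S`, with at least `t` choices at each step. A change of sign
reaches almost everything in every tournament; equal signs use the levels. Result `connect`: between any two vertices
with large degrees into `Q` there are walks through `Q` with any given sign word of length at least `M + 4`.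
-/

namespace AELT

open Finset AE15
open scoped Classical

variable {V : Type*} {R : V → V → Prop}

/-- the tournament with the sign `σ` -/
def sg (R : V → V → Prop) (σ : Bool) : V → V → Prop := fun a b => if σ then R a b else R b a

theorem sg_true : sg R true = R := rfl

theorem sg_false {a b : V} : sg R false a b ↔ R b a := Iff.rfl

theorem sg_not {σ : Bool} {a b : V} : sg R (!σ) a b ↔ sg R σ b a := by
  cases σ <;> simp [sg]

theorem tour_sg (hT : AE32.Tour R) (σ : Bool) : AE32.Tour (sg R σ) := by
  cases σ with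
  | true => exact hT
  | false => exact ⟨fun a => hT.irr a, fun a b h => (hT.tot b a (Ne.symm h)), fun a b h => hT.asym _ _ h⟩

/-- in- and out-neighbours together are everything but at most one vertex -/
theorem card_sg_add (hT : AE32.Tour R) (σ : Bool) (X : Finset V) (v : V) :
    X.card ≤ (nO (sg R σ) X v).card + (nO (sg R (!σ)) X v).card + 1 := by
  have h1 : nO (sg R (!σ)) X v = nI (sg R σ) X v := by
    ext u
    rw [mem_nO, mem_nI, sg_not]
  rw [h1]
  by_cases hv : v ∈ X
  · exact (card_nO_add_nI' (tour_sg hT σ) hv).ge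
  · rw [card_nO_add_nI (tour_sg hT σ) hv]; omega

/-- the vertices from which a walk with the sign word `l` leads to `S` -/
noncomputable def St (R : V → V → Prop) (Q : Finset V) (t : ℕ) (S : Finset V) : List Bool → Finset V
  | [] => S
  | σ :: l => Q.filter (fun v => t ≤ (nO (sg R σ) (St R Q t S l) v).card)

variable {Q S : Finset V} {t : ℕ}

theorem St_sub (hS : S ⊆ Q) (l : List Bool) : St R Q t S l ⊆ Q := by
  cases l with
  | nil => exact hS
  | cons σ l => exact filter_subset _ _

/-- (A) one step loses at most `2 t` vertices -/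
theorem St_step (hT : AE32.Tour R) (hS : S ⊆ Q) (σ : Bool) (l : List Bool) :
    (St R Q t S l \ St R Q t S (σ :: l)).card ≤ 2 * t := by
  rcases Nat.eq_zero_or_pos t with ht | ht
  · subst ht
    have : St R Q 0 S l \ St R Q 0 S (σ :: l) = ∅ := by
      rw [sdiff_eq_empty_iff_subset]
      intro v hv
      exact mem_filter.2 ⟨St_sub hS l hv, Nat.zero_le _⟩
    rw [this]; simp
  · have h1 : St R Q t S l \ St R Q t S (σ :: l) ⊆
        (St R Q t S l).filter (fun v => (nO (sg R σ) (St R Q t S l) v).card ≤ t - 1) := by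
      intro v hv
      rw [mem_sdiff] at hv
      rw [mem_filter]
      refine ⟨hv.1, ?_⟩
      by_contra h
      apply hv.2
      exact mem_filter.2 ⟨St_sub hS l hv.1, by omega⟩
    have h2 := card_low (tour_sg hT σ) (St R Q t S l) (t - 1)
    have h3 := (card_le_card h1).trans h2
    omega

/-- several steps -/
theorem St_steps (hT : AE32.Tour R) (hS : S ⊆ Q) (p l : List Bool) :
    (St R Q t S l \ St R Q t S (p ++ l)).card ≤ 2 * t * p.length := by
  induction p with
  | nil => simp
  | cons σ p ih =>
    have h1 := St_step (t := t) hT hS σ (p ++ l)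
    have h2 : St R Q t S l \ St R Q t S (σ :: p ++ l) ⊆
        (St R Q t S l \ St R Q t S (p ++ l)) ∪ (St R Q t S (p ++ l) \ St R Q t S (σ :: (p ++ l))) := by
      intro v hv
      rw [mem_sdiff] at hv
      rw [mem_union, mem_sdiff, mem_sdiff]
      by_cases h : v ∈ St R Q t S (p ++ l)
      · exact Or.inr ⟨h, hv.2⟩
      · exact Or.inl ⟨hv.1, h⟩
    have h3 := (card_le_card h2).trans (card_union_le _ _)
    rw [List.length_cons]
    have h4 : 2 * t * (p.length + 1) = 2 * t * p.length + 2 * t := by ring
    omega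

/-- (B) a turn reaches everything but `2 t` vertices -/
theorem St_turn (hT : AE32.Tour R) (hS : S ⊆ Q) (σ : Bool) (l : List Bool)
    (hc : 4 * t ≤ (St R Q t S l).card) :
    (Q \ St R Q t S ((!σ) :: σ :: l)).card ≤ 2 * t := by
  have h1 : Q \ St R Q t S ((!σ) :: σ :: l) ⊆
      St R Q t S (σ :: l) \ St R Q t S ((!σ) :: σ :: l) := by
    intro s hs
    rw [mem_sdiff] at hs ⊢
    refine ⟨?_, hs.2⟩
    have h2 : (nO (sg R (!σ)) (St R Q t S (σ :: l)) s).card < t := by
      by_contra h
      exact hs.2 (mem_filter.2 ⟨hs.1, by omega⟩)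
    have h3 := St_step (t := t) hT hS σ l
    have h4 : nO (sg R (!σ)) (St R Q t S l) s ⊆
        nO (sg R (!σ)) (St R Q t S (σ :: l)) s ∪ (St R Q t S l \ St R Q t S (σ :: l)) := by
      intro u hu
      rw [mem_nO] at hu
      rw [mem_union, mem_nO, mem_sdiff]
      by_cases h : u ∈ St R Q t S (σ :: l)
      · exact Or.inl ⟨h, hu.2⟩
      · exact Or.inr ⟨hu.1, h⟩
    have h5 := (card_le_card h4).trans (card_union_le _ _)
    have h6 := card_sg_add hT σ (St R Q t S l) s
    exact mem_filter.2 ⟨hs.1, by omega⟩
  exact (card_le_card h1).trans (St_step hT hS _ _)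

/-- (C) equal signs follow the levels -/
theorem St_levels (hT : AE32.Tour R) (hS : S ⊆ Q) (σ : Bool) (l : List Bool) {k : ℝ} (M : ℕ)
    (hk : (2 * t * M + t : ℕ) ≤ k) :
    Lv (sg R σ) Q (St R Q t S l) k M \ St R Q t S (List.replicate M σ ++ l) ⊆
      St R Q t S l \ St R Q t S (List.replicate M σ ++ l) := by
  induction M with
  | zero => exact Subset.refl _
  | succ M ih =>
    have hk' : ((2 * t * M + t : ℕ) : ℝ) ≤ k := by
      refine le_trans ?_ hk
      have : 2 * t * M + t ≤ 2 * t * (M + 1) + t := by nlinarith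
      exact_mod_cast this
    have ih' := ih hk'
    have hlen : (List.replicate M σ).length = M := List.length_replicate
    have h0 := St_steps (t := t) hT hS (List.replicate M σ) l
    rw [hlen] at h0
    intro s hs
    rw [mem_sdiff] at hs ⊢
    refine ⟨?_, hs.2⟩
    have h1 := hs.1
    rw [Lv, mem_union] at h1
    rcases h1 with h1 | h1
    · exact h1
    · exfalso
      rw [mem_filter] at h1
      apply hs.2
      rw [List.replicate_succ, List.cons_append]
      refine mem_filter.2 ⟨h1.1, ?_⟩
      have h4 : nO (sg R σ) (Lv (sg R σ) Q (St R Q t S l) k M) s ⊆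
          nO (sg R σ) (St R Q t S (List.replicate M σ ++ l)) s ∪
            (Lv (sg R σ) Q (St R Q t S l) k M \ St R Q t S (List.replicate M σ ++ l)) := by
        intro u hu
        rw [mem_nO] at hu
        rw [mem_union, mem_nO, mem_sdiff]
        by_cases h : u ∈ St R Q t S (List.replicate M σ ++ l)
        · exact Or.inl ⟨h, hu.2⟩
        · exact Or.inr ⟨hu.1, h⟩
      have h5 := (card_le_card h4).trans (card_union_le _ _)
      have h6 := (card_le_card ih').trans h0
      have h7 : ((2 * t * M + t : ℕ) : ℝ) ≤ ((nO (sg R σ) (Lv (sg R σ) Q (St R Q t S l) k M) s).card : ℝ) :=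
        hk'.trans h1.2
      have h8 : 2 * t * M + t ≤ (nO (sg R σ) (Lv (sg R σ) Q (St R Q t S l) k M) s).card := by
        exact_mod_cast h7
      omega

/-- a word is constant or contains a turn -/
theorem const_or_turn (q : List Bool) : (∃ σ, q = List.replicate q.length σ) ∨
    ∃ p σ l, q = p ++ ((!σ) :: σ :: l) := by
  induction q with
  | nil => exact Or.inl ⟨true, rfl⟩
  | cons a q ih =>
    rcases ih with ⟨σ, hσ⟩ | ⟨p, σ, l, h⟩
    · by_cases ha : a = σ
      · left
        refine ⟨σ, ?_⟩
        rw [List.length_cons, List.replicate_succ, ← hσ, ha]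
      · cases q with
        | nil => left; exact ⟨a, rfl⟩
        | cons c q =>
          right
          have hc : c = σ := by
            rw [List.length_cons, List.replicate_succ] at hσ
            exact (List.cons.inj hσ).1
          refine ⟨[], σ, q, ?_⟩
          rw [hc]
          have : a = !σ := by cases a <;> cases σ <;> simp_all
          rw [this]; rfl
    · exact Or.inr ⟨a :: p, σ, l, by rw [h]; rfl⟩

/-- every word of length at least `M + 2` leads from every vertex of `Q` to every large set -/
theorem St_all (hT : AE32.Tour R) (hS : S ⊆ Q) {k : ℝ} {M D r : ℕ}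
    (hdeg : ∀ z ∈ Q, ∀ σ, D ≤ (nO (sg R σ) Q z).card)
    (hlev : ∀ σ, ∀ K ⊆ Q, r ≤ K.card → Q ⊆ Lv (sg R σ) Q K k M)
    (hk : ((2 * t * M + t : ℕ) : ℝ) ≤ k) (hD : 2 * t * (M + 1) + t ≤ D)
    (hr : r ≤ S.card) (h4 : 4 * t + 2 * t * M ≤ S.card) :
    ∀ l : List Bool, M + 2 ≤ l.length → St R Q t S l = Q := by
  -- words of length `M + 1`
  have h1 : ∀ q : List Bool, q.length = M + 1 → (Q \ St R Q t S q).card ≤ 2 * t * (M + 1) := by
    intro q hq
    rcases const_or_turn q with ⟨σ, hσ⟩ | ⟨p, σ, l, rfl⟩
    · rw [hq] at hσ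
      have e : St R Q t S q = St R Q t S (List.replicate (M + 1) σ ++ []) := by
        rw [List.append_nil, ← hσ]
      have h2 : Q \ St R Q t S (List.replicate M σ ++ []) ⊆ S \ St R Q t S (List.replicate M σ ++ []) := by
        refine Subset.trans ?_ (St_levels (t := t) hT hS σ [] M hk)
        exact sdiff_subset_sdiff (hlev σ S hS hr) (Subset.refl _)
      have h3 := (card_le_card h2).trans (St_steps (t := t) hT hS (List.replicate M σ) [])
      rw [List.length_replicate] at h3
      have h5 := St_step (t := t) hT hS σ (List.replicate M σ ++ [])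
      have h6 : Q \ St R Q t S q ⊆ (Q \ St R Q t S (List.replicate M σ ++ [])) ∪
          (St R Q t S (List.replicate M σ ++ []) \ St R Q t S (σ :: (List.replicate M σ ++ []))) := by
        intro v hv
        rw [e, List.replicate_succ, List.cons_append, mem_sdiff] at hv
        rw [mem_union, mem_sdiff, mem_sdiff]
        by_cases h : v ∈ St R Q t S (List.replicate M σ ++ [])
        · exact Or.inr ⟨h, hv.2⟩
        · exact Or.inl ⟨hv.1, h⟩
      have h7 := (card_le_card h6).trans (card_union_le _ _)
      have h8 : 2 * t * (M + 1) = 2 * t * M + 2 * t := by ring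
      omega
    · have hl : p.length + (l.length + 2) = M + 1 := by
        rw [← hq]; simp
      have h2 := St_steps (t := t) hT hS l []
      rw [List.append_nil] at h2
      have h3 : S.card ≤ (St R Q t S l).card + 2 * t * l.length := by
        have h3a : S ⊆ St R Q t S l ∪ (S \ St R Q t S l) := by
          intro v hv
          rw [mem_union, mem_sdiff]
          by_cases h : v ∈ St R Q t S l
          · exact Or.inl h
          · exact Or.inr ⟨hv, h⟩
        have := (card_le_card h3a).trans (card_union_le _ _)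
        have h2' : (S \ St R Q t S l).card ≤ 2 * t * l.length := h2
        omega
      have h5 : 2 * t * l.length ≤ 2 * t * M := Nat.mul_le_mul_left _ (by omega)
      have h6 := St_turn (t := t) hT hS σ l (by omega)
      have h7 := St_steps (t := t) hT hS p ((!σ) :: σ :: l)
      have h8 : Q \ St R Q t S (p ++ ((!σ) :: σ :: l)) ⊆ (Q \ St R Q t S ((!σ) :: σ :: l)) ∪
          (St R Q t S ((!σ) :: σ :: l) \ St R Q t S (p ++ ((!σ) :: σ :: l))) := by
        intro v hv
        rw [mem_sdiff] at hv
        rw [mem_union, mem_sdiff, mem_sdiff]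
        by_cases h : v ∈ St R Q t S ((!σ) :: σ :: l)
        · exact Or.inr ⟨h, hv.2⟩
        · exact Or.inl ⟨hv.1, h⟩
      have h9 := (card_le_card h8).trans (card_union_le _ _)
      have h10 : 2 * t + 2 * t * p.length = 2 * t * (p.length + 1) := by ring
      have h11 : 2 * t * (p.length + 1) ≤ 2 * t * (M + 1) := Nat.mul_le_mul_left _ (by omega)
      omega
  -- longer words
  have h2 : ∀ m, ∀ l : List Bool, l.length = M + 2 + m → St R Q t S l = Q := by
    intro m
    induction m with
    | zero =>
      intro l hl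
      cases l with
      | nil => simp at hl
      | cons σ q =>
        have hq : q.length = M + 1 := by simpa using hl
        apply Subset.antisymm (St_sub hS _)
        intro v hv
        refine mem_filter.2 ⟨hv, ?_⟩
        have h3 := h1 q hq
        have h5 := hdeg v hv σ
        have h6 : nO (sg R σ) Q v ⊆ nO (sg R σ) (St R Q t S q) v ∪ (Q \ St R Q t S q) := by
          intro u hu
          rw [mem_nO] at hu
          rw [mem_union, mem_nO, mem_sdiff]
          by_cases h : u ∈ St R Q t S q
          · exact Or.inl ⟨h, hu.2⟩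
          · exact Or.inr ⟨hu.1, h⟩
        have h7 := (card_le_card h6).trans (card_union_le _ _)
        omega
    | succ m ih =>
      intro l hl
      cases l with
      | nil => simp at hl
      | cons σ q =>
        have hq : q.length = M + 2 + m := by
          have : q.length + 1 = M + 2 + (m + 1) := by simpa using hl
          omega
        apply Subset.antisymm (St_sub hS _)
        intro v hv
        refine mem_filter.2 ⟨hv, ?_⟩
        rw [ih q hq]
        have h5 := hdeg v hv σ
        omega
  intro l hl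
  exact h2 (l.length - (M + 2)) l (by omega)

/-- `ws` is a walk from `y` with the signs `l` -/
def Walk (R : V → V → Prop) : V → List Bool → List V → Prop
  | _, [], [] => True
  | y, σ :: l, w :: ws => sg R σ y w ∧ Walk R w l ws
  | _, _, _ => False

theorem exists_walk (hS : S ⊆ Q) (l : List Bool) : ∀ (y : V) (σ : Bool) (F : Finset V),
    F.card + l.length < t → t ≤ (nO (sg R σ) (St R Q t S l) y).card →
    ∃ ws : List V, ws.length = l.length + 1 ∧ Walk R y (σ :: l) ws ∧ ws.Nodup ∧
      (∀ w ∈ ws, w ∈ Q ∧ w ∉ F) ∧ ∃ w ∈ ws.getLast?, w ∈ S := by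
  induction l with
  | nil =>
    intro y σ F hF hy
    obtain ⟨w, hw, hwF⟩ := exists_mem_notMem_of_card_lt_card (lt_of_lt_of_le (by simpa using hF) hy)
    rw [mem_nO] at hw
    exact ⟨[w], rfl, ⟨hw.2, trivial⟩, List.nodup_singleton w,
      fun x hx => by rw [List.mem_singleton] at hx; rw [hx]; exact ⟨hS hw.1, hwF⟩,
      ⟨w, by simp, hw.1⟩⟩
  | cons τ l ih =>
    intro y σ F hF hy
    rw [List.length_cons] at hF
    obtain ⟨w, hw, hwF⟩ := exists_mem_notMem_of_card_lt_card (lt_of_lt_of_le (show F.card < t by omega) hy)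
    rw [mem_nO] at hw
    have hw1 := hw.1
    rw [St, mem_filter] at hw1
    obtain ⟨ws, h1, h2, h3, h4, z, hz, hzS⟩ := ih w τ (insert w F) (by
      have := card_insert_le w F
      omega) hw1.2
    refine ⟨w :: ws, by rw [List.length_cons, h1, List.length_cons], ⟨hw.2, h2⟩, ?_, ?_, z, ?_, hzS⟩
    · rw [List.nodup_cons]
      exact ⟨fun h => (h4 w h).2 (mem_insert_self _ _), h3⟩
    · intro x hx
      rw [List.mem_cons] at hx
      rcases hx with rfl | hx
      · exact ⟨hw1.1, hwF⟩
      · exact ⟨(h4 x hx).1, fun h => (h4 x hx).2 (mem_insert_of_mem h)⟩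
    · have hne : ws ≠ [] := by intro h; rw [h] at h1; simp at h1
      obtain ⟨a, as, rfl⟩ := List.exists_cons_of_ne_nil hne
      simpa using hz

/-- appending one step to a walk -/
theorem Walk.snoc {l : List Bool} {ws : List V} {y z : V} {τ : Bool} (h : Walk R y l ws) (hl : ws ≠ [])
    (hz : ∀ w ∈ ws.getLast?, sg R τ w z) : Walk R y (l ++ [τ]) (ws ++ [z]) := by
  induction l generalizing y ws with
  | nil => cases ws with
    | nil => exact absurd rfl hl
    | cons w ws => exact absurd h (by simp [Walk])
  | cons σ l ih =>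
    cases ws with
    | nil => exact absurd rfl hl
    | cons w ws =>
      obtain ⟨h1, h2⟩ := h
      refine ⟨h1, ?_⟩
      cases ws with
      | nil =>
        cases l with
        | nil => exact ⟨hz w (by simp), trivial⟩
        | cons a l => exact absurd h2 (by simp [Walk])
      | cons w' ws =>
        refine ih h2 (by simp) ?_
        intro u hu
        exact hz u (by simpa using hu)

/-- **Pattern lemma**: between `y` and `z` there is a walk through `Q` with every sign word of length at least `M + 4`,
avoiding a given small set -/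
theorem connect (hT : AE32.Tour R) {F : Finset V} {k : ℝ} {M D r : ℕ} {y z : V} {σ τ : Bool} {l : List Bool}
    (hdeg : ∀ z ∈ Q, ∀ σ, D ≤ (nO (sg R σ) Q z).card)
    (hlev : ∀ σ, ∀ K ⊆ Q, r ≤ K.card → Q ⊆ Lv (sg R σ) Q K k M)
    (hk : ((2 * t * M + t : ℕ) : ℝ) ≤ k) (hD : 2 * t * (M + 1) + t ≤ D)
    (hr : r ≤ (nO (sg R (!τ)) Q z).card) (h4 : 4 * t + 2 * t * M ≤ (nO (sg R (!τ)) Q z).card)
    (hy : t ≤ (nO (sg R σ) Q y).card) (hl : M + 2 ≤ l.length) (hF : F.card + l.length < t) :
    ∃ ws : List V, ws.length = l.length + 1 ∧ Walk R y (σ :: (l ++ [τ])) (ws ++ [z]) ∧ ws.Nodup ∧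
      ∀ w ∈ ws, w ∈ Q ∧ w ∉ F := by
  have hS : nO (sg R (!τ)) Q z ⊆ Q := nO_sub
  have h1 := St_all (t := t) hT hS hdeg hlev hk hD hr h4 l hl
  obtain ⟨ws, h2, h3, h4, h5, w, hw, hwS⟩ := exists_walk (t := t) hS l y σ F hF (by rw [h1]; exact hy)
  have hne : ws ≠ [] := by intro h; rw [h] at h2; simp at h2
  refine ⟨ws, h2, ?_, h4, h5⟩
  have := Walk.snoc (z := z) (τ := τ) h3 hne (by
    intro u hu
    have : u = w := by
      rw [Option.mem_def] at hu hw
      rw [hu] at hw
      exact Option.some.inj hw
    subst this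
    rw [mem_nO, sg_not] at hwS
    exact hwS.2)
  simpa using this

/-- vertices of `Q` with many neighbours in `K` -/
theorem card_touch {K : Finset V} {D a : ℕ} {τ : Bool} (hK : ∀ z ∈ K, D ≤ (nO (sg R (!τ)) Q z).card)
    (ha : Q.card * a ≤ K.card * D / 2) (hKn : K.Nonempty) :
    D / 2 ≤ (Q.filter (fun s => a ≤ (nO (sg R τ) K s).card)).card := by
  have h1 : ∑ s ∈ Q, (nO (sg R τ) K s).card = ∑ z ∈ K, (nI (sg R τ) Q z).card := sum_nO_eq_sum_nI Q K
  have h2 : K.card * D ≤ ∑ z ∈ K, (nI (sg R τ) Q z).card := by
    rw [← smul_eq_mul]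
    refine card_nsmul_le_sum _ _ _ (fun z hz => ?_)
    have : nI (sg R τ) Q z = nO (sg R (!τ)) Q z := by
      ext u; rw [mem_nO, mem_nI, sg_not]
    rw [this]
    exact hK z hz
  set P := Q.filter (fun s => a ≤ (nO (sg R τ) K s).card) with hP
  have h3 : ∑ s ∈ Q, (nO (sg R τ) K s).card ≤ P.card * K.card + Q.card * a := by
    rw [← sum_filter_add_sum_filter_not Q (fun s => a ≤ (nO (sg R τ) K s).card)]
    refine Nat.add_le_add ?_ ?_
    · rw [← smul_eq_mul]
      exact sum_le_card_nsmul _ _ _ (fun s _ => card_le_card nO_sub)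
    · refine (sum_le_card_nsmul _ _ a (fun s hs => ?_)).trans ?_
      · have := (mem_filter.1 hs).2
        omega
      · rw [smul_eq_mul]
        exact Nat.mul_le_mul_right _ (card_filter_le _ _)
  have h4 : K.card * D ≤ P.card * K.card + K.card * D / 2 := by omega
  have h5 : 0 < K.card := hKn.card_pos
  by_contra hc
  push Not at hc
  have h6 : P.card + 1 ≤ D / 2 := hc
  have h7 : P.card * K.card + K.card ≤ D / 2 * K.card := by nlinarith
  have h8 : D / 2 * K.card ≤ K.card * D / 2 := by
    rw [Nat.le_div_iff_mul_le (by norm_num)]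
    have : D / 2 * 2 ≤ D := Nat.div_mul_le_self D 2
    nlinarith
  omega

/-- **Pattern lemma, large targets**: from `y` there is a walk through `Q` with every sign word of length at least
`M + 4` whose last vertex is in `K` -/
theorem connect_set (hT : AE32.Tour R) {F K : Finset V} {k : ℝ} {M D r a : ℕ} {y : V} {σ τ : Bool} {l : List Bool}
    (hdeg : ∀ z ∈ Q, ∀ σ, D ≤ (nO (sg R σ) Q z).card)
    (hlev : ∀ σ, ∀ K ⊆ Q, r ≤ K.card → Q ⊆ Lv (sg R σ) Q K k M)
    (hk : ((2 * t * M + t : ℕ) : ℝ) ≤ k) (hD : 2 * t * (M + 1) + t ≤ D)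
    (hK : ∀ z ∈ K, D ≤ (nO (sg R (!τ)) Q z).card) (hKn : K.Nonempty) (ha : Q.card * a ≤ K.card * D / 2)
    (hr : r ≤ D / 2) (h4 : 4 * t + 2 * t * M ≤ D / 2) (haF : F.card + l.length + 1 < a)
    (hy : t ≤ (nO (sg R σ) Q y).card) (hl : M + 2 ≤ l.length) (hF : F.card + l.length < t) :
    ∃ (ws : List V) (z : V), ws.length = l.length + 1 ∧ Walk R y (σ :: (l ++ [τ])) (ws ++ [z]) ∧ (ws ++ [z]).Nodup ∧
      (∀ w ∈ ws, w ∈ Q ∧ w ∉ F) ∧ z ∈ K ∧ z ∉ F := by
  set S := Q.filter (fun s => a ≤ (nO (sg R τ) K s).card) with hSd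
  have hS : S ⊆ Q := filter_subset _ _
  have hSc := card_touch (R := R) (τ := τ) hK ha hKn
  rw [← hSd] at hSc
  have h1 := St_all (t := t) hT hS hdeg hlev hk hD (hr.trans hSc) (h4.trans hSc) l hl
  obtain ⟨ws, h2, h3, h4, h5, w, hw, hwS⟩ := exists_walk (t := t) hS l y σ F hF (by rw [h1]; exact hy)
  have hne : ws ≠ [] := by intro h; rw [h] at h2; simp at h2
  have h6 : (F ∪ ws.toFinset).card < (nO (sg R τ) K w).card := by
    have h7 := card_union_le F ws.toFinset
    have h8 := List.toFinset_card_le ws
    have h9 := (mem_filter.1 hwS).2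
    omega
  obtain ⟨z, hz, hzF⟩ := exists_mem_notMem_of_card_lt_card h6
  rw [mem_nO] at hz
  rw [mem_union, not_or, List.mem_toFinset] at hzF
  refine ⟨ws, z, h2, ?_, ?_, h5, hz.1, hzF.1⟩
  · have := Walk.snoc (z := z) (τ := τ) h3 hne (by
      intro u hu
      have : u = w := by
        rw [Option.mem_def] at hu hw
        rw [hu] at hw
        exact Option.some.inj hw
      subst this
      exact hz.2)
    simpa using this
  · rw [List.nodup_append]
    refine ⟨h4, List.nodup_singleton z, ?_⟩
    intro x hx y hy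
    rw [List.mem_singleton] at hy
    subst hy
    intro h
    subst h
    exact hzF.2 hx

end AELT
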