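import Pool.Agent.AELT.Defs
import Pool.Agent.AELT.Pattern
import Pool.Agent.AE15.Transfer

/-!
# The clean core of an unsplittable block

`EX R a Y` is `Ex R a Y` written with an alternative. Result `exists_core`: a set `B` which cannot be split contains a
set `Y` with `Ex R (θ * n) Y` and `|B \ Y| ≤ 2 η |B|`; all its vertices are good.
-/

namespace AELT

open Finset AE15
open scoped Classical

variable {V : Type*} {R : V → V → Prop}

theorem ar_empty_left {B : Finset V} : ar R ∅ B = 0 := by simp [ar]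

theorem ar_empty_right {A : Finset V} : ar R A ∅ = 0 := by simp [ar, nO]

theorem ar_union_left {A A' B : Finset V} (h : Disjoint A A') : ar R (A ∪ A') B = ar R A B + ar R A' B :=
  sum_union h

theorem nO_union {A B : Finset V} {v : V} : nO R (A ∪ B) v = nO R A v ∪ nO R B v := filter_union _ _ _

theorem card_nO_union {A B : Finset V} (h : Disjoint A B) {v : V} :
    (nO R (A ∪ B) v).card = (nO R A v).card + (nO R B v).card := by
  rw [nO_union]
  exact card_union_of_disjoint (h.mono nO_sub nO_sub)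

theorem ar_union_right {A B B' : Finset V} (h : Disjoint B B') : ar R A (B ∪ B') = ar R A B + ar R A B' := by
  unfold ar
  rw [← sum_add_distrib]
  exact sum_congr rfl (fun a _ => card_nO_union h)

theorem ar_mono_right {A B B' : Finset V} (h : B ⊆ B') : ar R A B ≤ ar R A B' :=
  sum_le_sum (fun _ _ => card_le_card (nO_mono h))

theorem ar_mono_left {A A' B : Finset V} (h : A ⊆ A') : ar R A B ≤ ar R A' B :=
  sum_le_sum_of_subset h

theorem ar_le {A B : Finset V} : ar R A B ≤ A.card * B.card := by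
  rw [← smul_eq_mul]
  exact sum_le_card_nsmul _ _ _ (fun _ _ => card_le_card nO_sub)

theorem ar_eq_sum_nI {A B : Finset V} : ar R A B = ∑ b ∈ B, (nI R A b).card := sum_nO_eq_sum_nI A B

theorem ar_swap {A B : Finset V} : ar (sg R false) A B = ar R B A := by
  rw [ar_eq_sum_nI]
  rfl

/-- expansion -/
def EX (R : V → V → Prop) (a : ℝ) (Y : Finset V) : Prop :=
  ∀ S ⊆ Y, a * S.card ≤ ar R S (Y \ S) ∨ a * (Y \ S).card ≤ ar R S (Y \ S)

theorem EX.sg {a : ℝ} {Y : Finset V} (h : EX R a Y) (σ : Bool) : EX (sg R σ) a Y := by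
  cases σ with
  | true => exact h
  | false =>
    intro S hS
    rw [ar_swap]
    have h1 := h (Y \ S) sdiff_subset
    rw [Finset.sdiff_sdiff_eq_self hS] at h1
    exact h1.symm

/-- **The clean core**: one minimisation -/
theorem clean {B : Finset V} {m a K : ℝ} (hm : 0 ≤ m) (ha : 0 ≤ a)
    (hun : ∀ A ⊆ B, m ≤ A.card → m ≤ (B \ A).card → K ≤ ar R A (B \ A)) (hK : 2 * a * m + a * B.card ≤ K) :
    ∃ Y ⊆ B, ((B \ Y).card : ℝ) ≤ 2 * m ∧ EX R a Y := by
  -- the quantity to be minimised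
  set H : Finset V × Finset V → ℝ := fun p => ar R p.1 (B \ (p.1 ∪ p.2)) + ar R p.1 p.2 + ar R (B \ (p.1 ∪ p.2)) p.2 -
    a * (p.1.card + p.2.card) with hH
  obtain ⟨⟨D₁, D₂⟩, hD, hmin⟩ := exists_min_image
    ((B.powerset ×ˢ B.powerset).filter (fun p : Finset V × Finset V => Disjoint p.1 p.2 ∧ (p.1.card : ℝ) ≤ m ∧
      (p.2.card : ℝ) ≤ m)) H ⟨(∅, ∅), by simp [hm]⟩
  rw [mem_filter, mem_product, mem_powerset, mem_powerset] at hD
  obtain ⟨⟨hD₁, hD₂⟩, hdis, hm₁, hm₂⟩ := hD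
  simp only at hD₁ hD₂ hdis hm₁ hm₂
  have hmin' : ∀ E₁ ⊆ B, ∀ E₂ ⊆ B, Disjoint E₁ E₂ → (E₁.card : ℝ) ≤ m → (E₂.card : ℝ) ≤ m →
      H (D₁, D₂) ≤ H (E₁, E₂) := by
    intro E₁ h1 E₂ h2 h3 h4 h5
    exact hmin (E₁, E₂) (mem_filter.2 ⟨mem_product.2 ⟨mem_powerset.2 h1, mem_powerset.2 h2⟩, h3, h4, h5⟩)
  set Y := B \ (D₁ ∪ D₂) with hY
  have hYB : Y ⊆ B := sdiff_subset
  have hYD : Disjoint Y (D₁ ∪ D₂) := sdiff_disjoint
  have hYD₁ : Disjoint Y D₁ := disjoint_of_subset_right subset_union_left hYD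
  have hYD₂ : Disjoint Y D₂ := disjoint_of_subset_right subset_union_right hYD
  have hBY : B \ Y = D₁ ∪ D₂ := Finset.sdiff_sdiff_eq_self (union_subset hD₁ hD₂)
  -- the minimum is not positive
  have h0 : H (D₁, D₂) ≤ 0 := by
    have h1 := hmin' ∅ (empty_subset _) ∅ (empty_subset _) (disjoint_empty_left _) (by simpa using hm)
      (by simpa using hm)
    refine h1.trans ?_
    simp [hH, ar_empty_left, ar_empty_right]
  have hHD : H (D₁, D₂) = ar R D₁ Y + ar R D₁ D₂ + ar R Y D₂ - a * (D₁.card + D₂.card) := rfl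
  refine ⟨Y, hYB, ?_, ?_⟩
  · rw [hBY]
    have := card_union_le D₁ D₂
    have h2 : ((D₁ ∪ D₂).card : ℝ) ≤ D₁.card + D₂.card := by exact_mod_cast this
    linarith
  intro S hS
  have hSD₁ : Disjoint D₁ S := (disjoint_of_subset_left hS hYD₁).symm
  have hSD₂ : Disjoint S D₂ := disjoint_of_subset_left hS hYD₂
  have hTY : Y \ S ⊆ Y := sdiff_subset
  have hTD₁ : Disjoint D₁ (Y \ S) := (disjoint_of_subset_left hTY hYD₁).symm
  have hTD₂ : Disjoint (Y \ S) D₂ := disjoint_of_subset_left hTY hYD₂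
  have hYS : S ∪ Y \ S = Y := union_sdiff_of_subset hS
  have hST : Disjoint S (Y \ S) := disjoint_sdiff
  have e1 : ar R D₁ Y = ar R D₁ S + ar R D₁ (Y \ S) := by rw [← ar_union_right hST, hYS]
  have e2 : ar R Y D₂ = ar R S D₂ + ar R (Y \ S) D₂ := by rw [← ar_union_left hST, hYS]
  by_cases c1 : ((D₁ ∪ S).card : ℝ) ≤ m
  · -- move `S` to the bottom
    left
    have h1 := hmin' (D₁ ∪ S) (union_subset hD₁ (hS.trans hYB)) D₂ hD₂ (disjoint_union_left.2 ⟨hdis, hSD₂⟩) c1 hm₂
    have h2 : B \ (D₁ ∪ S ∪ D₂) = Y \ S := by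
      rw [hY]
      ext v
      simp only [mem_sdiff, mem_union]
      tauto
    have h3 : H (D₁ ∪ S, D₂) = ar R (D₁ ∪ S) (Y \ S) + ar R (D₁ ∪ S) D₂ + ar R (Y \ S) D₂ -
        a * ((D₁ ∪ S).card + D₂.card) := by simp only [hH, h2]
    rw [h3, hHD, ar_union_left hSD₁, ar_union_left hSD₁, e1, e2, card_union_of_disjoint hSD₁] at h1
    push_cast at h1
    have h4 : (0 : ℝ) ≤ ar R D₁ S := by positivity
    linarith
  by_cases c2 : ((D₂ ∪ (Y \ S)).card : ℝ) ≤ m
  · -- move `Y \ S` to the top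
    right
    have h1 := hmin' D₁ hD₁ (D₂ ∪ (Y \ S)) (union_subset hD₂ (hTY.trans hYB))
      (disjoint_union_right.2 ⟨hdis, hTD₁⟩) hm₁ c2
    have h2 : B \ (D₁ ∪ (D₂ ∪ (Y \ S))) = S := by
      ext v
      have h5 : v ∈ S → v ∈ Y := fun h => hS h
      have h6 : v ∈ Y ↔ v ∈ B ∧ ¬ (v ∈ D₁ ∨ v ∈ D₂) := by rw [hY]; simp [mem_sdiff]
      simp only [mem_sdiff, mem_union]
      tauto
    have h3 : H (D₁, D₂ ∪ (Y \ S)) = ar R D₁ S + ar R D₁ (D₂ ∪ (Y \ S)) + ar R S (D₂ ∪ (Y \ S)) -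
        a * (D₁.card + (D₂ ∪ (Y \ S)).card) := by simp only [hH, h2]
    rw [h3, hHD, ar_union_right hTD₂.symm, ar_union_right hTD₂.symm, e1, e2, card_union_of_disjoint hTD₂.symm] at h1
    push_cast at h1
    have h4 : (0 : ℝ) ≤ ar R (Y \ S) D₂ := by positivity
    linarith
  -- the middle range
  push Not at c1 c2
  have h1 : B \ (D₁ ∪ S) = D₂ ∪ (Y \ S) := by
    ext v
    have h5 : v ∈ S → v ∈ Y := fun h => hS h
    have h6 : v ∈ Y ↔ v ∈ B ∧ ¬ (v ∈ D₁ ∨ v ∈ D₂) := by rw [hY]; simp [mem_sdiff]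
    have h7 : v ∈ D₂ → v ∈ B := fun h => hD₂ h
    have h8 : v ∈ D₁ → v ∉ D₂ := fun h => disjoint_left.1 hdis h
    simp only [mem_sdiff, mem_union]
    tauto
  have h2 := hun (D₁ ∪ S) (union_subset hD₁ (hS.trans hYB)) c1.le (by rw [h1]; exact c2.le)
  rw [h1, ar_union_left hSD₁, ar_union_right hTD₂.symm, ar_union_right hTD₂.symm] at h2
  push_cast at h2
  rw [hHD, e1, e2] at h0
  push_cast at h0
  have h3 : a * ((D₁.card : ℝ) + D₂.card) ≤ 2 * a * m := by nlinarith
  have h4 : a * (S.card : ℝ) ≤ a * B.card :=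
    mul_le_mul_of_nonneg_left (by exact_mod_cast card_le_card (hS.trans hYB)) ha
  have h5 : (0 : ℝ) ≤ ar R D₁ S := by positivity
  have h6 : (0 : ℝ) ≤ ar R (Y \ S) D₂ := by positivity
  left
  linarith

/-- deleting few vertices -/
theorem EX.del {a u : ℝ} {Y U : Finset V} (h : EX R a Y) (ha : 0 ≤ a) (hU : (U.card : ℝ) ≤ u) (hUY : U ⊆ Y) :
    EX R (a - u) (Y \ U) := by
  intro S hS
  have hSY : S ⊆ Y := hS.trans sdiff_subset
  have hSU : Disjoint S U := disjoint_of_subset_left hS sdiff_disjoint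
  -- `T` is the rest
  set T := (Y \ U) \ S with hT
  have hTU : Disjoint T U := disjoint_of_subset_left sdiff_subset sdiff_disjoint
  have e1 : Y \ S = T ∪ U := by
    ext v
    have h1 : v ∈ U → v ∈ Y := fun h => hUY h
    have h2 : v ∈ S → v ∉ U := fun h => disjoint_left.1 hSU h
    simp only [hT, mem_sdiff, mem_union]
    tauto
  have e2 : Y \ (S ∪ U) = T := by
    ext v
    simp only [hT, mem_sdiff, mem_union]
    tauto
  rcases le_total S.card T.card with hc | hc
  · left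
    have h1 : a * S.card ≤ ar R S (Y \ S) := by
      rcases h S hSY with h1 | h1
      · exact h1
      · refine le_trans (mul_le_mul_of_nonneg_left ?_ ha) h1
        have : T.card ≤ (Y \ S).card := by rw [e1]; exact card_le_card subset_union_left
        exact_mod_cast hc.trans this
    rw [e1, ar_union_right hTU] at h1
    push_cast at h1
    have h2 : (ar R S U : ℝ) ≤ S.card * U.card := by exact_mod_cast ar_le
    have h3 : (S.card : ℝ) * U.card ≤ S.card * u := mul_le_mul_of_nonneg_left hU (by positivity)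
    linarith
  · right
    have h1 : a * T.card ≤ ar R (S ∪ U) T := by
      rcases h (S ∪ U) (union_subset hSY hUY) with h1 | h1
      · rw [e2] at h1
        refine le_trans (mul_le_mul_of_nonneg_left ?_ ha) h1
        have : S.card ≤ (S ∪ U).card := card_le_card subset_union_left
        exact_mod_cast hc.trans this
      · rw [e2] at h1
        exact h1
    rw [ar_union_left hSU] at h1
    push_cast at h1
    have h2 : (ar R U T : ℝ) ≤ U.card * T.card := by exact_mod_cast ar_le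
    have h3 : (U.card : ℝ) * T.card ≤ u * T.card := mul_le_mul_of_nonneg_right hU (by positivity)
    linarith

/-- degrees -/
theorem EX.deg {a : ℝ} {Y : Finset V} (h : EX R a Y) (ha : 0 ≤ a) (hY : 2 ≤ Y.card) {z : V} (hz : z ∈ Y) :
    a ≤ ((nO R Y z).card : ℝ) := by
  have h1 : (ar R {z} (Y \ {z}) : ℝ) ≤ (nO R Y z).card := by
    have : ar R {z} (Y \ {z}) = (nO R (Y \ {z}) z).card := by simp [ar]
    rw [this]
    exact_mod_cast card_le_card (nO_mono sdiff_subset)
  have h2 : ((Y \ {z}).card : ℝ) = Y.card - 1 := by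
    rw [card_sdiff_of_subset (singleton_subset_iff.2 hz), card_singleton]
    push_cast [show 1 ≤ Y.card by omega]
    ring
  rcases h {z} (singleton_subset_iff.2 hz) with h3 | h3
  · rw [card_singleton] at h3
    push_cast at h3
    linarith
  · rw [h2] at h3
    have h4 : (1 : ℝ) ≤ Y.card - 1 := by
      have : (2 : ℝ) ≤ Y.card := by exact_mod_cast hY
      linarith
    nlinarith

/-- closed sets which are not small are everything -/
theorem EX.closed {a κ ℓ : ℝ} {Y L : Finset V} (h : EX R a Y) (hL : L ⊆ Y) (hℓ : ℓ ≤ L.card) (ha : 0 ≤ a)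
    (hκ : κ ≤ a) (hκℓ : κ * Y.card ≤ a * ℓ) (hc : ∀ z ∈ Y, z ∉ L → ((nI R L z).card : ℝ) < κ) : L = Y := by
  by_contra hne
  have h1 : (Y \ L).Nonempty := by
    rw [sdiff_nonempty]
    intro h2
    exact hne (Subset.antisymm hL h2)
  have h2 : (ar R L (Y \ L) : ℝ) < κ * (Y \ L).card := by
    rw [ar_eq_sum_nI]
    push_cast
    rw [mul_comm, ← nsmul_eq_mul, ← sum_const]
    refine sum_lt_sum_of_nonempty h1 (fun z hz => ?_)
    rw [mem_sdiff] at hz
    exact hc z hz.1 hz.2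
  have h3 : (0 : ℝ) < (Y \ L).card := by exact_mod_cast h1.card_pos
  have h4 : ((Y \ L).card : ℝ) ≤ Y.card := by exact_mod_cast card_le_card sdiff_subset
  have hκ0 : 0 < κ := by
    have h5 : (0 : ℝ) ≤ ar R L (Y \ L) := by positivity
    by_contra hk
    push Not at hk
    nlinarith
  rcases h L hL with h5 | h5
  · have h6 : a * ℓ ≤ a * L.card := mul_le_mul_of_nonneg_left hℓ ha
    have h7 : κ * ((Y \ L).card : ℝ) ≤ κ * Y.card := mul_le_mul_of_nonneg_left h4 hκ0.le
    linarith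
  · have h6 : κ * ((Y \ L).card : ℝ) ≤ a * (Y \ L).card := mul_le_mul_of_nonneg_right hκ h3.le
    linarith

/-- all vertices of a clean core are good, exactly -/
theorem EX.good {θ : ℝ} {Y : Finset V} (h : EX R (θ * Y.card) Y) (h0 : 0 ≤ θ) (h1 : θ ≤ 1) (hY : 2 ≤ Y.card) {z : V}
    (hz : z ∈ Y) : Good R (θ ^ 2) 0 Y z := by
  intro C hC hzC hcl
  have hY0 : (0 : ℝ) < Y.card := by
    have : 0 < Y.card := by omega
    exact_mod_cast this
  have ha : 0 ≤ θ * (Y.card : ℝ) := by positivity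
  have h2 : C = Y := by
    refine h.closed (κ := θ ^ 2 * Y.card) (ℓ := θ * Y.card) hC ?_ ha ?_ ?_ hcl
    · exact (h.deg ha hY hz).trans (by exact_mod_cast card_le_card hzC)
    · nlinarith
    · nlinarith
  rw [h2]
  simp

theorem Ex.toEX {a : ℝ} {Y : Finset V} (h : Ex R a Y) : EX R a Y := by
  intro S hS
  have h1 := h S hS
  rcases min_choice S.card (Y \ S).card with h2 | h2
  · rw [h2] at h1; exact Or.inl h1
  · rw [h2] at h1; exact Or.inr h1

theorem EX.toEx {a : ℝ} {Y : Finset V} (h : EX R a Y) (ha : 0 ≤ a) : Ex R a Y := by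
  intro S hS
  rcases h S hS with h1 | h1
  · refine le_trans (mul_le_mul_of_nonneg_left ?_ ha) h1
    exact_mod_cast min_le_left _ _
  · refine le_trans (mul_le_mul_of_nonneg_left ?_ ha) h1
    exact_mod_cast min_le_right _ _

theorem Ex.mono {V : Type*} {R : V → V → Prop} {a a' : ℝ} {Y : Finset V} (h : Ex R a Y) (ha : a' ≤ a) : Ex R a' Y := by
  intro S hS
  exact le_trans (mul_le_mul_of_nonneg_right ha (by positivity)) (h S hS)

/-- deletion of a small set keeps the expansion -/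
theorem Ex.sdiff {V : Type*} {R : V → V → Prop} {a : ℝ} {Y D : Finset V} (h : Ex R a Y) (hD : (D.card : ℝ) ≤ a / 2) :
    Ex R (a / 2) (Y \ D) := by
  have ha : 0 ≤ a := by
    have : (0 : ℝ) ≤ D.card := by positivity
    linarith
  have h1 : ((D ∩ Y).card : ℝ) ≤ a / 2 := by
    refine le_trans ?_ hD
    exact_mod_cast card_le_card inter_subset_left
  have h2 := h.toEX.del ha h1 inter_subset_right
  have h3 : Y \ (D ∩ Y) = Y \ D := by
    ext v
    simp only [mem_sdiff, mem_inter]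
    tauto
  rw [h3, show a - a / 2 = a / 2 by ring] at h2
  exact h2.toEx (by positivity)

/-- minimise `ar D₁ Y + ar D₁ D₂ + ar Y D₂ - θ n (|D₁| + |D₂|)` over disjoint `D₁, D₂ ⊆ B` with `|D₁|, |D₂| ≤ η |B|`,
`Y = B \ D₁ \ D₂` -/
theorem exists_core {V : Type*} {R : V → V → Prop} {η k θ n : ℝ} (hη : 0 < η) (hη1 : η ≤ 1 / 4) (hθ : 0 < θ)
    (hk : 4 * θ ≤ k) {B : Finset V} (hn : (B.card : ℝ) ≤ n)
    (h : ∀ A ⊆ B, η * B.card ≤ (A.card : ℝ) → η * B.card ≤ ((B \ A).card : ℝ) → k * n ^ 2 ≤ (ar R A (B \ A) : ℝ)) :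
    ∃ Y ⊆ B, ((B \ Y).card : ℝ) ≤ 2 * η * B.card ∧ Ex R (θ * n) Y := by
  have hB0 : (0 : ℝ) ≤ B.card := by positivity
  have hn0 : 0 ≤ n := hB0.trans hn
  obtain ⟨Y, h1, h2, h3⟩ := clean (R := R) (B := B) (m := η * B.card) (a := θ * n) (K := k * n ^ 2) (by positivity)
    (by positivity) h (by
      have e1 : θ * n * B.card ≤ θ * n * n := mul_le_mul_of_nonneg_left hn (by positivity)
      have e2 : 2 * (θ * n) * (η * B.card) = 2 * η * (θ * n * B.card) := by ring
      have e3 : 2 * η * (θ * n * B.card) ≤ 1 / 2 * (θ * n * n) := by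
        have : 2 * η * (θ * n * B.card) ≤ 1 / 2 * (θ * n * B.card) :=
          mul_le_mul_of_nonneg_right (by linarith) (by positivity)
        linarith
      have e4 : 4 * θ * n ^ 2 ≤ k * n ^ 2 := mul_le_mul_of_nonneg_right hk (by positivity)
      have e5 : θ * n * n = θ * n ^ 2 := by ring
      have e6 : 0 ≤ θ * n ^ 2 := by positivity
      linarith)
  exact ⟨Y, h1, by linarith, h3.toEx (by positivity)⟩

end AELT
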