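import Pool.Agent.AELT.Core
import Pool.Agent.AE15.Pieces

/-!
# The reserves in a clean core

A random subset `P` of a clean core `Y` has the degrees and the goodness of `Y`, for both signs. Hence the pattern lemma
can be used in it.
-/

namespace AELT

open Finset AE15 AED
open scoped Classical

variable {V : Type*} {R : V → V → Prop}

theorem nb_eq (d : Bool) (X : Finset V) (v : V) : nb R d X v = nO (sg R d) X v := rfl

theorem Walk.toWk {ds : List Bool} {y : V} {ws : List V} (h : Walk R y ds ws) : Wk R y (ds.zip ws) := by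
  induction ds generalizing y ws with
  | nil =>
    cases ws with
    | nil => exact trivial
    | cons w ws => exact absurd h (by simp [Walk])
  | cons d ds ih =>
    cases ws with
    | nil => exact absurd h (by simp [Walk])
    | cons w ws =>
      obtain ⟨h1, h2⟩ := h
      exact ⟨h1, ih h2⟩

theorem Rep.of_large {A P F : Finset V} {𝓕 : Finset (Finset V)} {ε κ κ' : ℝ} (h : Rep A 𝓕 ε P) (hF : F ∈ 𝓕)
    (hFA : F ⊆ A) (hA : A.Nonempty) (hκ : κ * A.card ≤ F.card) (hκ' : κ' ≤ κ - ε) : κ' * P.card ≤ ((F ∩ P).card : ℝ) := by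
  refine le_trans ?_ (h F hF)
  rw [inter_eq_left.2 hFA]
  refine mul_le_mul_of_nonneg_right ?_ (by positivity)
  have h1 : (0 : ℝ) < A.card := by exact_mod_cast hA.card_pos
  have h2 : κ ≤ (F.card : ℝ) / A.card := by rwa [le_div_iff₀ h1]
  linarith

/-- the test sets of a clean core -/
theorem core_family {α : ℝ} (hα : 0 < α) (hα1 : α ≤ 1) {Y : Finset V} (hY : 2 ≤ Y.card) (h : Ex R (α * Y.card) Y) :
    ∃ FF : Finset (Finset V), FF.card ≤ 2 * (Y.card * (Y.card + 1)) + 2 * Y.card ∧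
      ∀ P ⊆ Y, Rep Y FF (α ^ 2 / 2) P → (∀ z ∈ Y, ∀ σ, α / 2 * P.card ≤ ((nO (sg R σ) P z).card : ℝ)) ∧
        ∀ z ∈ Y, ∀ σ, Good (sg R σ) (α ^ 2 / 2) 0 P z := by
  have hYn : Y.Nonempty := by
    rw [← card_pos]; omega
  have ha : 0 ≤ α * (Y.card : ℝ) := by positivity
  obtain ⟨F₁, h1, h2, h3⟩ := exists_family (sg R true) (α ^ 2) 0 Y
  obtain ⟨F₂, g1, g2, g3⟩ := exists_family (sg R false) (α ^ 2) 0 Y
  have hgood : ∀ z ∈ Y, ∀ σ, Good (sg R σ) (α ^ 2) 0 Y z := fun z hz σ => (h.toEX.sg σ).good hα.le hα1 hY hz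
  have hdeg : ∀ z ∈ Y, ∀ σ, α * Y.card ≤ ((nO (sg R σ) Y z).card : ℝ) := fun z hz σ => (h.toEX.sg σ).deg ha hY hz
  have key : ∀ (P : Finset V) (F : Finset V), (F.card : ℝ) ≤ 0 * Y.card → ((F ∩ P).card : ℝ) ≤ 0 * P.card := by
    intro P F hF
    have h4 : ((F ∩ P).card : ℝ) ≤ F.card := by exact_mod_cast card_le_card inter_subset_left
    linarith
  refine ⟨F₁ ∪ F₂ ∪ (Y.image (fun z => nO (sg R true) Y z) ∪ Y.image (fun z => nO (sg R false) Y z)), ?_, ?_⟩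
  · have h4 := card_union_le (F₁ ∪ F₂) (Y.image (fun z => nO (sg R true) Y z) ∪ Y.image (fun z => nO (sg R false) Y z))
    have h5 := card_union_le F₁ F₂
    have h6 := card_union_le (Y.image (fun z => nO (sg R true) Y z)) (Y.image (fun z => nO (sg R false) Y z))
    have h7 : (Y.image (fun z => nO (sg R true) Y z)).card ≤ Y.card := card_image_le
    have h8 : (Y.image (fun z => nO (sg R false) Y z)).card ≤ Y.card := card_image_le
    omega
  · intro P hP hRep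
    refine ⟨?_, ?_⟩
    · intro z hz σ
      have h4 : nO (sg R σ) P z = nO (sg R σ) Y z ∩ P := nO_inter hP
      rw [h4]
      refine Rep.of_large hRep ?_ nO_sub hYn (hdeg z hz σ) (by nlinarith)
      rw [mem_union, mem_union, mem_union]
      cases σ with
      | true => exact Or.inr (Or.inl (mem_image_of_mem _ hz))
      | false => exact Or.inr (Or.inr (mem_image_of_mem _ hz))
    · intro z hz σ
      cases σ with
      | true =>
        refine h3 P hP _ _ (fun F hF hc => ?_) (fun F _ hc => key P F hc) z hz (hgood z hz true)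
        exact Rep.of_large hRep (mem_union_left _ (mem_union_left _ hF)) (h2 F hF) hYn hc (by linarith)
      | false =>
        refine g3 P hP _ _ (fun F hF hc => ?_) (fun F _ hc => key P F hc) z hz (hgood z hz false)
        exact Rep.of_large hRep (mem_union_left _ (mem_union_right _ hF)) (g2 F hF) hYn hc (by linarith)

/-- the levels in a set all of whose vertices are good -/
theorem levels_good (hT : AE32.Tour R) {P : Finset V} {κ : ℝ} (hκ : 0 < κ) (hκ1 : κ ≤ 1)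
    (hg : ∀ z ∈ P, ∀ σ, Good (sg R σ) κ 0 P z) (σ : Bool) {K : Finset V} (hK : K ⊆ P)
    (hKc : κ / 8 * P.card ≤ (K.card : ℝ)) : P ⊆ Lv (sg R σ) P K (κ / 8 * κ / 4 * P.card) (⌈8 / κ⌉₊ + 1) := by
  intro v hv
  obtain ⟨W, hW, hW2⟩ := (hg v hv σ).rch
  have h1 : P ⊆ W := by
    rw [zero_mul] at hW2
    have h2 : (P \ W).card = 0 := by
      have : ((P \ W).card : ℝ) ≤ (0 : ℕ) := by simpa using hW2
      have h3 : (P \ W).card ≤ 0 := by exact_mod_cast this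
      omega
    rwa [card_eq_zero, sdiff_eq_empty_iff_subset] at h2
  exact levels (tour_sg hT σ) hκ hκ1 (by positivity) le_rfl hW hv (hK.trans h1) hKc

/-- the pattern lemma gives the connections -/
theorem conn_of (hT : AE32.Tour R) {Y Q : Finset V} {α κ : ℝ} (hα : 0 < α) (hκ : 0 < κ) (hκ1 : κ ≤ 1) (hκα : κ ≤ α)
    (hQY : Q ⊆ Y) (hdeg : ∀ z ∈ Y, ∀ σ, α / 2 * Q.card ≤ ((nO (sg R σ) Q z).card : ℝ))
    (hg : ∀ z ∈ Y, ∀ σ, Good (sg R σ) κ 0 Q z) {M w₀ : ℕ} (hM : M = ⌈8 / κ⌉₊ + 1)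
    (h1 : ((2 * (w₀ + M + 3) * M + (w₀ + M + 3) : ℕ) : ℝ) ≤ κ / 8 * κ / 4 * Q.card)
    (h2 : ((2 * (w₀ + M + 3) * (M + 1) + 2 * (w₀ + M + 3) : ℕ) : ℝ) ≤ α / 2 * Q.card) : Conn R Y Q (M + 3) w₀ := by
  set t := w₀ + M + 3 with ht
  set D := ⌊α / 2 * Q.card⌋₊ with hD
  have hD1 : ∀ z ∈ Y, ∀ σ, D ≤ (nO (sg R σ) Q z).card := by
    intro z hz σ
    exact Nat.floor_le_of_le (hdeg z hz σ)
  have hD2 : 2 * t * (M + 1) + 2 * t ≤ D := Nat.le_floor h2
  have hD3 : 2 * t * (M + 1) + t ≤ D := by omega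
  have hD4 : 4 * t + 2 * t * M ≤ D := by
    have : 2 * t * (M + 1) + 2 * t = 4 * t + 2 * t * M := by ring
    omega
  intro y hy z hz ds hds d W hW
  cases ds with
  | nil => simp at hds
  | cons σ l =>
    have hl : l.length = M + 2 := by
      have : l.length + 1 = M + 3 := hds
      omega
    have hr : ⌈κ / 8 * (Q.card : ℝ)⌉₊ ≤ (nO (sg R (!d)) Q z).card := by
      rw [Nat.ceil_le]
      refine le_trans ?_ (hdeg z hz (!d))
      refine mul_le_mul_of_nonneg_right ?_ (by positivity)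
      linarith
    obtain ⟨ws, g1, g2, g3, g4⟩ := connect (t := t) (F := W ∩ Q) (k := κ / 8 * κ / 4 * Q.card) (M := M) (D := D)
      (r := ⌈κ / 8 * (Q.card : ℝ)⌉₊) (y := y) (z := z) (σ := σ) (τ := d) (l := l) hT (fun z hz => hD1 z (hQY hz))
      (by
        intro σ K hK hKc
        rw [hM]
        refine levels_good hT hκ hκ1 (fun z hz => hg z (hQY hz)) σ hK ?_
        exact (Nat.le_ceil _).trans (by exact_mod_cast hKc))
      h1 hD3 hr (hD4.trans (hD1 z hz (!d))) (by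
        refine le_trans ?_ (hD1 y hy σ)
        omega) (by omega) (by omega)
    have hlen : (σ :: l).length = ws.length := by rw [g1, List.length_cons]
    refine ⟨(σ :: l).zip ws, ?_, ?_, ?_, ?_⟩
    · rw [List.map_fst_zip (by omega)]
    · have g5 := g2.toWk
      have g6 : (σ :: (l ++ [d])).zip (ws ++ [z]) = (σ :: l).zip ws ++ [(d, z)] := by
        rw [← List.cons_append, List.zip_append hlen]
        rfl
      rwa [g6] at g5
    · rw [List.map_snd_zip (by omega)]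
      exact g3
    · intro p hp
      have g7 := g4 p.2 (List.of_mem_zip hp).2
      refine ⟨g7.1, fun h => g7.2 (mem_inter.2 ⟨h, g7.1⟩)⟩

/-- **The reserves** -/
theorem exists_reserve {α : ℝ} (hα : 0 < α) (hα1 : α ≤ 1) : ∃ ℓ : ℕ, ∀ (ζ : ℝ) (w₀ : ℕ), 0 < ζ → ζ ≤ 1 / 8 → ∃ n₂ : ℕ,
    ∀ {V : Type} {R : V → V → Prop}, AE32.Tour R → ∀ Y : Finset V, n₂ ≤ Y.card → Ex R (α * Y.card) Y →
      ∃ U Rc Ro : Finset V, U ⊆ Y ∧ Rc ⊆ Y ∧ Ro ⊆ Y ∧ Disjoint U Rc ∧ Disjoint U Ro ∧ Disjoint Rc Ro ∧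
        (1 - 3 * ζ) * Y.card ≤ (U.card : ℝ) ∧
        (∀ y ∈ Y, ∀ d : Bool, α / 2 * ζ * Y.card ≤ ((nb R d Ro y).card : ℝ)) ∧ Conn R Y Rc ℓ w₀ := by
  obtain ⟨κ, hκd⟩ : ∃ κ : ℝ, κ = α ^ 2 / 2 := ⟨_, rfl⟩
  have hκ : 0 < κ := by rw [hκd]; positivity
  have hκα : κ ≤ α := by rw [hκd]; nlinarith
  have hκ1 : κ ≤ 1 := hκα.trans hα1
  obtain ⟨M, hM⟩ : ∃ M : ℕ, M = ⌈8 / κ⌉₊ + 1 := ⟨_, rfl⟩
  refine ⟨M + 3, ?_⟩
  intro ζ w₀ hζ hζ1
  obtain ⟨n₁, hn₁⟩ := exists_pieces (ε := κ) (c := ζ) hκ hκ1 hζ 2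
  set a₁ : ℝ := ((2 * (w₀ + M + 3) * M + (w₀ + M + 3) : ℕ) : ℝ) with ha₁
  set a₂ : ℝ := ((2 * (w₀ + M + 3) * (M + 1) + 2 * (w₀ + M + 3) : ℕ) : ℝ) with ha₂
  obtain ⟨n₃, hn₃⟩ := exists_nat_ge (a₁ / (κ / 8 * κ / 4 * ζ))
  obtain ⟨n₄, hn₄⟩ := exists_nat_ge (a₂ / (α / 2 * ζ))
  refine ⟨max n₁ (max n₃ (max n₄ 2)), ?_⟩
  intro V R hT Y hY hEx
  have hY1 : n₁ ≤ Y.card := (le_max_left _ _).trans hY
  have hY3 : n₃ ≤ Y.card := ((le_max_left _ _).trans (le_max_right _ _)).trans hY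
  have hY4 : n₄ ≤ Y.card := ((le_max_left _ _).trans ((le_max_right _ _).trans (le_max_right _ _))).trans hY
  have hY2 : 2 ≤ Y.card := ((le_max_right _ _).trans ((le_max_right _ _).trans (le_max_right _ _))).trans hY
  obtain ⟨FF, hF1, hF2⟩ := core_family hα hα1 hY2 hEx
  rw [← hκd] at hF2
  have hFF : FF.card ≤ Y.card ^ 5 := by
    refine hF1.trans ?_
    have h1 : 8 * Y.card ^ 2 ≤ Y.card ^ 5 := by
      have : 2 ^ 3 ≤ Y.card ^ 3 := Nat.pow_le_pow_left hY2 3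
      calc 8 * Y.card ^ 2 = 2 ^ 3 * Y.card ^ 2 := by norm_num
        _ ≤ Y.card ^ 3 * Y.card ^ 2 := Nat.mul_le_mul_right _ this
        _ = Y.card ^ 5 := by rw [← pow_add]
    have h2 : 2 * Y.card ≤ Y.card ^ 2 := by nlinarith
    nlinarith
  have hY0 : (0 : ℝ) ≤ Y.card := by positivity
  obtain ⟨P, Q, q1, q2, q3, q4, q5, q6, q7, q8, q9⟩ := hn₁ Y FF hY1 hFF 2 ![(1 - 3 * ζ) * Y.card, ζ * Y.card] le_rfl
    (by
      intro i
      fin_cases i
      · show (0 : ℝ) ≤ (1 - 3 * ζ) * Y.card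
        exact mul_nonneg (by linarith) hY0
      · show (0 : ℝ) ≤ ζ * Y.card
        positivity)
    (by
      rw [Fin.sum_univ_two]
      show (1 - 3 * ζ) * (Y.card : ℝ) + ζ * Y.card ≤ (1 - 2 * ζ) * Y.card
      exact le_of_eq (by ring))
  have hU := q6 0
  have hRo := q6 1
  simp only [Matrix.cons_val_zero, Matrix.cons_val_one] at hU hRo
  have r1 := hF2 (P 1) (q1 1) (q7 1)
  have r2 := hF2 Q q5 q9
  refine ⟨P 0, Q, P 1, q1 0, q5, q1 1, q4 0, q3 0 1 (by decide), (q4 1).symm, hU, ?_, ?_⟩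
  · intro y hy d
    have h1 := r1.1 y hy d
    have h2 : α / 2 * (ζ * Y.card) ≤ α / 2 * (P 1).card := mul_le_mul_of_nonneg_left hRo (by positivity)
    rw [nb_eq]
    linarith
  · refine conn_of hT hα hκ hκ1 hκα q5 r2.1 r2.2 hM ?_ ?_
    · rw [div_le_iff₀ (by positivity)] at hn₃
      have h3 : (n₃ : ℝ) ≤ Y.card := by exact_mod_cast hY3
      have h4 : (n₃ : ℝ) * (κ / 8 * κ / 4 * ζ) ≤ Y.card * (κ / 8 * κ / 4 * ζ) :=
        mul_le_mul_of_nonneg_right h3 (by positivity)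
      have h5 : κ / 8 * κ / 4 * (ζ * Y.card) ≤ κ / 8 * κ / 4 * Q.card := mul_le_mul_of_nonneg_left q8 (by positivity)
      rw [← ha₁]
      linarith
    · rw [div_le_iff₀ (by positivity)] at hn₄
      have h3 : (n₄ : ℝ) ≤ Y.card := by exact_mod_cast hY4
      have h4 : (n₄ : ℝ) * (α / 2 * ζ) ≤ Y.card * (α / 2 * ζ) := mul_le_mul_of_nonneg_right h3 (by positivity)
      have h5 : α / 2 * (ζ * Y.card) ≤ α / 2 * Q.card := mul_le_mul_of_nonneg_left q8 (by positivity)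
      rw [← ha₂]
      linarith

end AELT
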