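import Pool.Agent.AELT.Items
import Pool.Agent.AELT.Reserve

/-!
# Rooted trees in a clean core
-/

namespace AELT

open Finset AE15 AED
open scoped Classical

/-- in an expanding set of vertices the root of the tree can be placed anywhere, at ratio `ρ / (1 - β)` -/
theorem core_embed (b : ℕ) (hb : 1 ≤ b) {ρ C α β : ℝ} (hρ : 1 ≤ ρ) (hC : 0 ≤ C) (hα : 0 < α) (hα1 : α ≤ 1) (hβ : 0 < β) :
    ∃ n₀ : ℕ, ∀ {V : Type} {R : V → V → Prop}, AE32.Tour R → Un R b ρ C → ∀ Y : Finset V, n₀ ≤ Y.card →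
      Ex R (α * Y.card) Y → ∀ v ∈ Y, ∀ c : Fd, c.len ≤ b → c.Deg b → ρ * (c.size + 1) ≤ (1 - β) * Y.card →
        ∃ S ⊆ Y, v ∉ S ∧ Emb R c v S := by
  obtain ⟨ℓ, hℓ⟩ := exists_reserve hα hα1
  obtain ⟨ζ, hζd⟩ : ∃ ζ : ℝ, ζ = min (β / 6) (1 / 8) := ⟨_, rfl⟩
  have hζ : 0 < ζ := by rw [hζd]; exact lt_min (by positivity) (by norm_num)
  have hζβ : 6 * ζ ≤ β := by
    have : ζ ≤ β / 6 := by rw [hζd]; exact min_le_left _ _
    linarith
  have hζ8 : ζ ≤ 1 / 8 := by rw [hζd]; exact min_le_right _ _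
  obtain ⟨lam, hlam⟩ : ∃ lam : ℝ, lam = 1 - 1 / ((b : ℝ) + 1) ^ ℓ := ⟨_, rfl⟩
  have hl0 : 0 ≤ lam := by rw [hlam]; exact lam_nonneg b ℓ
  have hl1 : lam < 1 := by
    rw [hlam]
    have : (0 : ℝ) < 1 / ((b : ℝ) + 1) ^ ℓ := by positivity
    linarith
  obtain ⟨J, hJ⟩ := exists_pow_lt_of_lt_one (show 0 < α * ζ / (8 * ρ) by positivity) hl1
  obtain ⟨M, hM⟩ : ∃ M : ℝ, M = (ℓ * b + 1 : ℝ) ^ J * ((b : ℝ) + 1) ^ (ℓ + 1) := ⟨_, rfl⟩
  have hM0 : 0 ≤ M := by rw [hM]; positivity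
  obtain ⟨n₂, hn₂⟩ := hℓ ζ (1 + b * cc b ℓ J) hζ hζ8
  obtain ⟨n₃, hn₃⟩ : ∃ n₃ : ℕ, n₃ = ⌈(ρ * (b * M) + C + 1) / (α * ζ / 8)⌉₊ := ⟨_, rfl⟩
  refine ⟨max n₂ n₃, ?_⟩
  intro V R hT hU Y hn hEx v hv c hl hd hsz
  obtain ⟨U, Rc, Ro, hUY, hcY, hoY, h1, h2, h3, hUc, ho, hc⟩ := hn₂ hT Y ((le_max_left _ _).trans hn) hEx
  obtain ⟨n, hnd⟩ : ∃ n : ℝ, n = (Y.card : ℝ) := ⟨_, rfl⟩
  have hn0 : 0 ≤ n := by rw [hnd]; exact Nat.cast_nonneg _
  have hbig : ρ * (b * M) + C + 1 ≤ α * ζ / 8 * n := by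
    have h4 : (ρ * (b * M) + C + 1) / (α * ζ / 8) ≤ n := by
      refine (Nat.le_ceil _).trans ?_
      rw [← hn₃, hnd]
      exact_mod_cast (le_max_right _ _).trans hn
    rw [div_le_iff₀ (by positivity)] at h4
    linarith
  rw [← hnd] at hsz hUc ho
  have htsz : c.size = tsz c.trees := Fd.size_eq c
  have hlen : c.trees.length ≤ b := by rw [← Fd.len_eq]; exact hl
  have hlen' : (c.trees.length : ℝ) ≤ b := by exact_mod_cast hlen
  have hts : ∀ p ∈ c.trees, p.2.len ≤ b ∧ p.2.Deg b := (Fd.deg_iff b c).1 hd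
  have hW : ∀ Q : Finset V, (({v} : Finset V) ∩ Q).card ≤ 1 := fun Q =>
    (card_le_card inter_subset_left).trans (card_singleton v).le
  have hsn : (c.size : ℝ) ≤ n := by
    have h4 : (0 : ℝ) ≤ c.size := Nat.cast_nonneg _
    have h5 : (c.size : ℝ) + 1 ≤ ρ * (c.size + 1) := le_mul_of_one_le_left (by linarith only [h4]) hρ
    have h6 : (1 - β) * n ≤ n := mul_le_of_le_one_left hn0 (by linarith only [hβ])
    linarith only [h5, h6, hsz]
  have horp : orpL b ℓ J c.trees ≤ α * ζ / (8 * ρ) * n + b * M := by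
    rw [orpL_eq, ← htsz, ← hlam, ← hM]
    have h4 : lam ^ J * c.size ≤ α * ζ / (8 * ρ) * n :=
      mul_le_mul hJ.le hsn (Nat.cast_nonneg _) (by positivity)
    have h5 : (c.trees.length : ℝ) * M ≤ b * M := mul_le_mul_of_nonneg_right hlen' hM0
    linarith
  obtain ⟨S, s1, s2, s3, -, -, -⟩ := items hb hρ hC hU hUY hcY hoY h1 h2 h3 hc (κ := α / 2 * ζ * n)
    (fun y hy d => ho y hy d) J c.trees hts v hv {v} (mem_singleton_self v)
    (by
      have h4 := hW Rc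
      have h5 : c.trees.length * cc b ℓ J ≤ b * cc b ℓ J := Nat.mul_le_mul_right _ hlen
      omega)
    (by
      have h4 : ((({v} : Finset V) ∩ Ro).card : ℝ) ≤ 1 := by exact_mod_cast hW Ro
      have h5 : ρ * orpL b ℓ J c.trees ≤ ρ * (α * ζ / (8 * ρ) * n + b * M) :=
        mul_le_mul_of_nonneg_left horp (by linarith)
      have h6 : ρ * (α * ζ / (8 * ρ) * n + b * M) = α * ζ / 8 * n + ρ * (b * M) := by
        field_simp
      have h7 : 0 ≤ α * ζ * n := by positivity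
      linarith only [h4, h5, h6, h7, hbig])
    (by
      have h4 : ((({v} : Finset V) ∩ U).card : ℝ) ≤ 1 := by exact_mod_cast hW U
      rw [← htsz]
      have h5 : α * ζ / 8 * n ≤ 1 / 8 * ζ * n := by
        have : α * (ζ * n) ≤ 1 * (ζ * n) := mul_le_mul_of_nonneg_right hα1 (by positivity)
        linarith
      have h6 : 6 * ζ * n ≤ β * n := mul_le_mul_of_nonneg_right hζβ hn0
      have h7 : 0 ≤ ρ * (b * M) := by positivity
      have h8 : 0 ≤ ζ * n := by positivity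
      have h9 : (0 : ℝ) ≤ c.size := Nat.cast_nonneg _
      have h10 : ρ * (c.size + 1) = ρ * c.size + ρ := by ring
      linarith only [h4, h5, h6, h7, h8, h10, hbig, hsz, hUc, hρ, hC])
  refine ⟨S, s2.trans (union_subset (union_subset hUY hcY) hoY), ?_, (emb_iff c v S).2 s1⟩
  intro hvS
  exact disjoint_left.1 s3 hvS (mem_singleton_self v)

end AELT
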