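import Pool.Agent.AELT.Ext
import Pool.Agent.AELT.Clos
import Pool.Agent.LTT.Part
import Pool.Agent.AELT.Core
import Pool.Agent.AELT.CoreEmbed

/-!
# LT, module G0: the regions and the numbers
-/

namespace AELT

open Finset AE15 AED LTT
open scoped Classical

theorem blk_eq_rch (c : Fd) : AEB.blk c = rch false c := by
  induction c with
  | nil => rfl
  | node d c s ihc ihs => cases d <;> simp [AEB.blk, rch, ihc, ihs]

theorem dcl_eq_rch (c : Fd) : dcl c = rch true c := by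
  induction c with
  | nil => rfl
  | node d c s ihc ihs => cases d <;> simp [dcl, rch, ihc, ihs]

theorem top_of_cnt {F : Fl} (h : F.cnt = 0) : F.top = F.un := by
  induction F with
  | nil => rfl
  | node d e c s ihc ihs =>
    cases e
    · simp only [Fl.cnt, Bool.false_eq_true, if_false] at h
      simp only [Fl.top, Fl.un, Bool.false_eq_true, if_false]
      rw [ihc (by omega), ihs (by omega)]
    · simp [Fl.cnt] at h

theorem orpL_le {b ℓ J : ℕ} (hb : 1 ≤ b) (ts : List (Bool × Fd)) (h : ts.length ≤ b) :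
    orpL b ℓ J ts ≤ (1 - 1 / ((b : ℝ) + 1) ^ ℓ) ^ J * tsz ts + b * ((ℓ * b + 1 : ℝ) ^ J * ((b : ℝ) + 1) ^ (ℓ + 1)) := by
  have key : ∀ ts : List (Bool × Fd), orpL b ℓ J ts =
      (1 - 1 / ((b : ℝ) + 1) ^ ℓ) ^ J * tsz ts + ts.length * ((ℓ * b + 1 : ℝ) ^ J * ((b : ℝ) + 1) ^ (ℓ + 1)) := by
    intro ts
    induction ts with
    | nil => simp [orpL, tsz]
    | cons p ts ih =>
      have h1 : orpL b ℓ J (p :: ts) = orp b ℓ J (p.2.size + 1) + orpL b ℓ J ts := by simp [orpL]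
      rw [h1, ih, tsz_cons, orp]
      push_cast
      simp only [List.length_cons]
      push_cast
      ring
  rw [key]
  have : (ts.length : ℝ) ≤ b := by exact_mod_cast h
  have h2 : (0 : ℝ) ≤ (ℓ * b + 1 : ℝ) ^ J * ((b : ℝ) + 1) ^ (ℓ + 1) := by positivity
  exact add_le_add_right (mul_le_mul_of_nonneg_right this h2) _

variable {V : Type*} {R : V → V → Prop}

/-- the three regions: the part of the root in the middle, then the lower side, then the upper side -/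
theorem assemble {b : ℕ} {ρ C t : ℝ} (hρ : 1 ≤ ρ) (hU : Un R b ρ C) {Up Mid Dn : Finset V}
    (d1 : Disjoint Mid Dn) (d2 : Disjoint (Mid ∪ Dn) Up)
    (hUM : ∀ x ∈ Up, (((Mid ∪ Dn).filter (fun v => ¬ R x v)).card : ℝ) ≤ t)
    (hMU : ∀ x ∈ Mid ∪ Dn, ((Up.filter (fun v => ¬ R v x)).card : ℝ) ≤ t)
    (hMD : ∀ x ∈ Mid, ((Dn.filter (fun v => ¬ R x v)).card : ℝ) ≤ t)
    (hDM : ∀ x ∈ Dn, ((Mid.filter (fun v => ¬ R v x)).card : ℝ) ≤ t) {z : V} (hz : z ∈ Mid) {F₁ F₂ : Fl}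
    (he : F₂.un = F₁.top) (ho1 : F₁.Ok true false) (ho2 : F₂.Ok false false) (hD : F₁.un.Deg b)
    {P : Finset V} (hP : P ⊆ Mid) (hzP : z ∉ P) (hE : Emb R F₂.top z P)
    (n1 : F₂.cnt ≠ 0 → ρ * F₂.cnt + C + t ≤ Dn.card)
    (n2 : off false false F₂ ≠ 0 → ρ * off false false F₂ + C + t + F₂.top.size + 1 ≤ Mid.card)
    (n3 : F₁.cnt ≠ 0 → ρ * F₁.cnt + C + t ≤ Up.card)
    (n4 : off false false F₁ ≠ 0 → ρ * off false false F₁ + C + t + F₁.top.size + 1 ≤ Mid.card + Dn.card) :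
    ∃ S ⊆ Up ∪ (Mid ∪ Dn), z ∉ S ∧ Emb R F₁.un z S := by
  have hPc := hE.card
  have hIc : (insert z P).card = F₂.top.size + 1 := by rw [card_insert_of_notMem hzP, hPc]
  have hIM : insert z P ⊆ Mid := by
    intro v hv
    rw [mem_insert] at hv
    rcases hv with rfl | hv
    exacts [hz, hP hv]
  -- the lower side
  obtain ⟨Q, hQ, hQd, hQE, -⟩ := ext (C := C) (G := fun e => if e then Dn else Mid) hρ hU (by simpa using d1) (σ := false)
    (ν := t) ⟨fun x hx => by simpa [Adj] using hDM x (by simpa using hx), fun x hx => by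
      simpa [Adj] using hMD x (by simpa using hx)⟩ F₂ false ho2 (by rw [he]; exact F₁.top_deg hD) z (by simpa using hz) P
    (by simpa using hP) hzP (by rw [topE_false]; exact hE) (insert z P) (Subset.refl _) (by
      intro j hj
      cases j
      · have h1 := n2 hj
        have h2 : ((insert z P ∩ Mid).card : ℝ) = F₂.top.size + 1 := by
          rw [inter_eq_left.2 hIM, hIc]; push_cast; ring
        simp only [Bool.false_eq_true, if_false]
        rw [h2]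
        linarith
      · rw [off_ne (by simp), num_true] at hj ⊢
        have h1 := n1 hj
        have h2 : insert z P ∩ Dn = ∅ := by
          rw [← disjoint_iff_inter_eq_empty]
          exact d1.mono_left hIM
        simp only [if_true]
        rw [h2]
        simpa using h1)
  simp only [Bool.false_eq_true, if_false, if_true] at hQ
  rw [he, ← topE_false F₁] at hQE
  have hzQ : z ∉ Q := fun h => disjoint_left.1 hQd h (mem_insert_self _ _)
  have hPQ : P ∪ Q ⊆ Mid ∪ Dn := union_subset (hP.trans subset_union_left) hQ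
  have hPQz : z ∉ P ∪ Q := by
    rw [mem_union, not_or]; exact ⟨hzP, hzQ⟩
  have hPQc := hQE.card
  rw [topE_false] at hPQc
  have hI2 : insert z (P ∪ Q) ⊆ Mid ∪ Dn := by
    intro v hv
    rw [mem_insert] at hv
    rcases hv with rfl | hv
    exacts [mem_union_left _ hz, hPQ hv]
  have hI2c : (insert z (P ∪ Q)).card = F₁.top.size + 1 := by rw [card_insert_of_notMem hPQz, hPQc]
  -- the upper side
  obtain ⟨S, hS, hSd, hSE, -⟩ := ext (C := C) (G := fun e => if e then Up else Mid ∪ Dn) hρ hU (by simpa using d2) (σ := true)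
    (ν := t) ⟨fun x hx => by simpa [Adj] using hUM x (by simpa using hx), fun x hx => by
      simpa [Adj] using hMU x (by simpa using hx)⟩ F₁ false ho1 hD z (by simpa using Or.inl hz) (P ∪ Q)
    (by simpa using hPQ) hPQz hQE (insert z (P ∪ Q)) (Subset.refl _) (by
      intro j hj
      cases j
      · have h1 := n4 hj
        have h2 : ((insert z (P ∪ Q) ∩ (Mid ∪ Dn)).card : ℝ) = F₁.top.size + 1 := by
          rw [inter_eq_left.2 hI2, hI2c]; push_cast; ring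
        have h3 : ((Mid ∪ Dn).card : ℝ) = Mid.card + Dn.card := by
          rw [card_union_of_disjoint d1]; push_cast; ring
        simp only [Bool.false_eq_true, if_false]
        rw [h2, h3]
        linarith
      · rw [off_ne (by simp), num_true] at hj ⊢
        have h1 := n3 hj
        have h2 : insert z (P ∪ Q) ∩ Up = ∅ := by
          rw [← disjoint_iff_inter_eq_empty]
          exact d2.mono_left hI2
        simp only [if_true]
        rw [h2]
        simpa using h1)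
  simp only [Bool.false_eq_true, if_false, if_true] at hS
  have hzS : z ∉ S := fun h => disjoint_left.1 hSd h (mem_insert_self _ _)
  refine ⟨P ∪ Q ∪ S, ?_, ?_, hSE⟩
  · refine union_subset (hPQ.trans subset_union_right) (hS.trans ?_)
    exact union_subset subset_union_right subset_union_left
  · rw [mem_union, not_or]; exact ⟨hPQz, hzS⟩

/-- few exceptional vertices, few arcs at the others -/
theorem sum_bound {X Y NG : Finset V} {ν : ℝ} (hν : 0 ≤ ν) (f : V → ℕ) (hY : Y ⊆ X)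
    (h1 : ∀ v ∈ Y, v ∉ NG → (f v : ℝ) ≤ ν * X.card) (h2 : ∀ v, f v ≤ X.card) (h3 : (NG.card : ℝ) ≤ ν * X.card) :
    ((∑ v ∈ Y, f v : ℕ) : ℝ) ≤ 2 * ν * (X.card : ℝ) ^ 2 := by
  push_cast
  have e1 : ∑ v ∈ Y, (f v : ℝ) = ∑ v ∈ Y \ NG, (f v : ℝ) + ∑ v ∈ Y ∩ NG, (f v : ℝ) := by
    rw [← sum_union (disjoint_sdiff_inter Y NG), sdiff_union_inter]
  have e2 : ∑ v ∈ Y \ NG, (f v : ℝ) ≤ (Y \ NG).card • (ν * X.card) := by
    apply sum_le_card_nsmul
    intro v hv
    rw [mem_sdiff] at hv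
    exact h1 v hv.1 hv.2
  have e3 : ∑ v ∈ Y ∩ NG, (f v : ℝ) ≤ (Y ∩ NG).card • (X.card : ℝ) := by
    apply sum_le_card_nsmul
    intro v _
    exact_mod_cast h2 v
  rw [nsmul_eq_mul] at e2 e3
  have e4 : ((Y \ NG).card : ℝ) ≤ X.card := by exact_mod_cast card_le_card (sdiff_subset.trans hY)
  have e5 : ((Y ∩ NG).card : ℝ) ≤ ν * X.card := by
    refine le_trans ?_ h3
    exact_mod_cast card_le_card inter_subset_right
  have e6 : (0 : ℝ) ≤ X.card := by positivity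
  have e7 : ((Y \ NG).card : ℝ) * (ν * X.card) ≤ X.card * (ν * X.card) := by gcongr
  have e8 : ((Y ∩ NG).card : ℝ) * X.card ≤ ν * X.card * X.card := by gcongr
  rw [e1]
  linarith only [e2, e3, e7, e8]

theorem Closed.mono {κ κ' : ℝ} {X Q : Finset V} (h : Closed R κ' X Q) (hk : κ' ≤ κ) : Closed R κ X Q := by
  intro z hz hzQ
  have h1 := h z hz hzQ
  have h2 : κ' * (X.card : ℝ) ≤ κ * X.card := by gcongr
  linarith

/-- the numbers -/
theorem numbers {n u m w ρ C ε t M D U : ℝ} (hn : u + m + w = n) (hρ : 1 ≤ ρ) (hC : 0 ≤ C)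
    (ht : t ≤ ε * n / 64) (hn1 : 8 * ρ ≤ ε * n) (hn2 : 32 * (C + 1) ≤ ε * n) {p m₁ q : ℕ}
    (Fp : p ≠ 0 → ρ * p ≤ u - ε * n / 4) (Lp : u - ε * n / 4 ≤ ρ * (p + 1))
    (Fm : m₁ ≠ 0 → ρ * m₁ ≤ m - ε * n / 4) (Lm : m - ε * n / 4 ≤ ρ * (m₁ + 1))
    (Fq : q ≠ 0 → ρ * q ≤ w - ε * n / 4) (Lq : w - ε * n / 4 ≤ ρ * (q + 1))
    (hM : m₁ ≠ 0 → m - ε * n / 8 ≤ M) (hM0 : 1 ≤ M) (hD : w - ε * n / 64 ≤ D) (hD0 : 0 ≤ D) (hU : u - ε * n / 64 ≤ U)
    {c : Fd} (hc : ρ * (c.size + 1) ≤ (1 - ε) * n) (hd : ρ * (dcl c + 1) + 7 / 8 * ε * n ≤ m + w)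
    (ha : ρ * (AEB.blk c + 1) + 7 / 8 * ε * n ≤ u + m) :
    ∃ F₁ F₂ : Fl, F₁.un = c ∧ F₁.Ok true false ∧ F₂.un = F₁.top ∧ F₂.Ok false false ∧ F₂.top.size ≤ m₁ ∧
      (F₂.cnt ≠ 0 → ρ * F₂.cnt + C + t ≤ D) ∧
      (off false false F₂ ≠ 0 → ρ * off false false F₂ + C + t + F₂.top.size + 1 ≤ M) ∧
      (F₁.cnt ≠ 0 → ρ * F₁.cnt + C + t ≤ U) ∧
      (off false false F₁ ≠ 0 → ρ * off false false F₁ + C + t + F₁.top.size + 1 ≤ M + D) := by
  have hρ0 : 0 < ρ := by linarith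
  have c1 : c.size + 1 ≤ p + (m₁ + 1) + q := by
    have h1 : ρ * ((c.size : ℝ) + 3) ≤ ρ * (p + m₁ + q + 3) := by
      linarith only [Lp, Lm, Lq, hc, hn1, hn]
    have h2 := le_of_mul_le_mul_left h1 hρ0
    have h3 : ((c.size + 3 : ℕ) : ℝ) ≤ ((p + m₁ + q + 3 : ℕ) : ℝ) := by push_cast; linarith
    have h4 : c.size + 3 ≤ p + m₁ + q + 3 := by exact_mod_cast h3
    omega
  have c2 : rch false c + 1 ≤ p + (m₁ + 1) := by
    rw [← blk_eq_rch]
    have h1 : ρ * ((AEB.blk c : ℝ) + 2) ≤ ρ * (p + m₁ + 2) := by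
      linarith only [Lp, Lm, ha, hn1, hρ0]
    have h2 := le_of_mul_le_mul_left h1 hρ0
    have h3 : ((AEB.blk c + 2 : ℕ) : ℝ) ≤ ((p + m₁ + 2 : ℕ) : ℝ) := by push_cast; linarith
    have h4 : AEB.blk c + 2 ≤ p + m₁ + 2 := by exact_mod_cast h3
    omega
  have c3 : rch true c + 1 ≤ (m₁ + 1) + q := by
    rw [← dcl_eq_rch]
    have h1 : ρ * ((dcl c : ℝ) + 2) ≤ ρ * (m₁ + q + 2) := by
      linarith only [Lq, Lm, hd, hn1, hρ0]
    have h2 := le_of_mul_le_mul_left h1 hρ0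
    have h3 : ((dcl c + 2 : ℕ) : ℝ) ≤ ((m₁ + q + 2 : ℕ) : ℝ) := by push_cast; linarith
    have h4 : dcl c + 2 ≤ m₁ + q + 2 := by exact_mod_cast h3
    omega
  obtain ⟨F₁, F₂, a1, a2, a3, a4, a5, a6, a7, a8, a9⟩ := two_cuts c p (m₁ + 1) q (by omega) c1 c2 c3
  have s1 := size_topE false F₁
  have s2 := size_topE false F₂
  have s3 := num_add F₁
  have s4 := num_add F₂
  rw [topE_false] at s1 s2
  rw [num_true, a1] at s3
  rw [num_true, a5] at s4
  refine ⟨F₁, F₂, a1, a2, a5, a6, by omega, ?_, ?_, ?_, ?_⟩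
  · intro h
    have h1 := Fq (by omega)
    have h2 : ρ * (F₂.cnt : ℝ) ≤ ρ * q := by
      have : (F₂.cnt : ℝ) ≤ q := by exact_mod_cast a7
      gcongr
    linarith
  · intro h
    have h0 : off false false F₂ + F₂.top.size ≤ m₁ := by omega
    have h0' : m₁ ≠ 0 := by omega
    have h1 := Fm h0'
    have h2 := hM h0'
    have h3 : (off false false F₂ : ℝ) + F₂.top.size ≤ m₁ := by exact_mod_cast h0
    have h4 : (0 : ℝ) ≤ F₂.top.size := by positivity
    have h5 : ρ * (off false false F₂ + F₂.top.size) ≤ ρ * m₁ := by gcongr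
    have h6 : (F₂.top.size : ℝ) ≤ ρ * F₂.top.size := le_mul_of_one_le_left h4 hρ
    linarith only [h5, h6, h1, h2, ht, hn2, hn1, hρ0]
  · intro h
    have h1 := Fp (by omega)
    have h2 : ρ * (F₁.cnt : ℝ) ≤ ρ * p := by
      have : (F₁.cnt : ℝ) ≤ p := by exact_mod_cast a3
      gcongr
    linarith
  · intro h
    have h0 : off false false F₁ + F₁.top.size ≤ m₁ + q := by omega
    have h3 : (off false false F₁ : ℝ) + F₁.top.size ≤ m₁ + q := by exact_mod_cast h0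
    have h4 : (0 : ℝ) ≤ F₁.top.size := by positivity
    have h5 : ρ * (off false false F₁ + F₁.top.size) ≤ ρ * (m₁ + q) := by gcongr
    have h6 : (F₁.top.size : ℝ) ≤ ρ * F₁.top.size := le_mul_of_one_le_left h4 hρ
    by_cases hm : m₁ = 0
    · subst hm
      have h7 := Fq (by omega)
      push_cast at h5
      linarith only [h5, h6, h7, hD, hM0, ht, hn2, hn1, hρ0]
    · have h7 := Fm hm
      have h8 := hM hm
      by_cases hq : q = 0
      · subst hq
        push_cast at h5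
        linarith only [h5, h6, h7, h8, hD0, ht, hn2, hn1, hρ0]
      · have h9 := Fq hq
        linarith only [h5, h6, h7, h8, h9, hD, ht, hn2, hn1, hρ0]

theorem floor_facts {ρ x : ℝ} (hρ : 0 < ρ) :
    (⌊x / ρ⌋₊ ≠ 0 → ρ * (⌊x / ρ⌋₊ : ℝ) ≤ x) ∧ x ≤ ρ * ((⌊x / ρ⌋₊ : ℝ) + 1) := by
  constructor
  · intro h
    have h1 : 1 ≤ ⌊x / ρ⌋₊ := Nat.one_le_iff_ne_zero.2 h
    have h2 : (1 : ℝ) ≤ x / ρ := by
      have := Nat.floor_pos.1 h1
      exact this
    have h3 := Nat.floor_le (by linarith : (0 : ℝ) ≤ x / ρ)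
    calc ρ * (⌊x / ρ⌋₊ : ℝ) ≤ ρ * (x / ρ) := by gcongr
      _ = x := by field_simp
  · have h := Nat.lt_floor_add_one (x / ρ)
    calc x = ρ * (x / ρ) := by field_simp
      _ ≤ ρ * ((⌊x / ρ⌋₊ : ℝ) + 1) := by gcongr

/-- a block in which a dense set stays dense -/
theorem exists_block {X M : Finset V} {β : V → ℕ} {ε : ℝ} (hε : 0 ≤ ε) (h : ε * X.card ≤ M.card)
    (hne : M.Nonempty) : ∃ v ∈ M, ε * (blkI X β (β v)).card ≤ ((M.filter (fun u => β u = β v)).card : ℝ) := by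
  by_contra hcon
  push Not at hcon
  have e1 : (M.card : ℝ) = ∑ j ∈ M.image β, ((M.filter (fun u => β u = j)).card : ℝ) := by
    have := card_eq_sum_card_image β M
    exact_mod_cast this
  have e2 : ∑ j ∈ M.image β, ((M.filter (fun u => β u = j)).card : ℝ) <
      ∑ j ∈ M.image β, ε * ((blkI X β j).card : ℝ) := by
    apply sum_lt_sum_of_nonempty (hne.image β)
    intro j hj
    obtain ⟨v, hv, rfl⟩ := mem_image.1 hj
    exact hcon v hv
  have e3 : ∑ j ∈ M.image β, ((blkI X β j).card : ℝ) ≤ X.card := by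
    have h1 : ∑ j ∈ M.image β, (blkI X β j).card = ((M.image β).biUnion (fun j => blkI X β j)).card := by
      rw [card_biUnion]
      intro i _ j _ hij
      rw [Function.onFun, disjoint_left]
      intro u hu hu'
      rw [mem_blkI] at hu hu'
      exact hij (hu.2.symm.trans hu'.2)
    have h2 : ((M.image β).biUnion (fun j => blkI X β j)) ⊆ X := by
      intro u hu
      obtain ⟨j, _, hu⟩ := mem_biUnion.1 hu
      exact (mem_blkI.1 hu).1
    have h3 := card_le_card h2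
    rw [← h1] at h3
    exact_mod_cast h3
  rw [← mul_sum] at e2
  have e4 : ε * ∑ j ∈ M.image β, ((blkI X β j).card : ℝ) ≤ ε * X.card := by gcongr
  linarith

theorem num1 {n B Y ρ ε s m : ℝ} (h1 : B - 3 / 64 * (ε * n) ≤ Y) (h2 : Y ≤ n) (h3 : ε / 16 * n ≤ B)
    (h4 : 1024 * ρ ≤ ε * n) (hε : 0 < ε) (hε1 : ε ≤ 1) (hρ : 0 < ρ) (hs : s ≤ m)
    (hm : m = 0 ∨ ρ * m ≤ B - ε * n / 4) : ρ * (s + 1) ≤ (1 - ε / 16) * Y := by
  have h5 : ρ * s ≤ ρ * m := mul_le_mul_of_nonneg_left hs hρ.le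
  have h6 : ε / 16 * Y ≤ ε / 16 * n := mul_le_mul_of_nonneg_left h2 (by linarith)
  have h7 : 0 ≤ Y := by linarith
  have h8 : ε / 16 * Y ≤ 1 / 16 * Y := mul_le_mul_of_nonneg_right (by linarith) h7
  have h9 : ρ * (s + 1) = ρ * s + ρ := by ring
  have h10 : (1 - ε / 16) * Y = Y - ε / 16 * Y := by ring
  rw [h9, h10]
  rcases hm with rfl | hm
  · rw [mul_zero] at h5
    linarith
  · linarith

/-- the middle region: the clean core of a thick block, or one vertex of a thin block -/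
theorem exists_mid {b n₁ : ℕ} {ρ C ε k α ν : ℝ} (hρ : 0 < ρ) (hε : 0 < ε) (hε1 : ε ≤ 1) (hk : 0 < k) (hα : 0 < α)
    (hαk : α ≤ k / 8) (hνk : ν ≤ k / 64) (hνε : ν ≤ ε / 64) {V : Type} {R : V → V → Prop} (hTour : AE32.Tour R)
    (hU : Un R b ρ C)
    (hcore : ∀ Y : Finset V, n₁ ≤ Y.card → Ex R (α * Y.card) Y → ∀ v ∈ Y, ∀ c : Fd, c.len ≤ b → c.Deg b →
      ρ * (c.size + 1) ≤ (1 - ε / 16) * Y.card → ∃ S ⊆ Y, v ∉ S ∧ Emb R c v S)
    {S NG B : Finset V} {n : ℝ} (hn0 : 0 < n) (b3 : 64 * (n₁ : ℝ) ≤ ε * n) (b4 : 1024 * ρ ≤ ε * n)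
    (hBn : (B.card : ℝ) ≤ n) (hNG : (NG.card : ℝ) ≤ ν * n) (hSB : S ⊆ B) (hSN : Disjoint S NG)
    (hSd : ε / 2 * B.card ≤ (S.card : ℝ)) {v₀ : V} (hv₀ : v₀ ∈ S)
    (huns : ε / 16 * n ≤ (B.card : ℝ) → ∀ A ⊆ B, ε / 64 * B.card ≤ (A.card : ℝ) →
      ε / 64 * B.card ≤ ((B \ A).card : ℝ) → k * n ^ 2 ≤ (ar R A (B \ A) : ℝ)) :
    ∃ (z : V) (Mid : Finset V) (m₁ : ℕ), z ∈ S ∧ z ∈ Mid ∧ Mid ⊆ B ∧ Disjoint Mid NG ∧
      (m₁ ≠ 0 → ρ * m₁ ≤ B.card - ε * n / 4) ∧ B.card - ε * n / 4 ≤ ρ * (m₁ + 1) ∧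
      (m₁ ≠ 0 → B.card - ε * n / 8 ≤ (Mid.card : ℝ)) ∧
      ∀ F : Fd, F.len ≤ b → F.Deg b → F.size ≤ m₁ → ∃ P ⊆ Mid, z ∉ P ∧ Emb R F z P := by
  have hεn : 0 < ε * n := mul_pos hε hn0
  have hkn : 0 < k * n := mul_pos hk hn0
  by_cases hthick : ε / 16 * n ≤ (B.card : ℝ)
  · -- thick
    obtain ⟨Y, y1, y2, y3⟩ := exists_core (R := R) (η := ε / 64) (k := k) (θ := k / 4) (n := n) (by linarith)
      (by linarith) (by linarith) (by linarith) hBn (huns hthick)
    have hνk' : ν * n ≤ k / 64 * n := mul_le_mul_of_nonneg_right hνk hn0.le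
    have hνε' : ν * n ≤ ε / 64 * n := mul_le_mul_of_nonneg_right hνε hn0.le
    have y4 : Ex R (k / 4 * n / 2) (Y \ NG) := y3.sdiff (by linarith)
    have hYB : Y \ NG ⊆ B := sdiff_subset.trans y1
    have hYn : ((Y \ NG).card : ℝ) ≤ n := le_trans (by exact_mod_cast card_le_card hYB) hBn
    have y5 : Ex R (α * (Y \ NG).card) (Y \ NG) := y4.mono (by
      have h1 : α * ((Y \ NG).card : ℝ) ≤ α * n := mul_le_mul_of_nonneg_left hYn hα.le
      have h2 : α * n ≤ k / 8 * n := mul_le_mul_of_nonneg_right hαk hn0.le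
      linarith)
    have hYc : (B.card : ℝ) - 3 / 64 * (ε * n) ≤ (Y \ NG).card := by
      have h1 : (Y.card : ℝ) ≤ (Y \ NG).card + NG.card := by
        exact_mod_cast card_le_card_sdiff_add_card (s := Y) (t := NG)
      have h2 : (B.card : ℝ) ≤ (B \ Y).card + Y.card := by
        exact_mod_cast card_le_card_sdiff_add_card (s := B) (t := Y)
      have h5 : 2 * (ε / 64) * (B.card : ℝ) ≤ 2 * (ε / 64) * n := mul_le_mul_of_nonneg_left hBn (by linarith)
      linarith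
    have hB0 : (0 : ℝ) < B.card := by linarith
    -- a good vertex in the core
    obtain ⟨z, hz, hz'⟩ : ∃ z ∈ S, z ∈ Y := by
      by_contra hcon
      push Not at hcon
      have h1 : S ⊆ B \ Y := fun u hu => mem_sdiff.2 ⟨hSB hu, hcon u hu⟩
      have h2 : (S.card : ℝ) ≤ (B \ Y).card := by exact_mod_cast card_le_card h1
      have h3 := mul_pos hε hB0
      linarith
    have hzY : z ∈ Y \ NG := mem_sdiff.2 ⟨hz', disjoint_left.1 hSN hz⟩
    have hff := floor_facts (ρ := ρ) (x := B.card - ε * n / 4) hρ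
    refine ⟨z, Y \ NG, ⌊(B.card - ε * n / 4) / ρ⌋₊, hz, hzY, hYB, sdiff_disjoint, hff.1, hff.2,
      fun _ => by linarith, ?_⟩
    intro F hFl hFD hFs
    have h1 : n₁ ≤ (Y \ NG).card := by
      have h1 : (n₁ : ℝ) ≤ (Y \ NG).card := by linarith
      exact_mod_cast h1
    refine hcore (Y \ NG) h1 y5 z hzY F hFl hFD ?_
    refine num1 (n := n) (B := B.card) (m := (⌊(B.card - ε * n / 4) / ρ⌋₊ : ℝ)) hYc hYn hthick b4 hε hε1 hρ
      (by exact_mod_cast hFs) ?_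
    by_cases h0 : ⌊((B.card : ℝ) - ε * n / 4) / ρ⌋₊ = 0
    · left; rw [h0]; simp
    · right; exact hff.1 h0
  · -- thin
    push Not at hthick
    refine ⟨v₀, {v₀}, 0, hv₀, by simp, by simpa using hSB hv₀, ?_, fun h => absurd rfl h, ?_,
      fun h => absurd rfl h, ?_⟩
    · rw [disjoint_singleton_left]
      exact disjoint_left.1 hSN hv₀
    · push_cast
      linarith
    · intro F _ _ hFs
      cases F with
      | nil => exact ⟨∅, by simp, by simp, rfl⟩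
      | node d c s => simp [Fd.size] at hFs

/-- closed sets containing the neighbours of `z` are not much larger than `Y` -/
theorem reach_bound {V : Type*} {R : V → V → Prop} {κ κ' ν ε a : ℝ} (hκ0 : 0 < κ') (hκ1 : κ' ≤ κ) (hκ2 : κ' ≤ ε / 4)
    (hν0 : 0 < ν) (hcl : 2 * (2 * ν) / κ' + ν ≤ κ' / 2) {X Y NG : Finset V} (hY : Y ⊆ X)
    (hb : ∀ v ∈ Y, v ∉ NG → ((nO R (X \ Y) v).card : ℝ) ≤ ν * X.card) (hNG : (NG.card : ℝ) ≤ ν * X.card) {z : V}
    (hz : z ∈ Y) (hzN : z ∉ NG) (hn1 : 1 ≤ X.card) (hW : Wide R κ a X z) : a ≤ Y.card + ε / 8 * X.card := by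
  obtain ⟨Q, q1, q2, q3, q4⟩ := exists_closed (R := R) (κ := κ') (ν := ν) (δ := 2 * ν) hκ0 hν0.le (by linarith) hcl
    (X := X) (Y := Y) hY (z := z)
    (sum_bound hν0.le (fun v => (nO R (X \ Y) v).card) (NG := NG) hY hb
      (fun v => card_le_card (nO_sub.trans sdiff_subset)) hNG) (hb z hz hzN) hn1
  have h1 := hW Q q1 q2 (Closed.mono q3 hκ1)
  have h4 : κ' / 2 * (X.card : ℝ) ≤ ε / 8 * X.card := by
    have : κ' / 2 ≤ ε / 8 := by linarith
    gcongr
  linarith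

end AELT
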