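import Pool.Agent.AELT.Defs
import Pool.Agent.LTT.Label

/-!
# LT, module E2: from the part of the root to the whole tree
-/

namespace AELT

open Finset AE15 AED LTT
open scoped Classical

/-- the part connected with a host of label `e` inside its label -/
def topE (e : Bool) : Fl → Fd
  | .nil => .nil
  | .node d e' c s => if e' = e then .node d (topE e c) (topE e s) else topE e s

/-- number of vertices with label `j` -/
def num (j : Bool) : Fl → ℕ
  | .nil => 0
  | .node _ e c s => (if e = j then 1 else 0) + num j c + num j s

/-- number of vertices with label `j` outside the part connected with a host of label `e` -/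
def off (e j : Bool) : Fl → ℕ
  | .nil => 0
  | .node _ e' c s => (if e' = e then off e j c else (if e' = j then 1 else 0) + num j c) + off e j s

theorem topE_false (F : Fl) : topE false F = F.top := by
  induction F with
  | nil => rfl
  | node d e c s ihc ihs => cases e <;> simp [topE, Fl.top, ihc, ihs]

theorem num_true (F : Fl) : num true F = F.cnt := by
  induction F with
  | nil => rfl
  | node d e c s ihc ihs => simp [num, Fl.cnt, ihc, ihs]

theorem num_add (F : Fl) : num true F + num false F = F.un.size := by
  induction F with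
  | nil => rfl
  | node d e c s ihc ihs => cases e <;> simp [num, Fl.un, Fd.size] <;> omega

theorem size_topE (e : Bool) (F : Fl) : (topE e F).size + off e e F = num e F := by
  induction F with
  | nil => rfl
  | node d e' c s ihc ihs =>
    by_cases h : e' = e
    · simp only [topE, off, num, if_pos h, Fd.size]
      omega
    · simp only [topE, off, num, if_neg h]
      omega

theorem off_ne {e j : Bool} (h : j ≠ e) (F : Fl) : off e j F = num j F := by
  induction F with
  | nil => rfl
  | node d e' c s ihc ihs =>
    by_cases h' : e' = e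
    · have : e' ≠ j := by rw [h']; exact fun h2 => h h2.symm
      simp only [off, num, if_pos h', if_neg this, ihc, ihs]
      omega
    · simp only [off, num, if_neg h', ihs]

theorem len_topE (e : Bool) (F : Fl) : (topE e F).len ≤ F.un.len := by
  induction F with
  | nil => exact le_rfl
  | node d e' c s ihc ihs =>
    by_cases h : e' = e
    · simp only [topE, if_pos h, Fl.un, Fd.len]
      omega
    · simp only [topE, if_neg h, Fl.un, Fd.len]
      omega

theorem deg_topE {b : ℕ} (e : Bool) (F : Fl) (h : F.un.Deg b) : (topE e F).Deg b := by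
  induction F with
  | nil => trivial
  | node d e' c s ihc ihs =>
    obtain ⟨h1, h2, h3⟩ := h
    by_cases h : e' = e
    · simp only [topE, if_pos h]
      exact ⟨(len_topE e c).trans h1, ihc h2, ihs h3⟩
    · simp only [topE, if_neg h]
      exact ihs h3

variable {V : Type*} {R : V → V → Prop}

/-- `σ = true`: the arcs between the two sides go from `G true` to `G false`; every vertex sees all but `ν` vertices of the
other side in the right direction -/
def TypS (R : V → V → Prop) (σ : Bool) (ν : ℝ) (G : Bool → Finset V) : Prop :=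
  (∀ x ∈ G true, (((G false).filter (fun v => ¬ Adj R σ x v)).card : ℝ) ≤ ν) ∧
    ∀ x ∈ G false, (((G true).filter (fun v => ¬ Adj R (!σ) x v)).card : ℝ) ≤ ν

theorem mem_nb {d : Bool} {X : Finset V} {v u : V} : u ∈ nb R d X v ↔ u ∈ X ∧ Adj R d v u := by simp [nb]

theorem card_nb_add {d : Bool} {X : Finset V} {v : V} :
    (nb R d X v).card + (X.filter (fun u => ¬ Adj R d v u)).card = X.card := by
  rw [nb, ← card_union_of_disjoint (disjoint_filter_filter_not _ _ _), filter_union_filter_not_eq]

private theorem un_aux1 (x1 : V) (A B Q1 Q2 : Finset V) :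
    insert x1 (A ∪ B) ∪ (Q1 ∪ Q2) = insert x1 (A ∪ Q1 ∪ (B ∪ Q2)) := by
  rw [insert_union, union_union_union_comm]

private theorem un_aux2 (x1 : V) (P A Q1 Q2 : Finset V) :
    P ∪ (insert x1 A ∪ Q1 ∪ Q2) = insert x1 (A ∪ Q1 ∪ (P ∪ Q2)) := by
  rw [insert_union, insert_union, union_insert, union_assoc, union_left_comm P, union_assoc A Q1,
    union_left_comm Q1]

private theorem num_aux1 {ρ C ν o s t w g W : ℝ} (hρ : 1 ≤ ρ) (hs : 0 ≤ s) (ht : 0 ≤ t)
    (e1 : ρ * (1 + (o + t) + s) + C + ν + w ≤ g) (e2 : W ≤ w + (t + 1)) : ρ * o + C + ν + W ≤ g := by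
  have h1 : t + 1 ≤ ρ * (t + 1) := le_mul_of_one_le_left (by linarith only [ht]) hρ
  have h2 : 0 ≤ ρ * s := mul_nonneg (by linarith only [hρ]) hs
  have h3 : ρ * (1 + (o + t) + s) = ρ * o + ρ * (t + 1) + ρ * s := by ring
  linarith only [e1, e2, h1, h2, h3]

private theorem num_aux2 {ρ C ν o s w g W : ℝ} (hρ : 1 ≤ ρ) (hs : 0 ≤ s)
    (e1 : ρ * (0 + (o + 0) + s) + C + ν + w ≤ g) (e2 : W ≤ w + 0) : ρ * o + C + ν + W ≤ g := by
  have h2 : 0 ≤ ρ * s := mul_nonneg (by linarith only [hρ]) hs
  have h3 : ρ * (0 + (o + 0) + s) = ρ * o + ρ * s := by ring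
  linarith only [e1, e2, h2, h3]

private theorem num_aux3 {ρ C ν o s t w g W W' : ℝ} (hρ : 1 ≤ ρ) (ho : 0 ≤ o) (ht : 0 ≤ t)
    (e1 : ρ * (1 + (o + t) + s) + C + ν + w ≤ g) (e2 : W ≤ w + (t + 1)) (e3 : W' ≤ W + o) :
    ρ * s + C + ν + W' ≤ g := by
  have h1 : o + (t + 1) ≤ ρ * (o + (t + 1)) := le_mul_of_one_le_left (by linarith only [ht, ho]) hρ
  have h3 : ρ * (1 + (o + t) + s) = ρ * (o + (t + 1)) + ρ * s := by ring
  linarith only [e1, e2, e3, h1, h3]

private theorem num_aux4 {ρ C ν o s w g W W' : ℝ} (hρ : 1 ≤ ρ) (ho : 0 ≤ o)
    (e1 : ρ * (0 + (o + 0) + s) + C + ν + w ≤ g) (e2 : W ≤ w + 0) (e3 : W' ≤ W + o) :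
    ρ * s + C + ν + W' ≤ g := by
  have h1 : o ≤ ρ * o := le_mul_of_one_le_left ho hρ
  have h3 : ρ * (0 + (o + 0) + s) = ρ * o + ρ * s := by ring
  linarith only [e1, e2, e3, h1, h3]

theorem ext {b : ℕ} {ρ C ν : ℝ} (hρ : 1 ≤ ρ) (hU : Un R b ρ C) {G : Bool → Finset V}
    (hG : Disjoint (G false) (G true)) {σ : Bool} (hT : TypS R σ ν G) (F : Fl) : ∀ (e : Bool), F.Ok σ e → F.un.Deg b →
    ∀ x ∈ G e, ∀ P ⊆ G e, x ∉ P → Emb R (topE e F) x P → ∀ W : Finset V, insert x P ⊆ W →
      (∀ j, off e j F ≠ 0 → ρ * off e j F + C + ν + (W ∩ G j).card ≤ ((G j).card : ℝ)) →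
      ∃ Q ⊆ G false ∪ G true, Disjoint Q W ∧ Emb R F.un x (P ∪ Q) ∧ ∀ j, (Q ∩ G j).card ≤ off e j F := by
  have hGG : ∀ e e' : Bool, e' ≠ e → Disjoint (G e') (G e) := by
    intro e e' h
    cases e <;> cases e' <;> simp_all [hG.symm]
  have hsub : ∀ e : Bool, G e ⊆ G false ∪ G true := by
    intro e
    cases e
    · exact subset_union_left
    · exact subset_union_right
  induction F with
  | nil =>
    intro e _ _ x _ P _ _ hE W _ _
    have hP : P = ∅ := hE
    subst hP
    exact ⟨∅, by simp, by simp, (by simp : (∅ : Finset V) ∪ ∅ = ∅), by simp⟩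
  | node d e' c s ihc ihs =>
    intro e hV hD x hx P hP hxP hE W hW hc
    obtain ⟨hV1, hV2, hV3⟩ := hV
    obtain ⟨hD1, hD2, hD3⟩ := hD
    by_cases h : e' = e
    · subst h
      simp only [topE, if_true] at hE
      obtain ⟨x1, A, B, h1, h2, h3, h4, h5, h6, h7⟩ := hE
      subst h5
      have hx1 : x1 ∈ G e' := hP (by simp)
      have hA : A ⊆ G e' := fun v hv => hP (by simp [hv])
      have hB : B ⊆ G e' := fun v hv => hP (by simp [hv])
      have hx1W : x1 ∈ W := hW (by simp)
      have hAW : A ⊆ W := fun v hv => hW (by simp [hv])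
      have hBW : B ⊆ W := fun v hv => hW (by simp [hv])
      have hxW : x ∈ W := hW (by simp)
      simp only [off, if_true] at hc
      have hoc : ∀ j, (0 : ℝ) ≤ ρ * off e' j c := fun j => by positivity
      have hos : ∀ j, (0 : ℝ) ≤ ρ * off e' j s := fun j => by positivity
      obtain ⟨Q1, q1, q2, q3, q4⟩ := ihc e' hV2 hD2 x1 hx1 A hA h2 h6 W
        (by intro v hv; rw [mem_insert] at hv; rcases hv with rfl | hv; exacts [hx1W, hAW hv]) (by
          intro j hj
          have e1 := hc j (by omega)
          push_cast at e1
          rw [mul_add] at e1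
          linarith only [e1, hos j])
      obtain ⟨Q2, r1, r2, r3, r4⟩ := ihs e' hV3 hD3 x hx B hB (by
          intro hxB; exact hxP (by simp [hxB])) h7 (W ∪ Q1)
        (by intro v hv; rw [mem_insert] at hv; rcases hv with rfl | hv; exacts [mem_union_left _ hxW, mem_union_left _ (hBW hv)]) (by
          intro j hj
          have e1 := hc j (by omega)
          push_cast at e1
          have e2 : (((W ∪ Q1) ∩ G j).card : ℝ) ≤ (W ∩ G j).card + off e' j c := by
            have : ((W ∪ Q1) ∩ G j).card ≤ (W ∩ G j).card + (Q1 ∩ G j).card := by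
              rw [union_inter_distrib_right]; exact card_union_le _ _
            exact_mod_cast this.trans (by have := q4 j; omega)
          have e3 : (off e' j c : ℝ) ≤ ρ * off e' j c := le_mul_of_one_le_left (Nat.cast_nonneg _) hρ
          rw [mul_add] at e1
          linarith only [e1, e2, e3])
      rw [disjoint_union_right] at r2
      refine ⟨Q1 ∪ Q2, union_subset q1 r1, disjoint_union_left.2 ⟨q2, r2.1⟩, ?_, ?_⟩
      · refine ⟨x1, A ∪ Q1, B ∪ Q2, h1, ?_, ?_, ?_, ?_, q3, r3⟩
        · rw [mem_union, not_or]
          exact ⟨h2, fun h => disjoint_left.1 q2 h hx1W⟩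
        · rw [mem_union, not_or]
          exact ⟨h3, fun h => disjoint_left.1 r2.1 h hx1W⟩
        · rw [disjoint_union_left, disjoint_union_right, disjoint_union_right]
          exact ⟨⟨h4, (r2.1.mono_right hAW).symm⟩, ⟨q2.mono_right hBW, r2.2.symm⟩⟩
        · exact un_aux1 x1 A B Q1 Q2
      · intro j
        simp only [off, if_true]
        have : ((Q1 ∪ Q2) ∩ G j).card ≤ (Q1 ∩ G j).card + (Q2 ∩ G j).card := by
          rw [union_inter_distrib_right]; exact card_union_le _ _
        have := q4 j
        have := r4 j
        omega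
    · simp only [topE, if_neg h] at hE
      have hxW : x ∈ W := hW (by simp)
      have hPW : P ⊆ W := fun v hv => hW (by simp [hv])
      -- the off-label tree
      have hnb : ((G e').card : ℝ) - ν ≤ ((nb R d (G e') x).card : ℝ) := by
        have h1 : (((G e').filter (fun v => ¬ Adj R d x v)).card : ℝ) ≤ ν := by
          by_cases hds : d = σ
          · subst hds
            rw [if_pos rfl] at hV1
            cases e <;> cases e'
            · exact absurd rfl h
            · exact absurd (hV1 rfl) (by simp)
            · exact hT.1 x hx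
            · exact absurd rfl h
          · rw [if_neg hds] at hV1
            have hds' : d = !σ := Bool.eq_not.2 hds
            subst hds'
            cases e <;> cases e'
            · exact absurd rfl h
            · exact hT.2 x hx
            · exact absurd (hV1 rfl) (by simp)
            · exact absurd rfl h
        have h2 : ((nb R d (G e') x).card : ℝ) + (((G e').filter (fun v => ¬ Adj R d x v)).card : ℝ) = (G e').card := by
          exact_mod_cast card_nb_add
        linarith
      have hoff : off e e' (.node d e' c s) = 1 + num e' c + off e e' s := by simp [off, h]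
      have hsz := size_topE e' c
      have hsd : ((nb R d (G e') x).card : ℝ) - (W ∩ G e').card ≤ ((nb R d (G e') x \ W).card : ℝ) := by
        have h1 : (nb R d (G e') x).card ≤ (nb R d (G e') x \ W).card + (W ∩ G e').card := by
          rw [← card_sdiff_add_card_inter (nb R d (G e') x) W]
          apply Nat.add_le_add_left
          apply card_le_card
          intro v hv
          rw [mem_inter, mem_nb] at hv
          rw [mem_inter]
          exact ⟨hv.2, hv.1.1⟩
        have : ((nb R d (G e') x).card : ℝ) ≤ (nb R d (G e') x \ W).card + (W ∩ G e').card := by exact_mod_cast h1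
        linarith
      have hce := hc e' (by omega)
      rw [hoff] at hce
      push_cast at hce
      have hszr : (num e' c : ℝ) = (topE e' c).size + off e' e' c := by exact_mod_cast hsz.symm
      have p1 : (0 : ℝ) ≤ off e' e' c := by positivity
      have p2 : (0 : ℝ) ≤ off e e' s := by positivity
      have p3 : (0 : ℝ) ≤ (topE e' c).size := by positivity
      obtain ⟨x1, hx1, A, hA, hxA, -, hEA⟩ := hU (topE e' c) ((len_topE e' c).trans hD1) (deg_topE e' c hD2)
        (nb R d (G e') x \ W) (by
          have : ρ * ((topE e' c).size + 1) ≤ ρ * (1 + num e' c + off e e' s) := by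
            rw [hszr]
            apply mul_le_mul_of_nonneg_left _ (by linarith)
            linarith
          linarith)
      rw [mem_sdiff, mem_nb] at hx1
      have hAG : A ⊆ G e' := fun v hv => (mem_nb.1 (mem_sdiff.1 (hA hv)).1).1
      have hAW : Disjoint A W := by
        rw [disjoint_left]
        intro v hv
        exact (mem_sdiff.1 (hA hv)).2
      have hcardA := hEA.card
      have hI : insert x1 A ⊆ G e' := by
        intro v hv
        rw [mem_insert] at hv
        rcases hv with rfl | hv
        exacts [hx1.1.1, hAG hv]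
      have hID : Disjoint (insert x1 A) W := by
        rw [disjoint_insert_left]
        exact ⟨hx1.2, hAW⟩
      have hIc : (insert x1 A).card = (topE e' c).size + 1 := by
        rw [card_insert_of_notMem hxA, hcardA]
      -- the sizes of `W ∪ insert x1 A`
      have hWj : ∀ j, (((W ∪ insert x1 A) ∩ G j).card : ℝ) ≤
          (W ∩ G j).card + (if e' = j then ((topE e' c).size : ℝ) + 1 else 0) := by
        intro j
        have h1 : ((W ∪ insert x1 A) ∩ G j).card ≤ (W ∩ G j).card + (insert x1 A ∩ G j).card := by
          rw [union_inter_distrib_right]; exact card_union_le _ _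
        have h2 : (insert x1 A ∩ G j).card ≤ if e' = j then (topE e' c).size + 1 else 0 := by
          split_ifs with hj
          · rw [← hIc]; exact card_le_card inter_subset_left
          · rw [Nat.le_zero, card_eq_zero, ← disjoint_iff_inter_eq_empty]
            exact (hGG j e' hj).mono_left hI
        have h3 : ((W ∪ insert x1 A) ∩ G j).card ≤ (W ∩ G j).card + if e' = j then (topE e' c).size + 1 else 0 := by omega
        have h4 : (((W ∪ insert x1 A) ∩ G j).card : ℝ) ≤
            ((((W ∩ G j).card + if e' = j then (topE e' c).size + 1 else 0) : ℕ) : ℝ) := by exact_mod_cast h3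
        refine h4.trans (le_of_eq ?_)
        push_cast
        rfl
      have hnum : ∀ j, (num j c : ℝ) = off e' j c + (if e' = j then ((topE e' c).size : ℝ) else 0) := by
        intro j
        by_cases hj : e' = j
        · subst hj
          rw [if_pos rfl, hszr]; ring
        · rw [if_neg hj, off_ne (fun h => hj h.symm)]; ring
      have hoffn : ∀ j, off e j (.node d e' c s) = (if e' = j then 1 else 0) + num j c + off e j s := by
        intro j
        simp only [off, if_neg h]
      have hoffc : ∀ j, off e' j c ≤ num j c := by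
        intro j
        by_cases hj : e' = j
        · subst hj
          omega
        · rw [off_ne (fun h => hj h.symm)]
      have hoffj : ∀ j, (off e j (.node d e' c s) : ℝ) = (if e' = j then (1 : ℝ) else 0) + num j c + off e j s := by
        intro j
        simp only [off, if_neg h]
        push_cast
        rfl
      obtain ⟨Q1, q1, q2, q3, q4⟩ := ihc e' hV2 hD2 x1 hx1.1.1 A hAG hxA hEA (W ∪ insert x1 A) subset_union_right (by
        intro j hj0
        have e1 := hc j (by have := hoffn j; have := hoffc j; omega)
        rw [hoffj, hnum] at e1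
        have e2 := hWj j
        split_ifs at e1 e2 with hj
        · exact num_aux1 hρ (Nat.cast_nonneg _) p3 e1 e2
        · exact num_aux2 hρ (Nat.cast_nonneg _) e1 e2)
      have hxG : x ∈ W ∪ insert x1 A ∪ Q1 := by simp [hxW]
      obtain ⟨Q2, r1, r2, r3, r4⟩ := ihs e hV3 hD3 x hx P hP hxP hE (W ∪ insert x1 A ∪ Q1) (by
          intro v hv
          rw [mem_insert] at hv
          rcases hv with rfl | hv
          · exact hxG
          · simp [hPW hv]) (by
        intro j hj0
        have e1 := hc j (by have := hoffn j; omega)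
        rw [hoffj, hnum] at e1
        have e2 := hWj j
        have e3 : (((W ∪ insert x1 A ∪ Q1) ∩ G j).card : ℝ) ≤ ((W ∪ insert x1 A) ∩ G j).card + off e' j c := by
          have : ((W ∪ insert x1 A ∪ Q1) ∩ G j).card ≤ ((W ∪ insert x1 A) ∩ G j).card + (Q1 ∩ G j).card := by
            rw [union_inter_distrib_right]; exact card_union_le _ _
          exact_mod_cast this.trans (by have := q4 j; omega)
        split_ifs at e1 e2 with hj
        · exact num_aux3 hρ (Nat.cast_nonneg _) p3 e1 e2 e3
        · exact num_aux4 hρ (Nat.cast_nonneg _) e1 e2 e3)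
      rw [disjoint_union_right] at q2
      rw [disjoint_union_right, disjoint_union_right] at r2
      have hIQ1 : Disjoint (insert x1 A) Q1 := q2.2.symm
      refine ⟨insert x1 A ∪ Q1 ∪ Q2, union_subset (union_subset (hI.trans (hsub e')) q1) r1, ?_, ?_, ?_⟩
      · rw [disjoint_union_left, disjoint_union_left]
        exact ⟨⟨hID, q2.1⟩, r2.1.1⟩
      · refine ⟨x1, A ∪ Q1, P ∪ Q2, hx1.1.2, ?_, ?_, ?_, ?_, q3, r3⟩
        · rw [mem_union, not_or]
          exact ⟨hxA, fun h => disjoint_left.1 hIQ1 (mem_insert_self _ _) h⟩
        · rw [mem_union, not_or]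
          exact ⟨fun h => hx1.2 (hPW h), fun h => disjoint_left.1 r2.1.2 h (mem_insert_self _ _)⟩
        · rw [disjoint_union_left, disjoint_union_right, disjoint_union_right]
          refine ⟨⟨hAW.mono_right hPW, ?_⟩, ⟨q2.1.mono_right hPW, r2.2.symm⟩⟩
          exact (r2.1.2.mono_right (subset_insert _ _)).symm
        · exact un_aux2 x1 P A Q1 Q2
      · intro j
        have h1 : ((insert x1 A ∪ Q1 ∪ Q2) ∩ G j).card ≤ (insert x1 A ∩ G j).card + (Q1 ∩ G j).card + (Q2 ∩ G j).card := by
          rw [union_inter_distrib_right, union_inter_distrib_right]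
          exact (card_union_le _ _).trans (Nat.add_le_add_right (card_union_le _ _) _)
        have h2 : (insert x1 A ∩ G j).card ≤ if e' = j then (topE e' c).size + 1 else 0 := by
          split_ifs with hj
          · rw [← hIc]; exact card_le_card inter_subset_left
          · rw [Nat.le_zero, card_eq_zero, ← disjoint_iff_inter_eq_empty]
            exact (hGG j e' hj).mono_left hI
        have h3 := q4 j
        have h4 := r4 j
        simp only [off, if_neg h]
        by_cases hj : e' = j
        · subst hj
          rw [if_pos rfl] at h2 ⊢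
          omega
        · rw [if_neg hj] at h2 ⊢
          rw [off_ne (fun h => hj h.symm)] at h3
          omega

end AELT
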