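import Pool.Agent.AELT.Defs
import Pool.Agent.AE15.Structure

/-!
# Every long word reaches almost everything in an expanding tournament
-/

set_option autoImplicit false

namespace AELT

open Finset AE15 AED
open scoped Classical

variable {V : Type*} {R : V → V → Prop}

/-- the tournament of the arcs of sign `d` -/
theorem tour_adj (hT : AE32.Tour R) (d : Bool) : AE32.Tour (Adj R d) := by
  cases d with
  | true => exact ⟨fun a h => hT.irr a (by simpa [Adj] using h), fun a b h => by simpa [Adj] using hT.tot a b h,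
      fun a b h => by
        have := hT.asym a b (by simpa [Adj] using h)
        simpa [Adj] using this⟩
  | false => exact ⟨fun a h => hT.irr a (by simpa [Adj] using h), fun a b h => by
        simpa [Adj] using hT.tot b a (Ne.symm h),
      fun a b h => by
        have := hT.asym b a (by simpa [Adj] using h)
        simpa [Adj] using this⟩

theorem nb_eq_nO (d : Bool) (X : Finset V) (v : V) : nb R d X v = nO (Adj R d) X v := rfl

/-- the expansion holds for both signs -/
theorem Ex.adj {a : ℝ} {Y : Finset V} (h : Ex R a Y) (d : Bool) : Ex (Adj R d) a Y := by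
  cases d with
  | true =>
    have h1 : Adj R true = R := by funext a b; simp [Adj]
    rw [h1]; exact h
  | false =>
    intro S hS
    have h1 := h (Y \ S) sdiff_subset
    rw [Finset.sdiff_sdiff_eq_self hS] at h1
    have h2 : ar (Adj R false) S (Y \ S) = ar R (Y \ S) S := by
      unfold ar
      rw [sum_nO_eq_sum_nI (Y \ S) S]
      refine sum_congr rfl (fun s _ => ?_)
      congr 1
    rw [h2, min_comm]
    exact h1

/-- one step: the set of the vertices with many out-neighbours in `S` is larger than `S`, up to a small remainder -/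
theorem step_grow (hT : AE32.Tour R) {α : ℝ} (hα : 0 < α) (hα1 : α ≤ 1) {Y : Finset V} (hE : Ex R (α * Y.card) Y)
    (hm : 10 ≤ α ^ 2 * Y.card) {S : Finset V} (hS : S ⊆ Y) (hs : α / 2 * Y.card ≤ (S.card : ℝ)) :
    ((Y \ Y.filter (fun v => α ^ 2 / 100 * Y.card ≤ ((nO R S v).card : ℝ))).card : ℝ) ≤
      max (α / 4 * Y.card) (((Y \ S).card : ℝ) - α ^ 2 / 20 * Y.card) := by
  set m : ℝ := (Y.card : ℝ) with hmdef
  set k : ℝ := α ^ 2 / 100 * m with hk
  set S' := Y.filter (fun v => k ≤ ((nO R S v).card : ℝ)) with hS'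
  set Z := Y \ S with hZ
  set s : ℝ := (S.card : ℝ) with hsdef
  set z : ℝ := (Z.card : ℝ) with hzdef
  have hm0 : 0 < m := by
    by_contra h
    have : α ^ 2 * m ≤ 0 := mul_nonpos_of_nonneg_of_nonpos (by positivity) (not_lt.1 h)
    linarith
  have hsz : s + z = m := by
    have := card_sdiff_add_card_eq_card hS
    rw [hsdef, hzdef, hmdef, ← this]; push_cast; ring
  have hk0 : 0 ≤ k := by positivity
  -- few vertices of `S` are lost
  have hlost : ((S \ S').card : ℝ) ≤ 2 * k + 1 := by
    have h1 : S \ S' ⊆ S.filter (fun v => (nO R S v).card ≤ ⌈k⌉₊ - 1) := by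
      intro v hv
      rw [mem_sdiff] at hv
      rw [mem_filter]
      refine ⟨hv.1, ?_⟩
      by_contra h
      apply hv.2
      rw [hS', mem_filter]
      refine ⟨hS hv.1, ?_⟩
      have h2 : ⌈k⌉₊ ≤ (nO R S v).card := by omega
      exact (Nat.le_ceil k).trans (by exact_mod_cast h2)
    have h2 := (card_le_card h1).trans (card_low hT S (⌈k⌉₊ - 1))
    have h3 : ((⌈k⌉₊ - 1 : ℕ) : ℝ) ≤ k := by
      rcases Nat.eq_zero_or_pos ⌈k⌉₊ with h | h
      · rw [h]; simpa using hk0
      · have h4 := Nat.ceil_lt_add_one hk0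
        rw [Nat.cast_sub h]
        push_cast
        linarith
    have h4 : ((S \ S').card : ℝ) ≤ ((2 * (⌈k⌉₊ - 1) + 1 : ℕ) : ℝ) := by exact_mod_cast h2
    push_cast at h4
    linarith
  -- many vertices of `Z` are gained
  have hex : α * m * min z s ≤ ((Z ∩ S').card : ℝ) * s + k * z := by
    have h1 := hE Z sdiff_subset
    have h2 : Y \ Z = S := Finset.sdiff_sdiff_eq_self hS
    rw [h2] at h1
    have h3 : (ar R Z S : ℝ) ≤ ((Z ∩ S').card : ℝ) * s + k * z := by
      have h4 : (ar R Z S : ℝ) = ∑ v ∈ Z, ((nO R S v).card : ℝ) := by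
        unfold ar; push_cast; rfl
      have h5 : ∀ v ∈ Z, ((nO R S v).card : ℝ) ≤ (if v ∈ S' then s else 0) + k := by
        intro v hv
        by_cases h : v ∈ S'
        · rw [if_pos h]
          have : ((nO R S v).card : ℝ) ≤ s := by
            rw [hsdef]
            exact_mod_cast card_le_card (nO_sub (R := R) (X := S) (v := v))
          linarith
        · rw [if_neg h]
          have : ¬ (k ≤ ((nO R S v).card : ℝ)) := fun h' => h (by
            rw [hS', mem_filter]; exact ⟨(mem_sdiff.1 hv).1, h'⟩)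
          linarith [not_le.1 this]
      rw [h4]
      refine (sum_le_sum h5).trans ?_
      rw [sum_add_distrib, sum_const, nsmul_eq_mul, ← sum_filter, sum_const, nsmul_eq_mul]
      have h6 : Z.filter (fun v => v ∈ S') = Z ∩ S' := by
        ext v; simp
      rw [h6]
      have : (Z.card : ℝ) * k = k * z := by rw [hzdef]; ring
      linarith
    have h4 : ((min Z.card S.card : ℕ) : ℝ) = min z s := by
      rw [hzdef, hsdef]; exact Nat.cast_min _ _
    rw [h4] at h1
    exact h1.trans h3
  set g : ℝ := ((Z ∩ S').card : ℝ) with hg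
  have hg0 : 0 ≤ g := by positivity
  have hcount : ((Y \ S').card : ℝ) ≤ z - g + (2 * k + 1) := by
    have h1 : Y \ S' ⊆ (Z \ S') ∪ (S \ S') := by
      intro v hv
      rw [mem_sdiff] at hv
      by_cases h : v ∈ S
      · exact mem_union_right _ (mem_sdiff.2 ⟨h, hv.2⟩)
      · exact mem_union_left _ (mem_sdiff.2 ⟨mem_sdiff.2 ⟨hv.1, h⟩, hv.2⟩)
    have h2 := (card_le_card h1).trans (card_union_le _ _)
    have h3 : (Z \ S').card + (Z ∩ S').card = Z.card := card_sdiff_add_card_inter Z S'
    have h4 : ((Z \ S').card : ℝ) + g = z := by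
      rw [hg, hzdef, ← h3]; push_cast; ring
    have h5 : ((Y \ S').card : ℝ) ≤ (Z \ S').card + (S \ S').card := by exact_mod_cast h2
    linarith
  have hs0 : 0 < s := by
    have : 0 < α / 2 * m := by positivity
    linarith
  have hz0 : 0 ≤ z := by positivity
  have hα2 : α ^ 2 ≤ α := by nlinarith
  have hkm : k = α ^ 2 / 100 * m := hk
  rcases le_total s z with hcase | hcase
  · -- small `S`
    rw [min_eq_right hcase] at hex
    have h1 : k * z ≤ α / 50 * m * s := by
      have h2 : z ≤ m := by linarith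
      have h3 : k * z ≤ k * m := mul_le_mul_of_nonneg_left h2 hk0
      have h4 : k * m = α / 50 * m * (α / 2 * m) := by rw [hkm]; ring
      have h5 : α / 50 * m * (α / 2 * m) ≤ α / 50 * m * s := mul_le_mul_of_nonneg_left hs (by positivity)
      linarith
    have h2 : (α * m - α / 50 * m) * s ≤ g * s := by nlinarith
    have h3 : α * m - α / 50 * m ≤ g := le_of_mul_le_mul_right h2 hs0
    refine le_max_of_le_right ?_
    have h4 : α ^ 2 * m ≤ α * m := mul_le_mul_of_nonneg_right hα2 hm0.le
    nlinarith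
  · rw [min_eq_left hcase] at hex
    have h1 : (α * m - k) * z ≤ g * m := by
      have h2 : g * s ≤ g * m := mul_le_mul_of_nonneg_left (by linarith) hg0
      nlinarith
    have h2 : (α - α ^ 2 / 100) * z ≤ g := by
      have h3 : ((α - α ^ 2 / 100) * z) * m ≤ g * m := by rw [hkm] at h1; nlinarith
      exact le_of_mul_le_mul_right h3 hm0
    have h3 : 99 / 100 * α * z ≤ g := by
      have : 99 / 100 * α ≤ α - α ^ 2 / 100 := by nlinarith
      exact (mul_le_mul_of_nonneg_right this hz0).trans h2
    rcases le_total (α / 4 * m) z with hc | hc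
    · refine le_max_of_le_right ?_
      have h4 : 99 / 100 * α * (α / 4 * m) ≤ 99 / 100 * α * z := mul_le_mul_of_nonneg_left hc (by positivity)
      nlinarith
    · refine le_max_of_le_left ?_
      have h4 : (1 - 99 / 100 * α) * z ≤ (1 - 99 / 100 * α) * (α / 4 * m) :=
        mul_le_mul_of_nonneg_left hc (by nlinarith)
      nlinarith

theorem Bk_sub {Y : Finset V} {k : ℝ} {z : V} {d : Bool} (w : List Bool) : Bk R Y k z d w ⊆ Y := by
  cases w with
  | nil => exact filter_subset _ _
  | cons e w => exact filter_subset _ _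

/-- Claim by induction on the length of `w` -/
theorem pat_aux (hT : AE32.Tour R) {α : ℝ} (hα : 0 < α) (hα1 : α ≤ 1) {Y : Finset V} (hE : Ex R (α * Y.card) Y)
    (hm : 10 ≤ α ^ 2 * Y.card) {z : V} (hz : z ∈ Y) (d : Bool) (w : List Bool) :
    α / 2 * Y.card ≤ ((Bk R Y (α ^ 2 / 100 * Y.card) z d w).card : ℝ) ∧
    ((Y \ Bk R Y (α ^ 2 / 100 * Y.card) z d w).card : ℝ) ≤
      max (α / 4 * Y.card) ((Y.card : ℝ) - (w.length : ℝ) * (α ^ 2 / 20 * Y.card)) := by
  have hm0 : (0 : ℝ) < Y.card := by exact_mod_cast card_pos.2 ⟨z, hz⟩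
  have hsplit : ∀ S ⊆ Y, (S.card : ℝ) = Y.card - (Y \ S).card := by
    intro S hS
    have := card_sdiff_add_card_eq_card hS
    have h2 : ((Y \ S).card : ℝ) + S.card = Y.card := by exact_mod_cast this
    linarith
  induction w with
  | nil =>
    constructor
    · -- in- and outdegrees
      have h1 : Bk R Y (α ^ 2 / 100 * Y.card) z d [] = nI (Adj R d) Y z := rfl
      rw [h1]
      have h2 := hE.adj d (Y \ {z}) sdiff_subset
      rw [Finset.sdiff_sdiff_eq_self (singleton_subset_iff.2 hz)] at h2
      have h3 : ar (Adj R d) (Y \ {z}) {z} = (nI (Adj R d) (Y \ {z}) z).card := by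
        unfold ar
        rw [sum_nO_eq_sum_nI]
        simp
      rw [h3, card_singleton] at h2
      have h4 : (nI (Adj R d) (Y \ {z}) z).card ≤ (nI (Adj R d) Y z).card := card_le_card (nI_mono sdiff_subset)
      have h5 : 10 ≤ (Y.card : ℝ) := by
        have : α ^ 2 * Y.card ≤ 1 * Y.card := mul_le_mul_of_nonneg_right (by nlinarith) hm0.le
        linarith
      have h6 : 1 ≤ (Y \ {z}).card := by
        have h7 := card_sdiff_add_card_eq_card (singleton_subset_iff.2 hz)
        have h8 : (10 : ℝ) ≤ (((Y \ {z}).card + 1 : ℕ) : ℝ) := by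
          rw [card_singleton] at h7
          rw [h7]; exact h5
        have h9 : 10 ≤ (Y \ {z}).card + 1 := by exact_mod_cast h8
        omega
      rw [min_eq_right h6] at h2
      have h7 : ((nI (Adj R d) (Y \ {z}) z).card : ℝ) ≤ (nI (Adj R d) Y z).card := by exact_mod_cast h4
      have h8 : α / 2 * (Y.card : ℝ) ≤ α * Y.card * ((1 : ℕ) : ℝ) := by
        push_cast
        nlinarith
      exact h8.trans (h2.trans h7)
    · refine le_max_of_le_right ?_
      simp only [List.length_nil, Nat.cast_zero, zero_mul, sub_zero]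
      exact_mod_cast card_le_card sdiff_subset
  | cons e w ih =>
    obtain ⟨ih1, ih2⟩ := ih
    have h1 : Bk R Y (α ^ 2 / 100 * Y.card) z d (e :: w) =
        Y.filter (fun v => α ^ 2 / 100 * Y.card ≤ ((nO (Adj R e) (Bk R Y (α ^ 2 / 100 * Y.card) z d w) v).card : ℝ)) := rfl
    have h2 := step_grow (tour_adj hT e) hα hα1 (hE.adj e) hm (Bk_sub w) ih1
    rw [← h1] at h2
    have h3 := hsplit _ (Bk_sub (R := R) (Y := Y) (k := α ^ 2 / 100 * Y.card) (z := z) (d := d) (e :: w))
    have h4 := hsplit _ (Bk_sub (R := R) (Y := Y) (k := α ^ 2 / 100 * Y.card) (z := z) (d := d) w)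
    constructor
    · rcases le_max_iff.1 h2 with h | h
      · rw [h3]
        nlinarith
      · rw [h3]
        have : 0 ≤ α ^ 2 / 20 * (Y.card : ℝ) := by positivity
        linarith
    · rcases le_max_iff.1 h2 with h | h
      · exact le_max_of_le_left h
      · rcases le_max_iff.1 ih2 with h5 | h5
        · refine le_max_of_le_left ?_
          have : 0 ≤ α ^ 2 / 20 * (Y.card : ℝ) := by positivity
          linarith
        · refine le_max_of_le_right ?_
          simp only [List.length_cons]
          push_cast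
          linarith

theorem exists_pat {α : ℝ} (hα : 0 < α) (hα1 : α ≤ 1) : ∃ ℓ n₁ : ℕ, ∀ {V : Type} {R : V → V → Prop}, AE32.Tour R →
    ∀ Y : Finset V, n₁ ≤ Y.card → Ex R (α * Y.card) Y → ∀ z ∈ Y, ∀ (d : Bool) (w : List Bool), ℓ ≤ w.length →
      ((Y \ Bk R Y (α ^ 2 / 100 * Y.card) z d w).card : ℝ) ≤ α / 4 * Y.card := by
  refine ⟨⌈20 / α ^ 2⌉₊, ⌈10 / α ^ 2⌉₊, ?_⟩
  intro V R hT Y hn hE z hz d w hw
  have hm : 10 ≤ α ^ 2 * Y.card := by
    have h1 : 10 / α ^ 2 ≤ (Y.card : ℝ) := (Nat.le_ceil _).trans (by exact_mod_cast hn)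
    rw [div_le_iff₀ (by positivity)] at h1
    linarith
  have h1 := (pat_aux hT hα hα1 hE hm hz d w).2
  rcases le_max_iff.1 h1 with h | h
  · exact h
  · have h2 : 20 / α ^ 2 ≤ (w.length : ℝ) := (Nat.le_ceil _).trans (by exact_mod_cast hw)
    rw [div_le_iff₀ (by positivity)] at h2
    have h3 : (0 : ℝ) ≤ Y.card := by positivity
    have h4 : 20 * (Y.card : ℝ) ≤ (w.length : ℝ) * α ^ 2 * Y.card := mul_le_mul_of_nonneg_right h2 h3
    have h5 : (0 : ℝ) ≤ α / 4 * Y.card := by positivity
    have h6 : (w.length : ℝ) * (α ^ 2 / 20 * Y.card) = ((w.length : ℝ) * α ^ 2 * Y.card) / 20 := by ring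
    rw [h6] at h
    linarith

end AELT
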