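import Pool.Agent.AELT.Spine

/-!
# Trees hanging on a vertex of the core
-/

namespace AELT

open Finset AE15 AED
open scoped Classical

variable {V : Type*} {R : V → V → Prop}

/-! ### numbers -/

theorem lam_nonneg (b ℓ : ℕ) : 0 ≤ 1 - 1 / ((b : ℝ) + 1) ^ ℓ := by
  have h1 : (1 : ℝ) ≤ ((b : ℝ) + 1) ^ ℓ := one_le_pow₀ (by linarith [Nat.cast_nonneg (α := ℝ) b])
  have h2 : 1 / ((b : ℝ) + 1) ^ ℓ ≤ 1 := by
    rw [div_le_one (by linarith)]
    exact h1
  linarith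

theorem orp_nonneg (b ℓ J s : ℕ) : 0 ≤ orp b ℓ J s := by
  have h := lam_nonneg b ℓ
  unfold orp
  positivity

theorem orpL_nil (b ℓ J : ℕ) : orpL b ℓ J [] = 0 := by simp [orpL]

theorem orpL_cons (b ℓ J : ℕ) (p : Bool × Fd) (ts : List (Bool × Fd)) :
    orpL b ℓ J (p :: ts) = orp b ℓ J (p.2.size + 1) + orpL b ℓ J ts := by simp [orpL]

theorem orpL_nonneg (b ℓ J : ℕ) (ts : List (Bool × Fd)) : 0 ≤ orpL b ℓ J ts := by
  induction ts with
  | nil => rw [orpL_nil]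
  | cons p ts ih =>
    rw [orpL_cons]
    exact add_nonneg (orp_nonneg _ _ _ _) ih

theorem orpL_eq (b ℓ J : ℕ) (ts : List (Bool × Fd)) : orpL b ℓ J ts = (1 - 1 / ((b : ℝ) + 1) ^ ℓ) ^ J * tsz ts +
    ts.length * ((ℓ * b + 1 : ℝ) ^ J * ((b : ℝ) + 1) ^ (ℓ + 1)) := by
  induction ts with
  | nil => simp [orpL_nil, tsz_nil]
  | cons p ts ih =>
    rw [orpL_cons, ih, tsz_cons, List.length_cons]
    unfold orp
    push_cast
    ring

/-- small trees and generation `0`: the bound is at least the size -/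
theorem le_orp_zero (b ℓ s : ℕ) : (s : ℝ) ≤ orp b ℓ 0 s := by
  unfold orp
  have : (0 : ℝ) ≤ ((b : ℝ) + 1) ^ (ℓ + 1) := by positivity
  simp only [pow_zero, one_mul]
  linarith

theorem le_orp_small (b ℓ J s : ℕ) (h : s ≤ (b + 1) ^ (ℓ + 1)) : (s : ℝ) ≤ orp b ℓ J s := by
  unfold orp
  have h1 : (s : ℝ) ≤ ((b : ℝ) + 1) ^ (ℓ + 1) := by exact_mod_cast h
  have h2 : 0 ≤ (1 - 1 / ((b : ℝ) + 1) ^ ℓ) ^ J * s := mul_nonneg (pow_nonneg (lam_nonneg b ℓ) _) (Nat.cast_nonneg _)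
  have h3 : (1 : ℝ) ≤ (ℓ * b + 1 : ℝ) ^ J := by
    apply one_le_pow₀
    have : (0 : ℝ) ≤ (ℓ : ℝ) * b := by positivity
    linarith
  have h4 : (0 : ℝ) ≤ ((b : ℝ) + 1) ^ (ℓ + 1) := by positivity
  nlinarith

/-- the recursion for the orphans -/
theorem sum_orpL_le (b ℓ J s m : ℕ) (l : List (Bool × List (Bool × Fd))) (hlen : l.length = ℓ)
    (hb : ∀ t ∈ l, t.2.length ≤ b) (hs : s ≤ (b + 1) ^ ℓ * m) (hsum : m + (l.map (fun t => tsz t.2)).sum ≤ s) :
    (l.map (fun t => orpL b ℓ J t.2)).sum ≤ orp b ℓ (J + 1) s := by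
  have h1 : (l.map (fun t => orpL b ℓ J t.2)).sum = (1 - 1 / ((b : ℝ) + 1) ^ ℓ) ^ J * ((l.map (fun t => tsz t.2)).sum : ℕ) +
      ((l.map (fun t => t.2.length)).sum : ℕ) * ((ℓ * b + 1 : ℝ) ^ J * ((b : ℝ) + 1) ^ (ℓ + 1)) := by
    clear hlen hb hsum
    induction l with
    | nil => simp
    | cons t l ih =>
      simp only [List.map_cons, List.sum_cons]
      rw [ih, orpL_eq]
      push_cast
      ring
  have h2 : ((l.map (fun t => t.2.length)).sum : ℕ) ≤ ℓ * b := by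
    have h3 := List.sum_le_card_nsmul (l.map (fun t => t.2.length)) b (by
      intro x hx
      obtain ⟨t, ht, rfl⟩ := List.mem_map.1 hx
      exact hb t ht)
    rw [List.length_map, smul_eq_mul, hlen] at h3
    exact h3
  obtain ⟨lam, hlam⟩ : ∃ lam : ℝ, lam = 1 - 1 / ((b : ℝ) + 1) ^ ℓ := ⟨_, rfl⟩
  have hl0 : 0 ≤ lam := by rw [hlam]; exact lam_nonneg b ℓ
  have hB : (0 : ℝ) < ((b : ℝ) + 1) ^ ℓ := by positivity
  have h3 : (((l.map (fun t => tsz t.2)).sum : ℕ) : ℝ) ≤ lam * s := by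
    have h4 : (s : ℝ) ≤ ((b : ℝ) + 1) ^ ℓ * m := by exact_mod_cast hs
    have h5 : (m : ℝ) + (((l.map (fun t => tsz t.2)).sum : ℕ) : ℝ) ≤ s := by exact_mod_cast hsum
    have h6 : (s : ℝ) / ((b : ℝ) + 1) ^ ℓ ≤ m := by
      rw [div_le_iff₀ hB]
      linarith
    have h7 : lam * s = s - s / ((b : ℝ) + 1) ^ ℓ := by
      rw [hlam]
      ring
    linarith
  have h4 : (((l.map (fun t => t.2.length)).sum : ℕ) : ℝ) ≤ ℓ * b := by exact_mod_cast h2
  rw [h1]
  unfold orp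
  rw [← hlam]
  have h5 : lam ^ J * (((l.map (fun t => tsz t.2)).sum : ℕ) : ℝ) ≤ lam ^ J * (lam * s) :=
    mul_le_mul_of_nonneg_left h3 (pow_nonneg hl0 _)
  have h6 : (0 : ℝ) ≤ (ℓ * b + 1 : ℝ) ^ J * ((b : ℝ) + 1) ^ (ℓ + 1) := by positivity
  have h7 := mul_le_mul_of_nonneg_right (h4.trans (by linarith : (ℓ : ℝ) * b ≤ ℓ * b + 1)) h6
  calc _ ≤ lam ^ J * (lam * s) + (ℓ * b + 1 : ℝ) * ((ℓ * b + 1 : ℝ) ^ J * ((b : ℝ) + 1) ^ (ℓ + 1)) := add_le_add h5 h7
    _ = _ := by ring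

/-! ### the statements -/

/-- the situation in the core -/
structure Ctx (R : V → V → Prop) (b ℓ : ℕ) (ρ C κ : ℝ) (Y U Rc Ro : Finset V) (w₀ : ℕ) : Prop where
  hb : 1 ≤ b
  hρ : 1 ≤ ρ
  hC : 0 ≤ C
  hU : Un R b ρ C
  hUY : U ⊆ Y
  hcY : Rc ⊆ Y
  hoY : Ro ⊆ Y
  h1 : Disjoint U Rc
  h2 : Disjoint U Ro
  h3 : Disjoint Rc Ro
  hc : Conn R Y Rc ℓ w₀
  ho : ∀ y ∈ Y, ∀ d : Bool, κ ≤ ((nb R d Ro y).card : ℝ)

/-- the list statement for `J` generations -/
def LS (R : V → V → Prop) (b ℓ : ℕ) (ρ C κ : ℝ) (Y U Rc Ro : Finset V) (w₀ J : ℕ) (ts : List (Bool × Fd)) : Prop :=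
  ∀ (y : V) (W : Finset V), (∀ p ∈ ts, p.2.len ≤ b ∧ p.2.Deg b) → y ∈ Y → y ∈ W →
    (W ∩ Rc).card + ts.length * cc b ℓ J ≤ w₀ → ρ * orpL b ℓ J ts + C + (W ∩ Ro).card ≤ κ →
    ρ * tsz ts + C + (W ∩ U).card ≤ (U.card : ℝ) →
    ∃ S : Finset V, EmbL R y ts S ∧ S ⊆ U ∪ Rc ∪ Ro ∧ Disjoint S W ∧ (S ∩ Rc).card ≤ ts.length * cc b ℓ J ∧
      ((S ∩ Ro).card : ℝ) ≤ orpL b ℓ J ts ∧ (S ∩ U).card ≤ tsz ts

theorem card_union_inter_le (A B Q : Finset V) : ((A ∪ B) ∩ Q).card ≤ (A ∩ Q).card + (B ∩ Q).card := by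
  rw [union_inter_distrib_right]
  exact card_union_le _ _

/-- from one tree to lists -/
theorem LS.list {b ℓ : ℕ} {ρ C κ : ℝ} {Y U Rc Ro : Finset V} {w₀ J : ℕ} (hρ : 1 ≤ ρ)
    (h : ∀ p : Bool × Fd, LS R b ℓ ρ C κ Y U Rc Ro w₀ J [p]) (ts : List (Bool × Fd)) :
    LS R b ℓ ρ C κ Y U Rc Ro w₀ J ts := by
  induction ts with
  | nil =>
    intro y W _ _ _ _ _ _
    exact ⟨∅, rfl, empty_subset _, disjoint_empty_left _, by simp, by simp [orpL_nil], by simp⟩
  | cons p ts ih =>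
    intro y W hts hy hyW hc1 hc2 hc3
    rw [List.length_cons, add_mul, one_mul] at hc1
    rw [orpL_cons] at hc2
    rw [tsz_cons] at hc3
    push_cast at hc3
    have e1 : orpL b ℓ J [p] = orp b ℓ J (p.2.size + 1) := by rw [orpL_cons, orpL_nil, add_zero]
    have e2 : tsz [p] = p.2.size + 1 := by rw [tsz_cons, tsz_nil, add_zero]
    have e3 := orp_nonneg b ℓ J (p.2.size + 1)
    have e4 := orpL_nonneg b ℓ J ts
    have e5 : (0 : ℝ) ≤ tsz ts := Nat.cast_nonneg _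
    have e6 : (0 : ℝ) ≤ p.2.size := Nat.cast_nonneg _
    obtain ⟨S, s1, s2, s3, s4, s5, s6⟩ := h p y W (fun q hq => by
        rw [List.mem_singleton] at hq
        exact hts q (by simp [hq])) hy hyW (by
          rw [List.length_singleton, one_mul]
          omega) (by rw [e1]; nlinarith) (by rw [e2]; push_cast; nlinarith)
    rw [List.length_singleton, one_mul] at s4
    rw [e1] at s5
    rw [e2] at s6
    have w1 := card_union_inter_le W S Rc
    have w2 : (((W ∪ S) ∩ Ro).card : ℝ) ≤ (W ∩ Ro).card + (S ∩ Ro).card := by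
      exact_mod_cast card_union_inter_le W S Ro
    have w3 : (((W ∪ S) ∩ U).card : ℝ) ≤ (W ∩ U).card + (S ∩ U).card := by
      exact_mod_cast card_union_inter_le W S U
    have s6' : ((S ∩ U).card : ℝ) ≤ p.2.size + 1 := by exact_mod_cast s6
    obtain ⟨S', t1, t2, t3, t4, t5, t6⟩ := ih y (W ∪ S) (fun q hq => hts q (by simp [hq])) hy (mem_union_left _ hyW)
      (by omega) (by nlinarith) (by nlinarith)
    rw [disjoint_union_right] at t3
    have u1 := card_union_inter_le S S' Rc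
    have u2 : (((S ∪ S') ∩ Ro).card : ℝ) ≤ (S ∩ Ro).card + (S' ∩ Ro).card := by
      exact_mod_cast card_union_inter_le S S' Ro
    have u3 := card_union_inter_le S S' U
    obtain ⟨S₁, S₂, f1, f2, f3, f4⟩ := s1
    obtain rfl : S₂ = ∅ := f4
    rw [union_empty] at f2
    refine ⟨S ∪ S', ⟨S, S', t3.2.symm, rfl, by rw [f2]; exact f3, t1⟩, union_subset s2 t2,
      disjoint_union_left.2 ⟨s3, t3.1⟩, ?_, ?_, ?_⟩
    · rw [List.length_cons, add_mul, one_mul]
      omega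
    · rw [orpL_cons]
      linarith
    · rw [tsz_cons]
      omega

/-- a tree embedded as an orphan -/
theorem LS.orphan {b ℓ : ℕ} {ρ C κ : ℝ} {Y U Rc Ro : Finset V} {w₀ : ℕ} (h : Ctx R b ℓ ρ C κ Y U Rc Ro w₀) (J : ℕ)
    (p : Bool × Fd) (hp : ((p.2.size + 1 : ℕ) : ℝ) ≤ orp b ℓ J (p.2.size + 1)) :
    LS R b ℓ ρ C κ Y U Rc Ro w₀ J [p] := by
  intro y W hts hy hyW _ hc2 _
  have hp' := hts p (by simp)
  rw [orpL_cons, orpL_nil, add_zero] at hc2 ⊢
  have hρ := h.hρ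
  have h1 : κ ≤ ((nb R p.1 Ro y).card : ℝ) := h.ho y hy p.1
  have h2 : ((nb R p.1 Ro y).card : ℝ) ≤ (nb R p.1 Ro y \ W).card + (W ∩ Ro).card := by
    have h3 : nb R p.1 Ro y ⊆ (nb R p.1 Ro y \ W) ∪ (W ∩ Ro) := by
      intro u hu
      by_cases huW : u ∈ W
      · exact mem_union_right _ (mem_inter.2 ⟨huW, (mem_filter.1 hu).1⟩)
      · exact mem_union_left _ (mem_sdiff.2 ⟨hu, huW⟩)
    exact_mod_cast (card_le_card h3).trans (card_union_le _ _)
  have h3 : ρ * (p.2.size + 1) + C ≤ ((nb R p.1 Ro y \ W).card : ℝ) := by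
    have h4 : ρ * (p.2.size + 1) ≤ ρ * orp b ℓ J (p.2.size + 1) := by
      refine mul_le_mul_of_nonneg_left ?_ (by linarith)
      push_cast at hp
      exact hp
    linarith
  obtain ⟨x, hx, A, hA, hxA, -, hE⟩ := h.hU p.2 hp'.1 hp'.2 _ h3
  have hsub : insert x A ⊆ nb R p.1 Ro y \ W := insert_subset hx hA
  have hsubo : insert x A ⊆ Ro := hsub.trans (sdiff_subset.trans (filter_subset _ _))
  have hcard : (insert x A).card = p.2.size + 1 := by rw [card_insert_of_notMem hxA, hE.card]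
  refine ⟨insert x A, ⟨insert x A, ∅, disjoint_empty_right _, (union_empty _).symm, ⟨x, A, ?_, hxA, rfl, hE⟩, rfl⟩,
    hsubo.trans subset_union_right, ?_, ?_, ?_, ?_⟩
  · exact (mem_filter.1 (mem_sdiff.1 hx).1).2
  · exact disjoint_of_subset_left hsub sdiff_disjoint
  · have : insert x A ∩ Rc = ∅ := by
      rw [← disjoint_iff_inter_eq_empty]
      exact disjoint_of_subset_left hsubo h.h3.symm
    rw [this]
    simp
  · rw [inter_eq_left.2 hsubo, hcard]
    exact hp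
  · have : insert x A ∩ U = ∅ := by
      rw [← disjoint_iff_inter_eq_empty]
      exact disjoint_of_subset_left hsubo h.h2.symm
    rw [this]
    simp

/-- the side trees of all vertices of a path -/
theorem LS.fam {b ℓ : ℕ} {ρ C κ : ℝ} {Y U Rc Ro : Finset V} {w₀ J : ℕ} (hρ : 1 ≤ ρ)
    (h : ∀ ts, LS R b ℓ ρ C κ Y U Rc Ro w₀ J ts) (l : List (Bool × List (Bool × Fd))) (xs : List V) (W : Finset V)
    (hlen : xs.length = l.length) (hxs : ∀ x ∈ xs, x ∈ Y ∧ x ∈ W) (hl : ∀ t ∈ l, ∀ p ∈ t.2, p.2.len ≤ b ∧ p.2.Deg b)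
    (hc1 : (W ∩ Rc).card + (l.map (fun t => t.2.length * cc b ℓ J)).sum ≤ w₀)
    (hc2 : ρ * (l.map (fun t => orpL b ℓ J t.2)).sum + C + (W ∩ Ro).card ≤ κ)
    (hc3 : ρ * ((l.map (fun t => tsz t.2)).sum : ℕ) + C + (W ∩ U).card ≤ (U.card : ℝ)) :
    ∃ hs : List (V × Finset V), hs.map Prod.fst = xs ∧ (∀ t ∈ l.zip hs, EmbL R t.2.1 t.1.2 t.2.2) ∧
      hs.Pairwise (fun t t' => Disjoint t.2 t'.2) ∧ (∀ t ∈ hs, t.2 ⊆ U ∪ Rc ∪ Ro ∧ Disjoint t.2 W) ∧
      ∃ D : Finset V, (∀ t ∈ hs, t.2 ⊆ D) ∧ (D ∩ Rc).card ≤ (l.map (fun t => t.2.length * cc b ℓ J)).sum ∧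
        ((D ∩ Ro).card : ℝ) ≤ (l.map (fun t => orpL b ℓ J t.2)).sum ∧ (D ∩ U).card ≤ (l.map (fun t => tsz t.2)).sum := by
  induction l generalizing xs W with
  | nil =>
    obtain rfl : xs = [] := List.length_eq_zero_iff.1 hlen
    exact ⟨[], rfl, by simp, List.Pairwise.nil, by simp, ∅, by simp, by simp, by simp, by simp⟩
  | cons t l ih =>
    obtain _ | ⟨x, xs⟩ := xs
    · simp at hlen
    simp only [List.length_cons, Nat.add_right_cancel_iff] at hlen
    simp only [List.map_cons, List.sum_cons] at hc1 hc2 hc3 ⊢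
    simp only [List.mem_cons, forall_eq_or_imp] at hxs hl
    rw [Nat.cast_add] at hc3
    have e1 := orpL_nonneg b ℓ J t.2
    have e2 : 0 ≤ (l.map (fun t => orpL b ℓ J t.2)).sum := by
      apply List.sum_nonneg
      intro a ha
      obtain ⟨t', _, rfl⟩ := List.mem_map.1 ha
      exact orpL_nonneg _ _ _ _
    have e3 : (0 : ℝ) ≤ tsz t.2 := Nat.cast_nonneg _
    have e4 : (0 : ℝ) ≤ (((l.map (fun t => tsz t.2)).sum : ℕ) : ℝ) := Nat.cast_nonneg _
    obtain ⟨S, s1, s2, s3, s4, s5, s6⟩ := h t.2 x W hl.1 hxs.1.1 hxs.1.2 (by omega) (by nlinarith) (by nlinarith)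
    have w1 := card_union_inter_le W S Rc
    have w2 : (((W ∪ S) ∩ Ro).card : ℝ) ≤ (W ∩ Ro).card + (S ∩ Ro).card := by
      exact_mod_cast card_union_inter_le W S Ro
    have w3 : (((W ∪ S) ∩ U).card : ℝ) ≤ (W ∩ U).card + (S ∩ U).card := by
      exact_mod_cast card_union_inter_le W S U
    have s6' : ((S ∩ U).card : ℝ) ≤ tsz t.2 := by exact_mod_cast s6
    obtain ⟨hs, t1, t2, t3, t4, D, t5, t6, t7, t8⟩ := ih xs (W ∪ S) hlen
      (fun z hz => ⟨(hxs.2 z hz).1, mem_union_left _ (hxs.2 z hz).2⟩) hl.2 (by omega) (by nlinarith) (by nlinarith)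
    have u1 := card_union_inter_le S D Rc
    have u2 : (((S ∪ D) ∩ Ro).card : ℝ) ≤ (S ∩ Ro).card + (D ∩ Ro).card := by
      exact_mod_cast card_union_inter_le S D Ro
    have u3 := card_union_inter_le S D U
    refine ⟨(x, S) :: hs, by simp [t1], ?_, ?_, ?_, S ∪ D, ?_, ?_, ?_, ?_⟩
    · simp only [List.zip_cons_cons, List.mem_cons, forall_eq_or_imp]
      exact ⟨s1, t2⟩
    · rw [List.pairwise_cons]
      refine ⟨fun t' ht' => ?_, t3⟩
      have := (t4 t' ht').2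
      rw [disjoint_union_right] at this
      exact this.2.symm
    · simp only [List.mem_cons, forall_eq_or_imp]
      refine ⟨⟨s2, s3⟩, fun t' ht' => ⟨(t4 t' ht').1, ?_⟩⟩
      have := (t4 t' ht').2
      rw [disjoint_union_right] at this
      exact this.1
    · simp only [List.mem_cons, forall_eq_or_imp]
      exact ⟨subset_union_left, fun t' ht' => (t5 t' ht').trans subset_union_right⟩
    · omega
    · linarith
    · omega

theorem zip_aux (l : List (Bool × List (Bool × Fd))) (hs : List (V × Finset V)) (l' : List (Bool × V))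
    (h1 : l'.map Prod.fst = l.map Prod.fst) (h2 : hs.map Prod.fst = l'.map Prod.snd) :
    (l.zip hs).map (fun t => (t.1.1, t.2.1)) = l' := by
  induction l' generalizing l hs with
  | nil =>
    obtain rfl : hs = [] := by simpa using h2
    simp
  | cons p l' ih =>
    obtain _ | ⟨t, l⟩ := l
    · simp at h1
    obtain _ | ⟨u, hs⟩ := hs
    · simp at h2
    simp only [List.map_cons, List.cons.injEq] at h1 h2
    simp only [List.zip_cons_cons, List.map_cons, List.cons.injEq]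
    exact ⟨by rw [← h1.1, h2.1], ih l hs h1.2 h2.2⟩

theorem sum_one_add (l : List (Bool × List (Bool × Fd))) :
    (l.map (fun t => 1 + tsz t.2)).sum = l.length + (l.map (fun t => tsz t.2)).sum := by
  induction l with
  | nil => simp
  | cons t l ih =>
    simp only [List.map_cons, List.sum_cons, List.length_cons, ih]
    omega

/-- one more generation -/
theorem LS.step {b ℓ : ℕ} {ρ C κ : ℝ} {Y U Rc Ro : Finset V} {w₀ J : ℕ} (h : Ctx R b ℓ ρ C κ Y U Rc Ro w₀)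
    (hJ : ∀ ts, LS R b ℓ ρ C κ Y U Rc Ro w₀ J ts) (p : Bool × Fd) : LS R b ℓ ρ C κ Y U Rc Ro w₀ (J + 1) [p] := by
  obtain ⟨d, c⟩ := p
  by_cases hsz : c.size + 1 < (b + 1) ^ (ℓ + 1)
  · exact LS.orphan h (J + 1) _ (le_orp_small b ℓ (J + 1) _ hsz.le)
  push Not at hsz
  intro y W hts hy hyW hc1 hc2 hc3
  have hp := hts (d, c) (by simp)
  rw [orpL_cons, orpL_nil, add_zero] at hc2 ⊢
  rw [tsz_cons, tsz_nil, add_zero] at hc3 ⊢
  rw [List.length_singleton, one_mul] at hc1 ⊢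
  simp only at hc2 hc3 hp ⊢
  push_cast at hc3
  have hρ := h.hρ
  have hC := h.hC
  obtain ⟨l, q, g1, g2, g3, g4, g5, g6, g7⟩ := exists_spine b ℓ h.hb d c hp.1 hp.2 hsz
  rw [sum_one_add, g2] at g6
  -- the heavy end
  have hUW : (U.card : ℝ) ≤ (U \ W).card + (W ∩ U).card := by
    have h3 : U ⊆ (U \ W) ∪ (W ∩ U) := by
      intro u hu
      by_cases huW : u ∈ W
      · exact mem_union_right _ (mem_inter.2 ⟨huW, hu⟩)
      · exact mem_union_left _ (mem_sdiff.2 ⟨hu, huW⟩)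
    exact_mod_cast (card_le_card h3).trans (card_union_le _ _)
  have hqc : (q.2.size : ℝ) + 1 + (((l.map (fun t => tsz t.2)).sum : ℕ) : ℝ) ≤ c.size + 1 := by
    have : q.2.size + 1 + (l.map (fun t => tsz t.2)).sum ≤ c.size + 1 := by omega
    exact_mod_cast this
  have hsn : (0 : ℝ) ≤ (((l.map (fun t => tsz t.2)).sum : ℕ) : ℝ) := Nat.cast_nonneg _
  obtain ⟨z, hz, A, hA, hzA, -, hE⟩ := h.hU q.2 g3 g4 (U \ W) (by nlinarith)
  have hzAU : insert z A ⊆ U \ W := insert_subset hz hA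
  have hzAU' : insert z A ⊆ U := hzAU.trans sdiff_subset
  have hzAc : (insert z A).card = q.2.size + 1 := by rw [card_insert_of_notMem hzA, hE.card]
  have hd1 : insert z A ∩ Rc = ∅ := by
    rw [← disjoint_iff_inter_eq_empty]
    exact disjoint_of_subset_left hzAU' h.h1
  have hd2 : insert z A ∩ Ro = ∅ := by
    rw [← disjoint_iff_inter_eq_empty]
    exact disjoint_of_subset_left hzAU' h.h2
  -- the connection
  have hW1 : ((W ∪ insert z A) ∩ Rc).card ≤ (W ∩ Rc).card := by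
    have := card_union_inter_le W (insert z A) Rc
    rw [hd1, card_empty] at this
    omega
  obtain ⟨l', k1, k2, k3, k4⟩ := h.hc y hy z (h.hUY (mem_sdiff.1 hz).1) (l.map Prod.fst) (by simpa using g2) q.1
    (W ∪ insert z A) (by omega)
  obtain ⟨xs, hxs⟩ : ∃ xs, xs = l'.map Prod.snd := ⟨_, rfl⟩
  have hxl : xs.length = ℓ := by
    rw [hxs, List.length_map, ← g2, ← List.length_map (f := Prod.fst) (as := l), ← k1, List.length_map]
  have hxm : ∀ x ∈ xs, x ∈ Rc ∧ x ∉ W ∪ insert z A := by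
    intro x hx
    rw [hxs] at hx
    obtain ⟨t, ht, rfl⟩ := List.mem_map.1 hx
    exact k4 t ht
  have hXR : xs.toFinset ⊆ Rc := fun x hx => (hxm x (List.mem_toFinset.1 hx)).1
  have hXc : xs.toFinset.card ≤ ℓ := hxl ▸ List.toFinset_card_le xs
  have hXo : xs.toFinset ∩ Ro = ∅ := by
    rw [← disjoint_iff_inter_eq_empty]
    exact disjoint_of_subset_left hXR h.h3
  have hXU : xs.toFinset ∩ U = ∅ := by
    rw [← disjoint_iff_inter_eq_empty]
    exact disjoint_of_subset_left hXR h.h1.symm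
  -- the forbidden set
  obtain ⟨W', hW'⟩ : ∃ W', W' = (W ∪ insert z A) ∪ xs.toFinset := ⟨_, rfl⟩
  have c1 : (W' ∩ Rc).card ≤ (W ∩ Rc).card + ℓ := by
    have h5 := card_union_inter_le (W ∪ insert z A) xs.toFinset Rc
    have h6 : (xs.toFinset ∩ Rc).card ≤ ℓ := (card_le_card inter_subset_left).trans hXc
    rw [hW']
    omega
  have c2 : ((W' ∩ Ro).card : ℝ) ≤ (W ∩ Ro).card := by
    have h5 := card_union_inter_le (W ∪ insert z A) xs.toFinset Ro
    have h6 := card_union_inter_le W (insert z A) Ro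
    rw [hXo, card_empty] at h5
    rw [hd2, card_empty] at h6
    rw [hW']
    exact_mod_cast h5.trans (by omega)
  have c3 : ((W' ∩ U).card : ℝ) ≤ (W ∩ U).card + (q.2.size + 1) := by
    have h5 := card_union_inter_le (W ∪ insert z A) xs.toFinset U
    have h6 := card_union_inter_le W (insert z A) U
    rw [hXU, card_empty] at h5
    have h7 : (insert z A ∩ U).card ≤ q.2.size + 1 := hzAc ▸ card_le_card inter_subset_left
    rw [hW']
    have h8 : (((W ∪ insert z A) ∪ xs.toFinset) ∩ U).card ≤ (W ∩ U).card + (q.2.size + 1) := by omega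
    exact_mod_cast h8
  have hlb : (l.map (fun t => t.2.length * cc b ℓ J)).sum ≤ ℓ * b * cc b ℓ J := by
    have h3 := List.sum_le_card_nsmul (l.map (fun t => t.2.length * cc b ℓ J)) (b * cc b ℓ J) (by
      intro x hx
      obtain ⟨t, ht, rfl⟩ := List.mem_map.1 hx
      exact Nat.mul_le_mul_right _ (g7 t ht).1)
    rw [List.length_map, smul_eq_mul, g2] at h3
    rw [mul_assoc]
    exact h3
  have hor : (l.map (fun t => orpL b ℓ J t.2)).sum ≤ orp b ℓ (J + 1) (c.size + 1) :=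
    sum_orpL_le b ℓ J (c.size + 1) (q.2.size + 1) l g2 (fun t ht => (g7 t ht).1) g5 (by omega)
  have hcc : cc b ℓ (J + 1) = ℓ + ℓ * b * cc b ℓ J := rfl
  rw [hcc] at hc1 ⊢
  have horn : ρ * (l.map (fun t => orpL b ℓ J t.2)).sum ≤ ρ * orp b ℓ (J + 1) (c.size + 1) :=
    mul_le_mul_of_nonneg_left hor (by linarith)
  obtain ⟨hs, r1, r2, r3, r4, D, r5, r6, r7, r8⟩ := LS.fam hρ hJ l xs W' (by rw [hxl, g2])
    (fun x hx => ⟨h.hcY (hxm x hx).1, by
      rw [hW']
      exact mem_union_right _ (List.mem_toFinset.2 hx)⟩)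
    (fun t ht => (g7 t ht).2) (by omega) (by linarith) (by nlinarith)
  have hsl : hs.length = l.length := by
    rw [← List.length_map (f := Prod.fst) (as := hs), r1, hxl, g2]
  have hmemx : ∀ t ∈ hs, t.1 ∈ xs := fun t ht => r1 ▸ List.mem_map.2 ⟨t, ht, rfl⟩
  have hxW' : ∀ x ∈ xs, x ∈ W' := fun x hx => by
    rw [hW']
    exact mem_union_right _ (List.mem_toFinset.2 hx)
  have hnot : ∀ t ∈ hs, ∀ t' ∈ hs, t.1 ∉ t'.2 := fun t ht t' ht' hm =>
    disjoint_left.1 (r4 t' ht').2 hm (hxW' _ (hmemx t ht))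
  have hpw : (hs.map (fun t => insert t.1 t.2)).Pairwise Disjoint := by
    rw [List.pairwise_map]
    have hnd : hs.Pairwise (fun t t' => t.1 ≠ t'.1) := by
      rw [← List.pairwise_map (f := Prod.fst) (R := (· ≠ ·)), r1, hxs]
      exact k3
    refine (r3.and hnd).imp_of_mem (fun {t t'} ht ht' htt => ?_)
    rw [disjoint_insert_left, disjoint_insert_right, mem_insert, not_or]
    exact ⟨⟨htt.2, hnot t ht t' ht'⟩, hnot t' ht' t ht, htt.1⟩
  have hzd : ∀ t ∈ hs, Disjoint (insert t.1 t.2) (insert z A) := by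
    intro t ht
    rw [disjoint_insert_left]
    constructor
    · intro hm
      exact (hxm _ (hmemx t ht)).2 (mem_union_right _ hm)
    · refine disjoint_of_subset_right ?_ (r4 t ht).2
      rw [hW']
      exact subset_union_right.trans subset_union_left
  have hemb := g1.embL y z hs A hsl (by rw [zip_aux l hs l' k1 (r1.trans hxs)]; exact k2) r2 hE hzA hpw
    (fun t ht => hnot t ht t ht) hzd
  obtain ⟨S, hS⟩ : ∃ S, S = insert z A ∪ (hs.map (fun t => insert t.1 t.2)).foldr (· ∪ ·) ∅ := ⟨_, rfl⟩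
  rw [← hS] at hemb
  -- where is it
  have hfold : ∀ (L : List (Finset V)) (Q : Finset V), (∀ B ∈ L, B ⊆ Q) → L.foldr (· ∪ ·) ∅ ⊆ Q := by
    intro L Q
    induction L with
    | nil => intro _; simp
    | cons B L ihL =>
      intro hL
      rw [List.foldr_cons]
      exact union_subset (hL B (by simp)) (ihL (fun B' hB' => hL B' (by simp [hB'])))
  have hSsub : S ⊆ (insert z A ∪ xs.toFinset) ∪ D := by
    rw [hS]
    refine union_subset (subset_union_left.trans subset_union_left) (hfold _ _ ?_)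
    intro B hB
    obtain ⟨t, ht, rfl⟩ := List.mem_map.1 hB
    exact insert_subset (mem_union_left _ (mem_union_right _ (List.mem_toFinset.2 (hmemx t ht))))
      ((r5 t ht).trans subset_union_right)
  have hcnt : ∀ Q : Finset V, (S ∩ Q).card ≤ (insert z A ∩ Q).card + (xs.toFinset ∩ Q).card + (D ∩ Q).card := by
    intro Q
    have h5 := card_le_card (inter_subset_inter_right (u := Q) hSsub)
    have h6 := card_union_inter_le (insert z A ∪ xs.toFinset) D Q
    have h7 := card_union_inter_le (insert z A) xs.toFinset Q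
    omega
  have hSQ : S ⊆ (U ∪ Rc ∪ Ro) \ W := by
    rw [hS]
    refine union_subset ?_ (hfold _ _ ?_)
    · intro u hu
      have := mem_sdiff.1 (hzAU hu)
      exact mem_sdiff.2 ⟨mem_union_left _ (mem_union_left _ this.1), this.2⟩
    · intro B hB
      obtain ⟨t, ht, rfl⟩ := List.mem_map.1 hB
      refine insert_subset ?_ ?_
      · have := hxm _ (hmemx t ht)
        rw [mem_union, not_or] at this
        exact mem_sdiff.2 ⟨mem_union_left _ (mem_union_right _ this.1), this.2.1⟩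
      · intro u hu
        refine mem_sdiff.2 ⟨(r4 t ht).1 hu, fun huW => ?_⟩
        refine disjoint_left.1 (r4 t ht).2 hu ?_
        rw [hW']
        exact mem_union_left _ (mem_union_left _ huW)
  refine ⟨S, hemb, hSQ.trans sdiff_subset, disjoint_of_subset_left hSQ sdiff_disjoint, ?_, ?_, ?_⟩
  · have h5 := hcnt Rc
    rw [hd1, card_empty] at h5
    have h6 : (xs.toFinset ∩ Rc).card ≤ ℓ := (card_le_card inter_subset_left).trans hXc
    omega
  · have h5 := hcnt Ro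
    rw [hd2, hXo, card_empty] at h5
    have h6 : ((S ∩ Ro).card : ℝ) ≤ (D ∩ Ro).card := by
      have : (S ∩ Ro).card ≤ (D ∩ Ro).card := by omega
      exact_mod_cast this
    linarith
  · have h5 := hcnt U
    rw [hXU, card_empty] at h5
    have h7 : (insert z A ∩ U).card ≤ q.2.size + 1 := hzAc ▸ card_le_card inter_subset_left
    omega

theorem LS.all {b ℓ : ℕ} {ρ C κ : ℝ} {Y U Rc Ro : Finset V} {w₀ : ℕ} (h : Ctx R b ℓ ρ C κ Y U Rc Ro w₀) (J : ℕ)
    (ts : List (Bool × Fd)) : LS R b ℓ ρ C κ Y U Rc Ro w₀ J ts := by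
  induction J generalizing ts with
  | zero => exact LS.list h.hρ (fun p => LS.orphan h 0 p (le_orp_zero b ℓ _)) ts
  | succ J ih => exact LS.list h.hρ (fun p => LS.step h ih p) ts

/-- **Trees hanging on a vertex of the core** -/
theorem items {b ℓ : ℕ} {ρ C : ℝ} (hb : 1 ≤ b) (hρ : 1 ≤ ρ) (hC : 0 ≤ C) (hU : Un R b ρ C)
    {Y U Rc Ro : Finset V} (hUY : U ⊆ Y) (hcY : Rc ⊆ Y) (hoY : Ro ⊆ Y) (h1 : Disjoint U Rc) (h2 : Disjoint U Ro)
    (h3 : Disjoint Rc Ro) {w₀ : ℕ} (hc : Conn R Y Rc ℓ w₀) {κ : ℝ} (ho : ∀ y ∈ Y, ∀ d : Bool, κ ≤ ((nb R d Ro y).card : ℝ))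
    (J : ℕ) (ts : List (Bool × Fd)) (hts : ∀ p ∈ ts, p.2.len ≤ b ∧ p.2.Deg b) (y : V) (hy : y ∈ Y) (W : Finset V)
    (hyW : y ∈ W) (hc1 : (W ∩ Rc).card + ts.length * cc b ℓ J ≤ w₀)
    (hc2 : ρ * orpL b ℓ J ts + C + (W ∩ Ro).card ≤ κ) (hc3 : ρ * tsz ts + C + (W ∩ U).card ≤ (U.card : ℝ)) :
    ∃ S : Finset V, EmbL R y ts S ∧ S ⊆ U ∪ Rc ∪ Ro ∧ Disjoint S W ∧ (S ∩ Rc).card ≤ ts.length * cc b ℓ J ∧
      ((S ∩ Ro).card : ℝ) ≤ orpL b ℓ J ts ∧ (S ∩ U).card ≤ tsz ts :=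
  LS.all ⟨hb, hρ, hC, hU, hUY, hcY, hoY, h1, h2, h3, hc, ho⟩ J ts y W hts hy hyW hc1 hc2 hc3

end AELT
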