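import Pool.Agent.AELT.Defs

/-!
# Heavy paths
-/

namespace AELT

open Finset AE15 AED
open scoped Classical

variable {V : Type*} {R : V → V → Prop}

theorem exists_spine (b ℓ : ℕ) (hb : 1 ≤ b) (d : Bool) (c : Fd) (hl : c.len ≤ b) (hd : c.Deg b)
    (hc : (b + 1) ^ (ℓ + 1) ≤ c.size + 1) :
    ∃ (l : List (Bool × List (Bool × Fd))) (q : Bool × Fd), Spine l (d, c) q ∧ l.length = ℓ ∧ q.2.len ≤ b ∧ q.2.Deg b ∧
      c.size + 1 ≤ (b + 1) ^ ℓ * (q.2.size + 1) ∧
      c.size + 1 = q.2.size + 1 + (l.map (fun t => 1 + tsz t.2)).sum ∧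
      ∀ t ∈ l, t.2.length ≤ b ∧ ∀ p ∈ t.2, p.2.len ≤ b ∧ p.2.Deg b := by
  induction ℓ generalizing d c with
  | zero => exact ⟨[], (d, c), Spine.nil _, rfl, hl, hd, by simp, by simp, by simp⟩
  | succ ℓ ih =>
    have h1 : 2 ≤ (b + 1) ^ (ℓ + 1 + 1) := by
      calc 2 ≤ b + 1 := by omega
        _ = (b + 1) ^ 1 := (pow_one _).symm
        _ ≤ (b + 1) ^ (ℓ + 1 + 1) := Nat.pow_le_pow_right (by omega) (by omega)
    have hne : c ≠ .nil := by
      rintro rfl
      simp only [Fd.size] at hc
      omega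
    obtain ⟨a, L, hperm, hsz⟩ := exists_large b c hne hl
    have h2 : c.size + 1 ≤ (b + 1) * (a.2.size + 1) := by nlinarith
    have h3 : (b + 1) ^ (ℓ + 1) ≤ a.2.size + 1 := by
      have h4 : (b + 1) * (b + 1) ^ (ℓ + 1) ≤ (b + 1) * (a.2.size + 1) := by
        calc (b + 1) * (b + 1) ^ (ℓ + 1) = (b + 1) ^ (ℓ + 1 + 1) := by ring
          _ ≤ c.size + 1 := hc
          _ ≤ _ := h2
      exact Nat.le_of_mul_le_mul_left h4 (by omega)
    have hmem : ∀ p, p = a ∨ p ∈ L → p.2.len ≤ b ∧ p.2.Deg b := by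
      intro p hp
      refine (Fd.deg_iff b c).1 hd p ?_
      rw [hperm.mem_iff, List.mem_cons]
      exact hp
    obtain ⟨l, q, e1, e2, e3, e4, e5, e6, e7⟩ := ih a.1 a.2 (hmem a (Or.inl rfl)).1 (hmem a (Or.inl rfl)).2 h3
    have hlen : L.length + 1 ≤ b := by
      have := hperm.length_eq
      rw [List.length_cons] at this
      rw [← this, ← Fd.len_eq]
      exact hl
    have hsize : c.size = a.2.size + 1 + tsz L := by
      rw [Fd.size_eq, (hperm.map _).sum_eq, List.map_cons, List.sum_cons]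
      rfl
    refine ⟨(d, L) :: l, q, Spine.cons d c L a q l hperm e1, by simp [e2], e3, e4, ?_, ?_, ?_⟩
    · calc c.size + 1 ≤ (b + 1) * (a.2.size + 1) := h2
        _ ≤ (b + 1) * ((b + 1) ^ ℓ * (q.2.size + 1)) := Nat.mul_le_mul_left _ e5
        _ = _ := by ring
    · rw [List.map_cons, List.sum_cons]
      simp only
      omega
    · intro t ht
      rcases List.mem_cons.1 ht with rfl | ht
      · exact ⟨by simp only; omega, fun p hp => hmem p (Or.inr hp)⟩
      · exact e7 t ht

/-- hosts `h` for the path, sets for the side trees, the last tree at `z` -/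
theorem Spine.embL {l : List (Bool × List (Bool × Fd))} {p q : Bool × Fd} (h : Spine l p q)
    (y z : V) (hs : List (V × Finset V)) (A : Finset V) (hlen : hs.length = l.length)
    (hw : Wk R y ((l.zip hs).map (fun t => (t.1.1, t.2.1)) ++ [(q.1, z)]))
    (hE : ∀ t ∈ l.zip hs, EmbL R t.2.1 t.1.2 t.2.2) (hA : Emb R q.2 z A) (hz : z ∉ A)
    (hd : (hs.map (fun t => insert t.1 t.2)).Pairwise Disjoint) (h1 : ∀ t ∈ hs, t.1 ∉ t.2)
    (h2 : ∀ t ∈ hs, Disjoint (insert t.1 t.2) (insert z A)) :
    EmbL R y [p] (insert z A ∪ (hs.map (fun t => insert t.1 t.2)).foldr (· ∪ ·) ∅) := by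
  induction h generalizing y hs with
  | nil p =>
    obtain rfl : hs = [] := List.length_eq_zero_iff.1 hlen
    simp only [List.zip_nil_left, List.map_nil, List.nil_append, Wk, and_true] at hw
    simp only [List.map_nil, List.foldr_nil, union_empty]
    exact ⟨insert z A, ∅, disjoint_empty_right _, (union_empty _).symm, ⟨z, A, hw, hz, rfl, hA⟩, rfl⟩
  | cons d c s p q l hperm _ ih =>
    obtain _ | ⟨⟨x, B⟩, hs⟩ := hs
    · simp at hlen
    simp only [List.length_cons, Nat.add_right_cancel_iff] at hlen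
    simp only [List.zip_cons_cons, List.map_cons, List.cons_append, Wk] at hw
    simp only [List.zip_cons_cons, List.mem_cons, forall_eq_or_imp] at hE
    simp only [List.map_cons, List.pairwise_cons] at hd
    simp only [List.mem_cons, forall_eq_or_imp] at h1 h2
    have hS := ih x hs hlen hw.2 hE.2 hA hd.2 h1.2 h2.2
    simp only [List.map_cons, List.foldr_cons]
    set U := (hs.map (fun t => insert t.1 t.2)).foldr (· ∪ ·) ∅ with hU
    have hUd : Disjoint (insert x B) U := by
      have key : ∀ L : List (Finset V), (∀ S ∈ L, Disjoint (insert x B) S) →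
          Disjoint (insert x B) (L.foldr (· ∪ ·) ∅) := by
        intro L
        induction L with
        | nil => intro _; simp
        | cons S L ihL =>
          intro hL
          rw [List.foldr_cons, disjoint_union_right]
          exact ⟨hL S (by simp), ihL (fun S' hS' => hL S' (by simp [hS']))⟩
      exact key _ hd.1
    have hd1 : Disjoint (insert z A ∪ U) (insert x B) := disjoint_union_left.2 ⟨h2.1.symm, hUd.symm⟩
    have hxn : x ∉ insert z A ∪ U := fun hx => disjoint_left.1 hd1 hx (mem_insert_self _ _)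
    have hd2 : Disjoint (insert z A ∪ U) B := disjoint_of_subset_right (subset_insert _ _) hd1
    -- the tree at `x`
    obtain ⟨S₁, S₂, f1, f2, f3, f4⟩ := hS
    obtain rfl : S₂ = ∅ := f4
    rw [union_empty] at f2
    have hx : EmbL R x (p :: s) ((insert z A ∪ U) ∪ B) := ⟨insert z A ∪ U, B, hd2, rfl, by rw [f2]; exact f3, hE.1⟩
    have hx' : Emb R c x ((insert z A ∪ U) ∪ B) := (emb_iff c x _).2 (hx.perm hperm.symm)
    refine ⟨insert x ((insert z A ∪ U) ∪ B), ∅, disjoint_empty_right _, ?_, ⟨x, _, hw.1, ?_, rfl, hx'⟩, rfl⟩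
    · ext u
      simp only [mem_union, mem_insert, notMem_empty, or_false]
      tauto
    · rw [mem_union, not_or]
      exact ⟨hxn, h1.1⟩

end AELT
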